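import Pool.Agent.RMX.Base44

/-! Row D: few families have small sets of rows of small growth at all levels (helper51) -/

set_option autoImplicit false
set_option linter.unusedSectionVars false
set_option linter.unusedVariables false

open scoped BigOperators
open Classical Module

namespace P288

open RMH

section G

variable {ι V : Type} [Fintype ι] [AddCommGroup V] [Module (ZMod 2) V]

/-- the rank of the functions of degree at most `t` on a family -/
noncomputable def RR (t : ℕ) (z : ι → V) : ℕ := finrank (ZMod 2) ↥((PP V t).map (pull z))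

/-- the rows orthogonal to degree `t + 1` which increase the rank by at most `g` -/
noncomputable def Yg (t g : ℕ) (z : ι → V) : Finset (ι → ZMod 2) :=
  Finset.univ.filter (fun y => y ∈ perp ((PP V (t + 1)).map (pull z)) ∧
    finrank (ZMod 2) ↥((PP V (t + 1)).map (pull z) ⊔
      (Submodule.span (ZMod 2) {y}) * (PP V t).map (pull z)) ≤ RR (t + 1) z + g)

lemma RR_le (t : ℕ) (z : ι → V) : RR t z ≤ Fintype.card ι := by
  have := Submodule.finrank_le ((PP V t).map (pull z))
  rwa [finrank_fintype_fun_eq_card] at this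

lemma card_perp (z : ι → V) (t : ℕ) :
    (Finset.univ.filter (fun y : ι → ZMod 2 => y ∈ perp ((PP V t).map (pull z)))).card
      = 2 ^ (Fintype.card ι - RR t z) := by
  have h1 := finrank_perp ((PP V t).map (pull z))
  have h2 : Fintype.card ι - RR t z = finrank (ZMod 2) (perp ((PP V t).map (pull z))) := by
    unfold RR
    omega
  have h3 := Module.card_eq_pow_finrank (K := ZMod 2) (V := perp ((PP V t).map (pull z)))
  rw [ZMod.card] at h3
  rw [h2, ← h3, Fintype.card_subtype]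

end G

section Rows

variable {ι : Type} [Fintype ι] {m : ℕ}

/-- the row `k` of a family -/
def row (x : ι → (Fin m → ZMod 2)) (k : Fin m) : ι → ZMod 2 := fun i => x i k

/-- keep only the rows `J` -/
def keep (J : Finset (Fin m)) (x : ι → (Fin m → ZMod 2)) : ι → (Fin m → ZMod 2) :=
  fun i k => if k ∈ J then x i k else 0

lemma rws_keep {J K : Finset (Fin m)} (h : J ⊆ K) (x : ι → (Fin m → ZMod 2)) :
    rws J (keep K x) = rws J x := by
  funext i k
  show (if (k : Fin m) ∈ K then x i k else 0) = x i k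
  rw [if_pos (h k.2)]

lemma map_rws_le {J K : Finset (Fin m)} (h : J ⊆ K) (t : ℕ) (x : ι → (Fin m → ZMod 2)) :
    (PP (J → ZMod 2) t).map (pull (rws J x)) ≤ (PP (K → ZMod 2) t).map (pull (rws K x)) := by
  rintro _ ⟨p, hp, rfl⟩
  refine ⟨fun v => p (LinearMap.funLeft (ZMod 2) (ZMod 2) (fun j : J => (⟨j, h j.2⟩ : K)) v),
    comp_mem_PP (LinearMap.funLeft (ZMod 2) (ZMod 2) (fun j : J => (⟨j, h j.2⟩ : K))) hp, ?_⟩
  rfl

lemma null_rws {J K : Finset (Fin m)} (h : J ⊆ K) (t : ℕ) {x : ι → (Fin m → ZMod 2)}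
    (hx : Null t (rws K x)) : Null t (rws J x) :=
  hx.comp (LinearMap.funLeft (ZMod 2) (ZMod 2) (fun j : J => (⟨j, h j.2⟩ : K)))

lemma null_rws_of {J : Finset (Fin m)} (t : ℕ) {x : ι → (Fin m → ZMod 2)}
    (hx : Null t x) : Null t (rws J x) :=
  hx.comp (LinearMap.funLeft (ZMod 2) (ZMod 2) (fun j : J => (j : Fin m)))

lemma row_mem_span {K : Finset (Fin m)} {k : Fin m} (hk : k ∈ K) (x : ι → (Fin m → ZMod 2)) :
    row x k ∈ (PP (K → ZMod 2) 1).map (pull (rws K x)) := by
  refine ⟨fun v => v ⟨k, hk⟩, ?_, rfl⟩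
  rw [PP_one]
  exact dual_mem_Aff44 (V := K → ZMod 2)
    (LinearMap.proj (R := ZMod 2) (φ := fun _ : K => ZMod 2) (⟨k, hk⟩ : K))

lemma row_mul_le {J K : Finset (Fin m)} (h : J ⊆ K) {k : Fin m} (hk : k ∈ K) (t : ℕ)
    (x : ι → (Fin m → ZMod 2)) :
    (Submodule.span (ZMod 2) {row x k}) * (PP (J → ZMod 2) t).map (pull (rws J x))
      ≤ (PP (K → ZMod 2) (t + 1)).map (pull (rws K x)) := by
  rw [Submodule.mul_le]
  intro a ha b hb
  have h1 : a ∈ (PP (K → ZMod 2) 1).map (pull (rws K x)) := by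
    have h2 : Submodule.span (ZMod 2) {row x k} ≤ (PP (K → ZMod 2) 1).map (pull (rws K x)) := by
      rw [Submodule.span_le, Set.singleton_subset_iff]
      exact row_mem_span hk x
    exact h2 ha
  obtain ⟨p, hp, rfl⟩ := h1
  obtain ⟨q, hq, rfl⟩ := map_rws_le h t x hb
  refine ⟨p * q, ?_, rfl⟩
  have := mul_mem_PP hp hq
  rwa [add_comm 1 t] at this

lemma row_perp {J K : Finset (Fin m)} (h : J ⊆ K) {k : Fin m} (hk : k ∈ K) (t : ℕ)
    {x : ι → (Fin m → ZMod 2)} (hx : Null (t + 2) (rws K x)) :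
    row x k ∈ perp ((PP (J → ZMod 2) (t + 1)).map (pull (rws J x))) := by
  rw [mem_perp]
  intro d hd
  obtain ⟨q, hq, rfl⟩ := map_rws_le h (t + 1) x hd
  obtain ⟨p, hp, hpe⟩ := row_mem_span hk x
  have h3 := hx _ (by
    have := mul_mem_PP hp hq
    rwa [show 1 + (t + 1) = t + 2 by ring] at this)
  rw [← hpe]
  exact h3

lemma RR_mono {J K : Finset (Fin m)} (h : J ⊆ K) (t : ℕ) (x : ι → (Fin m → ZMod 2)) :
    RR t (rws J x) ≤ RR t (rws K x) := Submodule.finrank_mono (map_rws_le h t x)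

lemma RR_grow {J K : Finset (Fin m)} (h : J ⊆ K) {k : Fin m} (hk : k ∈ K) (t g : ℕ)
    {x : ι → (Fin m → ZMod 2)} (hx : Null (t + 2) (rws K x)) (hy : row x k ∉ Yg t g (rws J x)) :
    RR (t + 1) (rws J x) + g ≤ RR (t + 1) (rws K x) := by
  have h1 : ¬ finrank (ZMod 2) ↥((PP (J → ZMod 2) (t + 1)).map (pull (rws J x)) ⊔
      (Submodule.span (ZMod 2) {row x k}) * (PP (J → ZMod 2) t).map (pull (rws J x)))
      ≤ RR (t + 1) (rws J x) + g := by
    intro h2
    apply hy
    rw [Yg, Finset.mem_filter]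
    exact ⟨Finset.mem_univ _, row_perp h hk t hx, h2⟩
  have h2 : finrank (ZMod 2) ↥((PP (J → ZMod 2) (t + 1)).map (pull (rws J x)) ⊔
      (Submodule.span (ZMod 2) {row x k}) * (PP (J → ZMod 2) t).map (pull (rws J x)))
      ≤ RR (t + 1) (rws K x) :=
    Submodule.finrank_mono (sup_le (map_rws_le h (t + 1) x) (row_mul_le h hk t x))
  omega

/-- a family which vanishes outside `J` -/
def Supp (J : Finset (Fin m)) (x : ι → (Fin m → ZMod 2)) : Prop := ∀ i, ∀ k, k ∉ J → x i k = 0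

lemma supp_keep (J : Finset (Fin m)) (x : ι → (Fin m → ZMod 2)) : Supp J (keep J x) := by
  intro i k hk
  show (if k ∈ J then x i k else 0) = 0
  rw [if_neg hk]

/-- completions of a family by rows orthogonal to degree `t + 1` -/
lemma card_complete (J : Finset (Fin m)) (t : ℕ) (z : ι → (Fin m → ZMod 2)) :
    (Finset.univ.filter (fun x : ι → (Fin m → ZMod 2) => Null (t + 2) x ∧ keep J x = z)).card
      ≤ (2 ^ (Fintype.card ι - RR (t + 1) (rws J z))) ^ (m - J.card) := by
  set K := Finset.univ.filter (fun y : ι → ZMod 2 =>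
    y ∈ perp ((PP (J → ZMod 2) (t + 1)).map (pull (rws J z)))) with hK
  have hKc : K.card = 2 ^ (Fintype.card ι - RR (t + 1) (rws J z)) := card_perp _ _
  have h1 : (Finset.univ.filter (fun x : ι → (Fin m → ZMod 2) =>
      Null (t + 2) x ∧ keep J x = z)).card
      ≤ (Fintype.piFinset (fun _ : {k : Fin m // k ∉ J} => K)).card := by
    refine Finset.card_le_card_of_injOn (fun x k => row x k) ?_ ?_
    · intro x hx
      rw [Finset.mem_coe, Finset.mem_filter] at hx
      rw [Finset.mem_coe, Fintype.mem_piFinset]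
      intro k
      rw [hK, Finset.mem_filter]
      refine ⟨Finset.mem_univ _, ?_⟩
      have h2 : rws J z = rws J x := by
        rw [← hx.2.2]
        exact rws_keep (Finset.Subset.refl J) x
      rw [h2]
      exact row_perp (Finset.subset_univ J) (Finset.mem_univ (k : Fin m)) t (null_rws_of (t + 2) hx.2.1)
    · intro x hx y hy hxy
      rw [Finset.mem_coe, Finset.mem_filter] at hx hy
      funext i k
      by_cases hk : k ∈ J
      · have h3 := congrFun (congrFun (hx.2.2.trans hy.2.2.symm) i) k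
        simp only [keep, if_pos hk] at h3
        exact h3
      · exact congrFun (congrFun hxy ⟨k, hk⟩) i
  rw [Fintype.card_piFinset, Finset.prod_const, Finset.card_univ, hKc,
    Fintype.card_subtype_compl, Fintype.card_fin, Fintype.card_coe] at h1
  exact h1

/-- the hypotheses on the levels -/
def Win (t : ℕ) (δ : ℝ) (J : Finset (Fin m)) (x : ι → (Fin m → ZMod 2)) : Prop :=
  (1 / 2 - δ) * Fintype.card ι ≤ (RR (t + 1) (rws J x) : ℝ) ∧
    (RR (t + 1) (rws J x) : ℝ) ≤ (1 / 2 + δ) * Fintype.card ι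

/-- few rows of small growth -/
def Few (t g : ℕ) (δ' : ℝ) (J : Finset (Fin m)) (x : ι → (Fin m → ZMod 2)) : Prop :=
  ((Yg t g (rws J x)).card : ℝ) < P2 ((1 / 2 - δ') * Fintype.card ι)

lemma win_congr {t : ℕ} {δ : ℝ} {J : Finset (Fin m)} {x y : ι → (Fin m → ZMod 2)}
    (h : rws J x = rws J y) : Win t δ J x ↔ Win t δ J y := by
  unfold Win
  rw [h]

lemma few_congr {t g : ℕ} {δ' : ℝ} {J : Finset (Fin m)} {x y : ι → (Fin m → ZMod 2)}
    (h : rws J x = rws J y) : Few t g δ' J x ↔ Few t g δ' J y := by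
  unfold Few
  rw [h]

/-- the class at level `j` -/
noncomputable def SS (t g : ℕ) (δ δ' : ℝ) (J : ℕ → Finset (Fin m)) (j0 j : ℕ) :
    Finset (ι → (Fin m → ZMod 2)) :=
  Finset.univ.filter (fun x => Supp (J j) x ∧ Null (t + 2) (rws (J j) x) ∧
    (∀ i, j0 ≤ i → i ≤ j → Win t δ (J i) x) ∧ ∀ i, j0 ≤ i → i < j → Few t g δ' (J i) x)

/-- the weighted sum -/
noncomputable def FF (t g : ℕ) (δ δ' θ : ℝ) (J : ℕ → Finset (Fin m)) (j0 j : ℕ) : ℝ :=
  ∑ x ∈ SS (ι := ι) t g δ δ' J j0 j, P2 (-(θ * (RR (t + 1) (rws (J j) x) : ℝ)))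

/-- one step of the induction -/
lemma FF_step (t g : ℕ) (δ δ' θ : ℝ) (J : ℕ → Finset (Fin m)) (j0 j : ℕ) (k : Fin m)
    (hk : k ∉ J j) (hJ : J (j + 1) = insert k (J j)) (hmono : ∀ i, i ≤ j → J i ⊆ J j)
    (hj : j0 ≤ j) (hθ : θ * g = (δ + δ') * Fintype.card ι) (hθ0 : 0 ≤ θ) :
    FF (ι := ι) t g δ δ' θ J j0 (j + 1)
      ≤ FF (ι := ι) t g δ δ' θ J j0 j * P2 (1 + (1 / 2 - δ') * Fintype.card ι) := by
  set n : ℝ := (Fintype.card ι : ℝ) with hn
  have hsub : J j ⊆ J (j + 1) := by rw [hJ]; exact Finset.subset_insert _ _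
  have hkJ : k ∈ J (j + 1) := by rw [hJ]; exact Finset.mem_insert_self _ _
  have hkeep : ∀ i, i ≤ j → ∀ x : ι → (Fin m → ZMod 2), rws (J i) (keep (J j) x) = rws (J i) x :=
    fun i hi x => rws_keep (hmono i hi) x
  -- the map
  have hmaps : ∀ x ∈ SS (ι := ι) t g δ δ' J j0 (j + 1), keep (J j) x ∈
      (SS (ι := ι) t g δ δ' J j0 j).filter (fun z => Few t g δ' (J j) z) := by
    intro x hx
    rw [SS, Finset.mem_filter] at hx
    obtain ⟨-, hs, hnull, hwin, hfew⟩ := hx
    rw [Finset.mem_filter, SS, Finset.mem_filter]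
    refine ⟨⟨Finset.mem_univ _, supp_keep _ _, ?_, ?_, ?_⟩, ?_⟩
    · rw [hkeep j le_rfl]
      exact null_rws hsub _ hnull
    · intro i h1 h2
      rw [win_congr (hkeep i h2 x)]
      exact hwin i h1 (by omega)
    · intro i h1 h2
      rw [few_congr (hkeep i (by omega) x)]
      exact hfew i h1 (by omega)
    · rw [few_congr (hkeep j le_rfl x)]
      exact hfew j hj (by omega)
  have h1 : FF (ι := ι) t g δ δ' θ J j0 (j + 1)
      = ∑ z ∈ (SS (ι := ι) t g δ δ' J j0 j).filter (fun z => Few t g δ' (J j) z),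
        ∑ x ∈ (SS (ι := ι) t g δ δ' J j0 (j + 1)).filter (fun x => keep (J j) x = z),
          P2 (-(θ * (RR (t + 1) (rws (J (j + 1)) x) : ℝ))) := by
    rw [FF]
    exact (Finset.sum_fiberwise_of_maps_to hmaps _).symm
  rw [h1]
  have h2 : ∀ z ∈ (SS (ι := ι) t g δ δ' J j0 j).filter (fun z => Few t g δ' (J j) z),
      ∑ x ∈ (SS (ι := ι) t g δ δ' J j0 (j + 1)).filter (fun x => keep (J j) x = z),
          P2 (-(θ * (RR (t + 1) (rws (J (j + 1)) x) : ℝ)))
      ≤ P2 (-(θ * (RR (t + 1) (rws (J j) z) : ℝ))) * P2 (1 + (1 / 2 - δ') * n) := by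
    intro z hz
    rw [Finset.mem_filter, SS, Finset.mem_filter] at hz
    obtain ⟨⟨-, hs, hnull, hwin, hfew⟩, hfewj⟩ := hz
    set w0 : ℝ := P2 (-(θ * (RR (t + 1) (rws (J j) z) : ℝ))) with hw0
    set Y := Yg t g (rws (J j) z) with hY
    set K := Finset.univ.filter (fun y : ι → ZMod 2 =>
      y ∈ perp ((PP (J j → ZMod 2) (t + 1)).map (pull (rws (J j) z)))) with hK
    have hKc : (K.card : ℝ) ≤ P2 ((1 / 2 + δ) * n) := by
      have h3 : K.card = 2 ^ (Fintype.card ι - RR (t + 1) (rws (J j) z)) := card_perp _ _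
      rw [h3, Nat.cast_pow, Nat.cast_ofNat, P2_nat, Nat.cast_sub (RR_le _ _)]
      apply P2_mono
      have := (hwin j hj le_rfl).1
      linarith
    -- pointwise bound
    have hpt : ∀ x ∈ (SS (ι := ι) t g δ δ' J j0 (j + 1)).filter (fun x => keep (J j) x = z),
        P2 (-(θ * (RR (t + 1) (rws (J (j + 1)) x) : ℝ)))
        ≤ (fun y : ι → ZMod 2 => (if y ∈ Y then w0 else 0) + P2 (-(θ * g)) * w0) (row x k) := by
      intro x hx
      rw [Finset.mem_filter, SS, Finset.mem_filter] at hx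
      obtain ⟨⟨-, hsx, hnx, hwx, hfx⟩, hxz⟩ := hx
      have hr : rws (J j) x = rws (J j) z := by
        rw [← hxz]
        exact (hkeep j le_rfl x).symm
      have h4 := RR_mono hsub (t + 1) x
      show _ ≤ (if row x k ∈ Y then w0 else 0) + P2 (-(θ * g)) * w0
      by_cases hy : row x k ∈ Y
      · rw [if_pos hy]
        have h5 : P2 (-(θ * (RR (t + 1) (rws (J (j + 1)) x) : ℝ))) ≤ w0 := by
          apply P2_mono
          have h6 : (RR (t + 1) (rws (J j) z) : ℝ) ≤ RR (t + 1) (rws (J (j + 1)) x) := by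
            rw [← hr]
            exact_mod_cast h4
          nlinarith
        have := mul_pos (P2_pos (-(θ * g))) (P2_pos (-(θ * (RR (t + 1) (rws (J j) z) : ℝ))))
        linarith
      · rw [if_neg hy, zero_add, hw0, ← P2_add]
        apply P2_mono
        have h7 := RR_grow hsub hkJ t g hnx (by rw [hr]; exact hy)
        rw [hr] at h7
        have h8 : (RR (t + 1) (rws (J j) z) : ℝ) + g ≤ RR (t + 1) (rws (J (j + 1)) x) := by
          exact_mod_cast h7
        nlinarith
    refine (Finset.sum_le_sum hpt).trans ?_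
    -- injectivity of the row
    have hinj : Set.InjOn (fun x : ι → (Fin m → ZMod 2) => row x k)
        ↑((SS (ι := ι) t g δ δ' J j0 (j + 1)).filter (fun x => keep (J j) x = z)) := by
      intro x hx y hy hxy
      rw [Finset.mem_coe, Finset.mem_filter, SS, Finset.mem_filter] at hx hy
      funext i l
      by_cases hl : l ∈ J j
      · have h3 := congrFun (congrFun (hx.2.trans hy.2.symm) i) l
        simp only [keep, if_pos hl] at h3
        exact h3
      · by_cases hlk : l = k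
        · rw [hlk]
          exact congrFun hxy i
        · have h9 : l ∉ J (j + 1) := by
            rw [hJ, Finset.mem_insert]
            push Not
            exact ⟨hlk, hl⟩
          rw [hx.1.2.1 i l h9, hy.1.2.1 i l h9]
    rw [← Finset.sum_image (f := fun y : ι → ZMod 2 =>
      (if y ∈ Y then w0 else 0) + P2 (-(θ * g)) * w0) hinj]
    have himg : ((SS (ι := ι) t g δ δ' J j0 (j + 1)).filter (fun x => keep (J j) x = z)).image
        (fun x => row x k) ⊆ K := by
      intro y hy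
      obtain ⟨x, hx, rfl⟩ := Finset.mem_image.1 hy
      rw [Finset.mem_filter, SS, Finset.mem_filter] at hx
      obtain ⟨⟨-, hsx, hnx, hwx, hfx⟩, hxz⟩ := hx
      have hr : rws (J j) z = rws (J j) x := by
        rw [← hxz]
        exact hkeep j le_rfl x
      rw [hK, Finset.mem_filter, hr]
      exact ⟨Finset.mem_univ _, row_perp hsub hkJ t hnx⟩
    have hw0pos : 0 < w0 := P2_pos _
    have hgpos := P2_pos (-(θ * g))
    refine (Finset.sum_le_sum_of_subset_of_nonneg himg (fun y _ _ => ?_)).trans ?_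
    · have := mul_pos hgpos hw0pos
      split_ifs
      · linarith
      · linarith
    rw [Finset.sum_add_distrib, Finset.sum_const, nsmul_eq_mul, ← Finset.sum_filter,
      Finset.sum_const, nsmul_eq_mul]
    have hYK : ((K.filter (fun y => y ∈ Y)).card : ℝ) ≤ P2 ((1 / 2 - δ') * n) := by
      have h10 : (K.filter (fun y => y ∈ Y)).card ≤ Y.card :=
        Finset.card_le_card (fun y hy => (Finset.mem_filter.1 hy).2)
      have h11 : (Y.card : ℝ) < P2 ((1 / 2 - δ') * n) := hfewj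
      have h12 : ((K.filter (fun y => y ∈ Y)).card : ℝ) ≤ Y.card := by exact_mod_cast h10
      linarith
    have h13 : (K.card : ℝ) * P2 (-(θ * g)) ≤ P2 ((1 / 2 - δ') * n) := by
      calc (K.card : ℝ) * P2 (-(θ * g)) ≤ P2 ((1 / 2 + δ) * n) * P2 (-(θ * g)) :=
            mul_le_mul_of_nonneg_right hKc hgpos.le
        _ = P2 ((1 / 2 - δ') * n) := by
            rw [← P2_add]
            congr 1
            rw [hθ]
            ring
    have h14 : P2 (1 + (1 / 2 - δ') * n) = 2 * P2 ((1 / 2 - δ') * n) := by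
      rw [P2_add]
      congr 1
      unfold P2
      rw [Real.rpow_one]
    rw [h14]
    calc ((K.filter (fun y => y ∈ Y)).card : ℝ) * w0 + (K.card : ℝ) * (P2 (-(θ * g)) * w0)
        = (((K.filter (fun y => y ∈ Y)).card : ℝ) + (K.card : ℝ) * P2 (-(θ * g))) * w0 := by ring
      _ ≤ (P2 ((1 / 2 - δ') * n) + P2 ((1 / 2 - δ') * n)) * w0 :=
          mul_le_mul_of_nonneg_right (add_le_add hYK h13) hw0pos.le
      _ = w0 * (2 * P2 ((1 / 2 - δ') * n)) := by ring
  refine (Finset.sum_le_sum h2).trans ?_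
  rw [← Finset.sum_mul, FF]
  refine mul_le_mul_of_nonneg_right ?_ (P2_pos _).le
  exact Finset.sum_le_sum_of_subset_of_nonneg (Finset.filter_subset _ _)
    (fun z _ _ => (P2_pos _).le)

/-- a chain of sets of rows -/
def Chain (J : ℕ → Finset (Fin m)) : Prop :=
  J 0 = ∅ ∧ ∀ j, j < m → ∃ k, k ∉ J j ∧ J (j + 1) = insert k (J j)

lemma Chain.card {J : ℕ → Finset (Fin m)} (hJ : Chain J) {j : ℕ} (hj : j ≤ m) : (J j).card = j := by
  induction j with
  | zero => rw [hJ.1, Finset.card_empty]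
  | succ j ih =>
    obtain ⟨k, hk, hk2⟩ := hJ.2 j (by omega)
    rw [hk2, Finset.card_insert_of_notMem hk, ih (by omega)]

lemma Chain.mono {J : ℕ → Finset (Fin m)} (hJ : Chain J) {i j : ℕ} (hij : i ≤ j) (hj : j ≤ m) :
    J i ⊆ J j := by
  induction j with
  | zero =>
    have : i = 0 := by omega
    rw [this]
  | succ j ih =>
    by_cases h : i ≤ j
    · obtain ⟨k, hk, hk2⟩ := hJ.2 j (by omega)
      refine (ih h (by omega)).trans ?_
      rw [hk2]
      exact Finset.subset_insert _ _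
    · have : i = j + 1 := by omega
      rw [this]

/-- iteration of the step -/
lemma FF_iter (t g : ℕ) (δ δ' θ : ℝ) (J : ℕ → Finset (Fin m)) (hJ : Chain J) (j0 : ℕ)
    (hθ : θ * g = (δ + δ') * Fintype.card ι) (hθ0 : 0 ≤ θ) (d : ℕ) (hd : j0 + d ≤ m) :
    FF (ι := ι) t g δ δ' θ J j0 (j0 + d)
      ≤ FF (ι := ι) t g δ δ' θ J j0 j0 * P2 (d * (1 + (1 / 2 - δ') * Fintype.card ι)) := by
  induction d with
  | zero =>
    rw [Nat.cast_zero, zero_mul, add_zero]
    unfold P2
    rw [Real.rpow_zero, mul_one]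
  | succ d ih =>
    obtain ⟨k, hk, hk2⟩ := hJ.2 (j0 + d) (by omega)
    have h1 := FF_step (ι := ι) t g δ δ' θ J j0 (j0 + d) k hk hk2
      (fun i hi => hJ.mono hi (by omega)) (by omega) hθ hθ0
    have h2 := ih (by omega)
    rw [show j0 + (d + 1) = j0 + d + 1 by ring]
    refine h1.trans ?_
    refine (mul_le_mul_of_nonneg_right h2 (P2_pos _).le).trans (le_of_eq ?_)
    rw [mul_assoc, ← P2_add]
    congr 2
    push_cast
    ring

/-- the first level -/
lemma FF_start (t g : ℕ) (δ δ' θ : ℝ) (J : ℕ → Finset (Fin m)) (j0 : ℕ) (hθ0 : 0 ≤ θ) :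
    FF (ι := ι) t g δ δ' θ J j0 j0
      ≤ (nX ι (J j0 → ZMod 2) (t + 2) : ℝ) * P2 (-(θ * ((1 / 2 - δ) * Fintype.card ι))) := by
  have h1 : (SS (ι := ι) t g δ δ' J j0 j0).card ≤ nX ι (J j0 → ZMod 2) (t + 2) := by
    unfold nX
    rw [cnt_eq]
    refine Finset.card_le_card_of_injOn (fun x => rws (J j0) x) ?_ ?_
    · intro x hx
      rw [Finset.mem_coe, SS, Finset.mem_filter] at hx
      rw [Finset.mem_coe, Finset.mem_filter]
      exact ⟨Finset.mem_univ _, hx.2.2.1⟩
    · intro x hx y hy hxy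
      rw [Finset.mem_coe, SS, Finset.mem_filter] at hx hy
      funext i l
      by_cases hl : l ∈ J j0
      · exact congrFun (congrFun hxy i) ⟨l, hl⟩
      · rw [hx.2.1 i l hl, hy.2.1 i l hl]
  have h2 : FF (ι := ι) t g δ δ' θ J j0 j0
      ≤ ∑ _x ∈ SS (ι := ι) t g δ δ' J j0 j0, P2 (-(θ * ((1 / 2 - δ) * Fintype.card ι))) := by
    refine Finset.sum_le_sum (fun x hx => ?_)
    rw [SS, Finset.mem_filter] at hx
    apply P2_mono
    have h3 := (hx.2.2.2.1 j0 le_rfl le_rfl).1
    nlinarith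
  refine h2.trans ?_
  rw [Finset.sum_const, nsmul_eq_mul]
  refine mul_le_mul_of_nonneg_right ?_ (P2_pos _).le
  exact_mod_cast h1

/-- **Row D**: families whose levels `j0 ≤ j < j1` all have few rows of small growth -/
theorem countD51 (t g : ℕ) (δ δ' θ B : ℝ) (J : ℕ → Finset (Fin m)) (hJ : Chain J) (j0 j1 : ℕ)
    (h01 : j0 ≤ j1) (h1m : j1 ≤ m) (hθ : θ * g = (δ + δ') * Fintype.card ι) (hθ0 : 0 ≤ θ)
    (hB : (nX ι (J j0 → ZMod 2) (t + 2) : ℝ) ≤ B) :
    (cnt (fun x : ι → (Fin m → ZMod 2) => Null (t + 2) x ∧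
      (∀ j, j0 ≤ j → j ≤ j1 → Win t δ (J j) x) ∧
      ∀ j, j0 ≤ j → j < j1 → Few t g δ' (J j) x) : ℝ)
      ≤ B * P2 (2 * (θ * (δ * Fintype.card ι)) + ((j1 : ℝ) - j0) * (1 + (1 / 2 - δ') * Fintype.card ι)
          + ((m : ℝ) - j1) * ((1 / 2 + δ) * Fintype.card ι)) := by
  set n : ℝ := (Fintype.card ι : ℝ) with hn
  set X := Finset.univ.filter (fun x : ι → (Fin m → ZMod 2) => Null (t + 2) x ∧
      (∀ j, j0 ≤ j → j ≤ j1 → Win t δ (J j) x) ∧
      ∀ j, j0 ≤ j → j < j1 → Few t g δ' (J j) x) with hX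
  have hkeep : ∀ i, i ≤ j1 → ∀ x : ι → (Fin m → ZMod 2),
      rws (J i) (keep (J j1) x) = rws (J i) x := fun i hi x => rws_keep (hJ.mono hi h1m) x
  have hmaps : ∀ x ∈ X, keep (J j1) x ∈ SS (ι := ι) t g δ δ' J j0 j1 := by
    intro x hx
    rw [hX, Finset.mem_filter] at hx
    obtain ⟨-, hnull, hwin, hfew⟩ := hx
    rw [SS, Finset.mem_filter]
    refine ⟨Finset.mem_univ _, supp_keep _ _, ?_, ?_, ?_⟩
    · rw [hkeep j1 le_rfl]
      exact null_rws_of (t + 2) hnull
    · intro i h1 h2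
      rw [win_congr (hkeep i h2 x)]
      exact hwin i h1 h2
    · intro i h1 h2
      rw [few_congr (hkeep i (by omega) x)]
      exact hfew i h1 h2
  have hcX : X.card = ∑ z ∈ SS (ι := ι) t g δ δ' J j0 j1,
      (X.filter (fun x => keep (J j1) x = z)).card := Finset.card_eq_sum_card_fiberwise hmaps
  have hm0 : (0 : ℝ) ≤ (m : ℝ) - j1 := by
    have : (j1 : ℝ) ≤ m := by exact_mod_cast h1m
    linarith
  have hz : ∀ z ∈ SS (ι := ι) t g δ δ' J j0 j1,
      (((X.filter (fun x => keep (J j1) x = z)).card : ℕ) : ℝ)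
      ≤ P2 (-(θ * (RR (t + 1) (rws (J j1) z) : ℝ)))
        * P2 (θ * ((1 / 2 + δ) * n) + ((m : ℝ) - j1) * ((1 / 2 + δ) * n)) := by
    intro z hz
    rw [SS, Finset.mem_filter] at hz
    obtain ⟨-, hs, hnull, hwin, hfew⟩ := hz
    have hw := hwin j1 h01 le_rfl
    have h1 : (X.filter (fun x => keep (J j1) x = z)).card
        ≤ (Finset.univ.filter (fun x : ι → (Fin m → ZMod 2) =>
          Null (t + 2) x ∧ keep (J j1) x = z)).card := by
      refine Finset.card_le_card (fun x hx => ?_)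
      rw [Finset.mem_filter, hX, Finset.mem_filter] at hx
      rw [Finset.mem_filter]
      exact ⟨Finset.mem_univ _, hx.1.2.1, hx.2⟩
    have h2 := h1.trans (card_complete (J j1) t z)
    rw [hJ.card h1m] at h2
    have h3 : (((X.filter (fun x => keep (J j1) x = z)).card : ℕ) : ℝ)
        ≤ (((2 ^ (Fintype.card ι - RR (t + 1) (rws (J j1) z))) ^ (m - j1) : ℕ) : ℝ) := by
      exact_mod_cast h2
    refine h3.trans ?_
    rw [← P2_add, Nat.cast_pow, Nat.cast_pow, Nat.cast_ofNat, ← pow_mul, P2_nat, Nat.cast_mul,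
      Nat.cast_sub (RR_le _ _), Nat.cast_sub h1m]
    apply P2_mono
    have h4 : ((Fintype.card ι : ℝ) - RR (t + 1) (rws (J j1) z)) * ((m : ℝ) - j1)
        ≤ ((m : ℝ) - j1) * ((1 / 2 + δ) * n) := by
      rw [mul_comm]
      refine mul_le_mul_of_nonneg_left ?_ hm0
      have := hw.1
      linarith
    have h5 : θ * (RR (t + 1) (rws (J j1) z) : ℝ) ≤ θ * ((1 / 2 + δ) * n) :=
      mul_le_mul_of_nonneg_left hw.2 hθ0
    linarith
  have hsum : (X.card : ℝ) ≤ FF (ι := ι) t g δ δ' θ J j0 j1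
      * P2 (θ * ((1 / 2 + δ) * n) + ((m : ℝ) - j1) * ((1 / 2 + δ) * n)) := by
    rw [hcX, Nat.cast_sum, FF, Finset.sum_mul]
    exact Finset.sum_le_sum hz
  obtain ⟨d, hd⟩ := Nat.exists_eq_add_of_le h01
  have hit := FF_iter (ι := ι) t g δ δ' θ J hJ j0 hθ hθ0 d (by omega)
  rw [← hd] at hit
  have hst := FF_start (ι := ι) t g δ δ' θ J j0 hθ0
  have hB0 : 0 ≤ B := le_trans (Nat.cast_nonneg _) hB
  rw [cnt_eq]
  refine hsum.trans ?_
  have hdR : (d : ℝ) = (j1 : ℝ) - j0 := by
    rw [hd]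
    push_cast
    ring
  calc FF (ι := ι) t g δ δ' θ J j0 j1
      * P2 (θ * ((1 / 2 + δ) * n) + ((m : ℝ) - j1) * ((1 / 2 + δ) * n))
      ≤ (B * P2 (-(θ * ((1 / 2 - δ) * n))) * P2 (d * (1 + (1 / 2 - δ') * n)))
        * P2 (θ * ((1 / 2 + δ) * n) + ((m : ℝ) - j1) * ((1 / 2 + δ) * n)) := by
        refine mul_le_mul_of_nonneg_right ?_ (P2_pos _).le
        refine hit.trans ?_
        refine mul_le_mul_of_nonneg_right ?_ (P2_pos _).le
        refine hst.trans ?_
        exact mul_le_mul_of_nonneg_right hB (P2_pos _).le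
    _ = B * P2 (2 * (θ * (δ * n)) + ((j1 : ℝ) - j0) * (1 + (1 / 2 - δ') * n)
          + ((m : ℝ) - j1) * ((1 / 2 + δ) * n)) := by
        rw [mul_assoc, mul_assoc, ← P2_add, ← P2_add, hdR]
        congr 2
        ring

end Rows

end P288
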