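import Pool.Agent.RMX.Dense71
import Pool.Agent.RMX.RowD51
import Pool.Agent.Helper37.RM.Defs

/-! Row E: a family with many rows of small growth on two sets of rows has many killed points or many
pairs of small rank on both sets (helper51) -/

set_option autoImplicit false
set_option linter.unusedSectionVars false
set_option linter.unusedVariables false

open scoped BigOperators
open Classical Module

namespace P288

open RMH

section Lin

variable {ι : Type} [Fintype ι]

/-! ### restrictions of the orthogonal complement -/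

lemma finrank_perp_inf (P : Submodule (ZMod 2) (ι → ZMod 2)) (Ω : Finset ι) :
    finrank (ZMod 2) ↥(perp P ⊓ LinearMap.ker (pull (fun i : Ω => (i : ι)))) +
      finrank (ZMod 2) ↥(P.map (pull (fun i : (Ωᶜ : Finset ι) => (i : ι)))) ≤ (Ωᶜ : Finset ι).card := by
  set M : Submodule (ZMod 2) (ι → ZMod 2) :=
    perp P ⊓ LinearMap.ker (pull (fun i : Ω => (i : ι))) with hM
  have h0 : ∀ y ∈ M, ∀ i ∈ Ω, y i = 0 := by
    intro y hy i hi
    exact congrFun (LinearMap.mem_ker.1 hy.2) ⟨i, hi⟩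
  have h1 := finrank_map_add (pull (fun i : (Ωᶜ : Finset ι) => (i : ι))) M
  have h2 : M ⊓ LinearMap.ker (pull (fun i : (Ωᶜ : Finset ι) => (i : ι))) = ⊥ := by
    rw [eq_bot_iff]
    intro y hy
    rw [Submodule.mem_bot]
    funext i
    by_cases hi : i ∈ Ω
    · exact h0 y hy.1 i hi
    · exact congrFun (LinearMap.mem_ker.1 hy.2) ⟨i, Finset.mem_compl.2 hi⟩
  have h3 : M.map (pull (fun i : (Ωᶜ : Finset ι) => (i : ι))) ≤
      perp (P.map (pull (fun i : (Ωᶜ : Finset ι) => (i : ι)))) := by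
    rintro _ ⟨y, hy, rfl⟩
    rw [mem_perp]
    rintro _ ⟨p, hp, rfl⟩
    have h4 := mem_perp.1 hy.1 p hp
    rw [← h4]
    have h5 : ∑ i : (Ωᶜ : Finset ι), pull (fun i : (Ωᶜ : Finset ι) => (i : ι)) y i *
        pull (fun i : (Ωᶜ : Finset ι) => (i : ι)) p i = ∑ i ∈ Ωᶜ, y i * p i :=
      Finset.sum_coe_sort Ωᶜ (fun i => y i * p i)
    rw [h5]
    refine Finset.sum_subset (Finset.subset_univ _) ?_
    intro i _ hi
    rw [Finset.mem_compl, not_not] at hi
    rw [h0 y hy i hi, zero_mul]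
  have h6 := finrank_perp (P.map (pull (fun i : (Ωᶜ : Finset ι) => (i : ι))))
  rw [Fintype.card_coe] at h6
  have h7 := Submodule.finrank_mono h3
  rw [h2, finrank_bot] at h1
  omega

/-- the rank of the orthogonal complement on a set of points -/
lemma finrank_perp_map (P : Submodule (ZMod 2) (ι → ZMod 2)) (Ω : Finset ι) :
    Ω.card + finrank (ZMod 2) ↥(P.map (pull (fun i : (Ωᶜ : Finset ι) => (i : ι)))) ≤
      finrank (ZMod 2) ↥((perp P).map (pull (fun i : Ω => (i : ι)))) + finrank (ZMod 2) P := by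
  have h1 := finrank_map_add (pull (fun i : Ω => (i : ι))) (perp P)
  have h2 := finrank_perp_inf P Ω
  have h3 := finrank_perp P
  have h4 : Ω.card + (Ωᶜ : Finset ι).card = Fintype.card ι := Finset.card_add_card_compl Ω
  omega

/-- a subspace of small codimension has small codimension on every set of points -/
lemma finrank_map_codim {B : Type} [AddCommGroup B] [Module (ZMod 2) B]
    (f : (ι → ZMod 2) →ₗ[ZMod 2] B) (D K : Submodule (ZMod 2) (ι → ZMod 2)) (h : D ≤ K) :
    finrank (ZMod 2) ↥(K.map f) + finrank (ZMod 2) D ≤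
      finrank (ZMod 2) ↥(D.map f) + finrank (ZMod 2) K := by
  have h1 := finrank_map_add f K
  have h2 := finrank_map_add f D
  have h3 : finrank (ZMod 2) ↥(D ⊓ LinearMap.ker f) ≤ finrank (ZMod 2) ↥(K ⊓ LinearMap.ker f) :=
    Submodule.finrank_mono (inf_le_inf_right _ h)
  omega

lemma finrank_inf_codim (A D K' : Submodule (ZMod 2) (ι → ZMod 2)) (hA : A ≤ K') (hD : D ≤ K') :
    finrank (ZMod 2) D + finrank (ZMod 2) A ≤ finrank (ZMod 2) ↥(D ⊓ A) + finrank (ZMod 2) K' := by
  have h1 := Submodule.finrank_sup_add_finrank_inf_eq D A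
  have h2 := Submodule.finrank_mono (sup_le hD hA)
  omega

/-- an intersection of subspaces of small codimension -/
lemma exists_inf {σ : Type} (S : Finset σ) (A : σ → Submodule (ZMod 2) (ι → ZMod 2))
    (K : Submodule (ZMod 2) (ι → ZMod 2)) (K' : σ → Submodule (ZMod 2) (ι → ZMod 2))
    (hA : ∀ s ∈ S, A s ≤ K' s) (hK : ∀ s ∈ S, K ≤ K' s) (c : ℝ)
    (hc : ∀ s ∈ S, (finrank (ZMod 2) ↥(K' s) : ℝ) ≤ finrank (ZMod 2) ↥(A s) + c) :
    ∃ D : Submodule (ZMod 2) (ι → ZMod 2), D ≤ K ∧ (∀ s ∈ S, D ≤ A s) ∧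
      (finrank (ZMod 2) K : ℝ) ≤ finrank (ZMod 2) D + S.card * c := by
  induction S using Finset.induction_on with
  | empty => exact ⟨K, le_rfl, fun s hs => absurd hs (Finset.notMem_empty s), by simp⟩
  | insert s S hs ih =>
    obtain ⟨D, hD1, hD2, hD3⟩ := ih (fun a ha => hA a (Finset.mem_insert_of_mem ha))
      (fun a ha => hK a (Finset.mem_insert_of_mem ha))
      (fun a ha => hc a (Finset.mem_insert_of_mem ha))
    refine ⟨D ⊓ A s, inf_le_left.trans hD1, ?_, ?_⟩
    · intro a ha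
      rcases Finset.mem_insert.1 ha with rfl | ha
      · exact inf_le_right
      · exact inf_le_left.trans (hD2 a ha)
    · have h1 := finrank_inf_codim (A s) D (K' s) (hA s (Finset.mem_insert_self _ _))
        (hD1.trans (hK s (Finset.mem_insert_self _ _)))
      have h2 := hc s (Finset.mem_insert_self _ _)
      have h3 : (finrank (ZMod 2) D : ℝ) + finrank (ZMod 2) ↥(A s) ≤
          finrank (ZMod 2) ↥(D ⊓ A s) + finrank (ZMod 2) ↥(K' s) := by exact_mod_cast h1
      rw [Finset.card_insert_of_notMem hs]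
      push_cast
      linarith

/-! ### pairs inside classes -/

lemma exists_pairs {γ : Type} (c : ι → γ) (B : Finset ι) (hB : ∀ i ∈ B, ∃ j, j ≠ i ∧ c i = c j)
    (p : ℕ) (hp : 3 * p ≤ B.card) :
    ∃ u v : Fin p → ι, Function.Injective (Sum.elim u v) ∧ ∀ b, c (u b) = c (v b) := by
  induction p with
  | zero =>
    refine ⟨Fin.elim0, Fin.elim0, ?_, fun b => b.elim0⟩
    rintro (a | a) <;> exact a.elim0
  | succ p ih =>
    obtain ⟨u, v, hinj, huv⟩ := ih (by omega)
    set U : Finset ι := Finset.univ.image (Sum.elim u v) with hU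
    have hUc : U.card = 2 * p := by
      rw [hU, Finset.card_image_of_injective _ hinj, Finset.card_univ, Fintype.card_sum,
        Fintype.card_fin]
      ring
    -- two unused points in a class
    have hex : ∃ i j : ι, i ≠ j ∧ i ∉ U ∧ j ∉ U ∧ c i = c j := by
      by_contra hcon
      push Not at hcon
      have h1 : ∀ i ∈ B \ U, ∃ b : Fin p, c (u b) = c i := by
        intro i hi
        obtain ⟨hiB, hiU⟩ := Finset.mem_sdiff.1 hi
        obtain ⟨j, hji, hc⟩ := hB i hiB
        have hjU : j ∈ U := by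
          by_contra hj
          exact hcon i j hji.symm hiU hj hc
        rw [hU, Finset.mem_image] at hjU
        obtain ⟨a, -, ha⟩ := hjU
        rcases a with b | b
        · exact ⟨b, by rw [hc, ← ha]; rfl⟩
        · exact ⟨b, by rw [hc, ← ha, huv b]; rfl⟩
      have h2 : (B \ U).card ≤ p := by
        have e1 : ((B \ U).image c).card = (B \ U).card := by
          apply Finset.card_image_of_injOn
          intro i hi j hj hij
          by_contra hne
          exact hcon i j hne (Finset.mem_sdiff.1 hi).2 (Finset.mem_sdiff.1 hj).2 hij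
        have e2 : (B \ U).image c ⊆ Finset.univ.image (fun b : Fin p => c (u b)) := by
          intro a ha
          obtain ⟨i, hi, rfl⟩ := Finset.mem_image.1 ha
          obtain ⟨b, hb⟩ := h1 i hi
          exact Finset.mem_image.2 ⟨b, Finset.mem_univ _, hb⟩
        rw [← e1]
        refine (Finset.card_le_card e2).trans (Finset.card_image_le.trans ?_)
        rw [Finset.card_univ, Fintype.card_fin]
      have h3 := Finset.le_card_sdiff U B
      omega
    obtain ⟨i, j, hij, hi, hj, hc⟩ := hex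
    refine ⟨Fin.snoc u i, Fin.snoc v j, ?_, ?_⟩
    · have hu : ∀ b, u b ∈ U := fun b => by
        rw [hU]; exact Finset.mem_image.2 ⟨Sum.inl b, Finset.mem_univ _, rfl⟩
      have hv : ∀ b, v b ∈ U := fun b => by
        rw [hU]; exact Finset.mem_image.2 ⟨Sum.inr b, Finset.mem_univ _, rfl⟩
      have huu : ∀ a b, u a = u b → a = b := fun a b h => by
        have := @hinj (Sum.inl a) (Sum.inl b) h
        exact Sum.inl_injective this
      have hvv : ∀ a b, v a = v b → a = b := fun a b h => by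
        have := @hinj (Sum.inr a) (Sum.inr b) h
        exact Sum.inr_injective this
      have huv' : ∀ a b, u a ≠ v b := fun a b h => by
        have := @hinj (Sum.inl a) (Sum.inr b) h
        exact Sum.inl_ne_inr this
      have su : ∀ a : Fin p, (Fin.snoc u i : Fin (p + 1) → ι) a.castSucc = u a := fun a =>
        Fin.snoc_castSucc (α := fun _ => ι) _ _ _
      have sv : ∀ a : Fin p, (Fin.snoc v j : Fin (p + 1) → ι) a.castSucc = v a := fun a =>
        Fin.snoc_castSucc (α := fun _ => ι) _ _ _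
      have sul : (Fin.snoc u i : Fin (p + 1) → ι) (Fin.last p) = i :=
        Fin.snoc_last (α := fun _ => ι) _ _
      have svl : (Fin.snoc v j : Fin (p + 1) → ι) (Fin.last p) = j :=
        Fin.snoc_last (α := fun _ => ι) _ _
      rintro (a | a) (b | b) h
      · change (Fin.snoc u i : Fin (p + 1) → ι) a = (Fin.snoc u i : Fin (p + 1) → ι) b at h
        congr 1
        revert h
        refine Fin.lastCases ?_ (fun a => ?_) a <;> refine Fin.lastCases ?_ (fun b => ?_) b
        · intro _; rfl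
        · rw [sul, su]; intro h; exact absurd (h ▸ hu b) hi
        · rw [sul, su]; intro h; exact absurd (h ▸ hu a) hi
        · rw [su, su]; intro h; rw [huu _ _ h]
      · change (Fin.snoc u i : Fin (p + 1) → ι) a = (Fin.snoc v j : Fin (p + 1) → ι) b at h
        exfalso
        revert h
        refine Fin.lastCases ?_ (fun a => ?_) a <;> refine Fin.lastCases ?_ (fun b => ?_) b
        · rw [sul, svl]; exact hij
        · rw [sul, sv]; intro h; exact hi (h ▸ hv b)
        · rw [su, svl]; intro h; exact hj (h ▸ hu a)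
        · rw [su, sv]; exact huv' a b
      · change (Fin.snoc v j : Fin (p + 1) → ι) a = (Fin.snoc u i : Fin (p + 1) → ι) b at h
        exfalso
        revert h
        refine Fin.lastCases ?_ (fun a => ?_) a <;> refine Fin.lastCases ?_ (fun b => ?_) b
        · rw [sul, svl]; exact hij.symm
        · rw [su, svl]; intro h; exact hj (h ▸ hu b)
        · rw [sul, sv]; intro h; exact hi (h ▸ hv a)
        · rw [su, sv]; exact fun h => huv' _ _ h.symm
      · change (Fin.snoc v j : Fin (p + 1) → ι) a = (Fin.snoc v j : Fin (p + 1) → ι) b at h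
        congr 1
        revert h
        refine Fin.lastCases ?_ (fun a => ?_) a <;> refine Fin.lastCases ?_ (fun b => ?_) b
        · intro _; rfl
        · rw [svl, sv]; intro h; exact absurd (h ▸ hv b) hj
        · rw [svl, sv]; intro h; exact absurd (h ▸ hv a) hj
        · rw [sv, sv]; intro h; rw [hvv _ _ h]
    · intro b
      refine Fin.lastCases ?_ (fun b => ?_) b
      · rw [Fin.snoc_last (α := fun _ => ι), Fin.snoc_last (α := fun _ => ι)]; exact hc
      · rw [Fin.snoc_castSucc (α := fun _ => ι), Fin.snoc_castSucc (α := fun _ => ι)]; exact huv b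

/-! ### good multipliers -/

/-- the multipliers in `Q` which send a large part of `Y` into `P` -/
noncomputable def Gd (P Q : Submodule (ZMod 2) (ι → ZMod 2)) (Y : Finset (ι → ZMod 2)) (g : ℕ) :
    Finset (ι → ZMod 2) :=
  (Finset.univ.filter (fun w : ι → ZMod 2 => w ∈ Q)).filter
    (fun w => Y.card ≤ 2 ^ (g + 1) * (Y.filter (fun y => y * w ∈ P)).card)

lemma Gd_dense (P Q : Submodule (ZMod 2) (ι → ZMod 2)) (Y : Finset (ι → ZMod 2)) (g : ℕ)
    (hY : Y.Nonempty)
    (h : ∀ y ∈ Y, finrank (ZMod 2) ↥(P ⊔ (Submodule.span (ZMod 2) {y}) * Q) ≤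
      finrank (ZMod 2) P + g) :
    (Finset.univ.filter (fun w : ι → ZMod 2 => w ∈ Q)).card ≤ 2 ^ (g + 1) * (Gd P Q Y g).card := by
  refine good_dense (Finset.univ.filter (fun w : ι → ZMod 2 => w ∈ Q)) Y (fun w y => y * w ∈ P) g
    hY ?_
  intro y hy
  have h1 : Q.map (LinearMap.mulLeft (ZMod 2) y) ≤ (Submodule.span (ZMod 2) {y}) * Q := by
    rintro _ ⟨w, hw, rfl⟩
    exact Submodule.mul_mem_mul (Submodule.mem_span_singleton_self y) hw
  have h2 : finrank (ZMod 2) ↥(P ⊔ Q.map (LinearMap.mulLeft (ZMod 2) y)) ≤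
      finrank (ZMod 2) P + g :=
    (Submodule.finrank_mono (sup_le_sup_left h1 P)).trans (h y hy)
  have h3 := card_of_growth P Q y g h2
  rwa [Finset.filter_filter]

lemma card_Q (Q : Submodule (ZMod 2) (ι → ZMod 2)) :
    (Finset.univ.filter (fun w : ι → ZMod 2 => w ∈ Q)).card = 2 ^ finrank (ZMod 2) Q := by
  have h1 := Module.card_eq_pow_finrank (K := ZMod 2) (V := Q)
  rw [ZMod.card] at h1
  rw [← h1]
  exact (Fintype.card_of_subtype _ (by simp)).symm

/-- the rows sent into `P` by a multiplier -/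
def DD (P K : Submodule (ZMod 2) (ι → ZMod 2)) (w : ι → ZMod 2) :
    Submodule (ZMod 2) (ι → ZMod 2) := K ⊓ P.comap (LinearMap.mulLeft (ZMod 2) w)

lemma DD_large (P Q K : Submodule (ZMod 2) (ι → ZMod 2)) (Y : Finset (ι → ZMod 2)) (g : ℕ)
    (hYK : ∀ y ∈ Y, y ∈ K) (w : ι → ZMod 2) (hw : w ∈ Gd P Q Y g) (a : ℝ)
    (ha : P2 a ≤ Y.card) : a ≤ finrank (ZMod 2) ↥(DD P K w) + (g + 1) := by
  have h1 : Y.card ≤ 2 ^ (g + 1) * (Y.filter (fun y => y * w ∈ P)).card :=
    (Finset.mem_filter.1 hw).2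
  have h2 : (Y.filter (fun y => y * w ∈ P)).card ≤ 2 ^ finrank (ZMod 2) ↥(DD P K w) := by
    rw [← card_Q]
    apply Finset.card_le_card
    intro y hy
    obtain ⟨hy1, hy2⟩ := Finset.mem_filter.1 hy
    refine Finset.mem_filter.2 ⟨Finset.mem_univ _, hYK y hy1, ?_⟩
    rw [SetLike.mem_coe, Submodule.mem_comap, LinearMap.mulLeft_apply, mul_comm]
    exact hy2
  have h3 : (Y.card : ℝ) ≤ P2 (finrank (ZMod 2) ↥(DD P K w) + (g + 1)) := by
    have e1 : Y.card ≤ 2 ^ (g + 1) * 2 ^ finrank (ZMod 2) ↥(DD P K w) :=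
      h1.trans (Nat.mul_le_mul_left _ h2)
    have e2 : (Y.card : ℝ) ≤ 2 ^ (g + 1) * 2 ^ finrank (ZMod 2) ↥(DD P K w) := by exact_mod_cast e1
    refine e2.trans (le_of_eq ?_)
    rw [P2_add, ← P2_nat, mul_comm]
    congr 1
    have := P2_nat (g + 1)
    push_cast at this
    exact this
  have h4 : P2 a ≤ P2 (finrank (ZMod 2) ↥(DD P K w) + (g + 1)) := ha.trans h3
  unfold P2 at h4
  exact (Real.rpow_le_rpow_left_iff (by norm_num)).1 h4

/-- rank of a restriction from dense zeros -/
lemma rank_le_of_Gd {β : Type} [Fintype β] (Q : Submodule (ZMod 2) (ι → ZMod 2))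
    (G : Finset (ι → ZMod 2)) (hGQ : ∀ w ∈ G, w ∈ Q) (g : ℕ) (hne : G.Nonempty)
    (hG : (Finset.univ.filter (fun w : ι → ZMod 2 => w ∈ Q)).card ≤ 2 ^ (g + 1) * G.card)
    (φ : (ι → ZMod 2) →ₗ[ZMod 2] (β → ZMod 2))
    (h : ∀ b, 10 * (G.filter (fun w => φ w b ≠ 0)).card ≤ G.card) :
    finrank (ZMod 2) ↥(Q.map φ) ≤ 4 * (g + 2) := by
  set G' : Finset Q := Finset.univ.filter (fun w : Q => (w : ι → ZMod 2) ∈ G) with hG'
  have himg : ∀ (R : (ι → ZMod 2) → Prop),
      (G'.filter (fun w : Q => R (w : ι → ZMod 2))).card = (G.filter (fun w => R w)).card := by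
    intro R
    refine Finset.card_bij (fun w _ => (w : ι → ZMod 2)) ?_ ?_ ?_
    · intro w hw
      obtain ⟨h1, h2⟩ := Finset.mem_filter.1 hw
      exact Finset.mem_filter.2 ⟨(Finset.mem_filter.1 h1).2, h2⟩
    · intro a _ b _ hab
      exact Subtype.ext hab
    · intro w hw
      obtain ⟨h1, h2⟩ := Finset.mem_filter.1 hw
      exact ⟨⟨w, hGQ w h1⟩, Finset.mem_filter.2 ⟨Finset.mem_filter.2 ⟨Finset.mem_univ _, h1⟩, h2⟩,
        rfl⟩
  have hcard : G'.card = G.card := by
    have := himg (fun _ => True)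
    simpa using this
  have h1 := rank_of_dense (φ.comp Q.subtype) G' g
    (by rw [← Finset.card_pos, hcard]; exact Finset.card_pos.2 hne)
    (by
      rw [hcard]
      refine le_trans (le_of_eq ?_) hG
      exact Fintype.card_of_subtype _ (by simp))
    (by
      intro b
      rw [hcard]
      have e : (G'.filter (fun w : Q => (φ.comp Q.subtype) w b ≠ 0)).card =
          (G.filter (fun w => φ w b ≠ 0)).card := by
        convert himg (fun w => φ w b ≠ 0)
        rfl
      rw [e]
      exact h b)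
  rwa [LinearMap.range_comp, Submodule.range_subtype] at h1

end Lin

section Main

variable {ι : Type} [Fintype ι] {m : ℕ}

/-- the two-sided version in linear form -/
theorem pairs_of_two (t g κ p0 p : ℕ) (hκ : 1 ≤ κ) (hc : Fintype.card ι ≤ 2 ^ κ)
    (hpos : 0 < Fintype.card ι) (δ δ' δ2 ε : ℝ) (hδ : 0 ≤ δ) (hδ' : 0 ≤ δ') (hδ2 : 0 ≤ δ2)
    (hε : 0 ≤ ε)
    (P : Submodule (ZMod 2) (ι → ZMod 2)) (P1 : Fin 2 → Submodule (ZMod 2) (ι → ZMod 2))
    (Q : Fin 2 → Submodule (ZMod 2) (ι → ZMod 2)) (hP : ∀ i, P1 i ≤ P)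
    (Y : Fin 2 → Finset (ι → ZMod 2)) (hYK : ∀ i, ∀ y ∈ Y i, y ∈ perp (P1 i))
    (hYg : ∀ i, ∀ y ∈ Y i, finrank (ZMod 2) ↥(P1 i ⊔ (Submodule.span (ZMod 2) {y}) * Q i) ≤
      finrank (ZMod 2) ↥(P1 i) + g)
    (hY : ∀ i, P2 ((1 / 2 - δ') * Fintype.card ι) ≤ (Y i).card)
    (hr1 : ∀ i, (1 / 2 - δ) * Fintype.card ι ≤ finrank (ZMod 2) ↥(P1 i))
    (hr : (finrank (ZMod 2) ↥P : ℝ) ≤ (1 / 2 + δ2) * Fintype.card ι)
    (hΩ : ∀ Ω : Finset ι, (Ω.card : ℝ) / 2 - ε * Fintype.card ι ≤
      finrank (ZMod 2) ↥(P.map (pull (fun i : Ω => (i : ι)))))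
    (hpar : (δ2 + ε) * Fintype.card ι + 40 * κ * ((δ + δ') * Fintype.card ι + (g + 1)) <
      Fintype.card ι / (200 * κ))
    (hp0 : 400 * κ * p0 ≤ Fintype.card ι) (hp : 1200 * κ * p ≤ Fintype.card ι) :
    (∃ Ω : Finset ι, p0 ≤ Ω.card ∧
      ∀ i, finrank (ZMod 2) ↥((Q i).map (pull (fun j : Ω => (j : ι)))) ≤ 4 * (g + 2)) ∨
    ∃ u v : Fin p → ι, Function.Injective (Sum.elim u v) ∧
      ∀ i, finrank (ZMod 2) ↥((Q i).map (dif u v)) ≤ 4 * (g + 2) := by
  set n : ℝ := (Fintype.card ι : ℝ) with hn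
  have hn0 : 0 < n := by rw [hn]; exact_mod_cast hpos
  have hκ1 : (1 : ℝ) ≤ κ := by exact_mod_cast hκ
  -- the good multipliers
  have hYne : ∀ i, (Y i).Nonempty := by
    intro i
    rw [← Finset.card_pos]
    have h1 : (0 : ℝ) < (Y i).card := lt_of_lt_of_le (P2_pos _) (hY i)
    exact_mod_cast h1
  set G : Fin 2 → Finset (ι → ZMod 2) := fun i => Gd (P1 i) (Q i) (Y i) g with hG
  have hGQ : ∀ i, ∀ w ∈ G i, w ∈ Q i := fun i w hw =>
    (Finset.mem_filter.1 (Finset.mem_filter.1 hw).1).2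
  have hGd : ∀ i, (Finset.univ.filter (fun w : ι → ZMod 2 => w ∈ Q i)).card ≤
      2 ^ (g + 1) * (G i).card := fun i => Gd_dense (P1 i) (Q i) (Y i) g (hYne i) (hYg i)
  have hGne : ∀ i, (G i).Nonempty := by
    intro i
    rw [← Finset.card_pos]
    have h1 : 0 < (Finset.univ.filter (fun w : ι → ZMod 2 => w ∈ Q i)).card :=
      Finset.card_pos.2 ⟨0, Finset.mem_filter.2 ⟨Finset.mem_univ _, (Q i).zero_mem⟩⟩
    have h2 := lt_of_lt_of_le h1 (hGd i)
    by_contra hcon
    have h3 : (G i).card = 0 := by omega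
    rw [h3, mul_zero] at h2
    exact lt_irrefl _ h2
  -- the tuples
  have htup := fun i => exists_tuple κ hκ hc hpos (G i) (hGne i)
  choose w hwG hwsep hwkill using htup
  -- the subspace `D`
  obtain ⟨D, hDK, hDA, hDc⟩ := exists_inf (Finset.univ : Finset (Fin 2 × Fin (20 * κ)))
    (fun s => DD (P1 s.1) (perp (P1 s.1)) (w s.1 s.2)) (perp P) (fun s => perp (P1 s.1))
    (fun s _ => inf_le_left)
    (fun s _ y hy => mem_perp.2 (fun d hd => mem_perp.1 hy d (hP s.1 hd)))
    ((δ + δ') * n + (g + 1))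
    (by
      intro s _
      have h1 := DD_large (P1 s.1) (Q s.1) (perp (P1 s.1)) (Y s.1) g (hYK s.1) (w s.1 s.2)
        (hwG s.1 s.2) _ (hY s.1)
      have h2 := finrank_perp (P1 s.1)
      have h3 : (finrank (ZMod 2) ↥(P1 s.1) : ℝ) + finrank (ZMod 2) ↥(perp (P1 s.1)) = n := by
        rw [hn]; exact_mod_cast h2
      have h4 := hr1 s.1
      linarith)
  have hcard : ((Finset.univ : Finset (Fin 2 × Fin (20 * κ))).card : ℝ) = 40 * κ := by
    rw [Finset.card_univ, Fintype.card_prod, Fintype.card_fin, Fintype.card_fin]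
    push_cast
    ring
  rw [hcard] at hDc
  -- the multipliers
  set L : Submodule (ZMod 2) (ι → ZMod 2) :=
    Submodule.span (ZMod 2) (Set.range (fun s : Fin 2 × Fin (20 * κ) => w s.1 s.2)) with hL
  have hwL : ∀ i s, w i s ∈ L := fun i s => Submodule.subset_span ⟨(i, s), rfl⟩
  have hDL : D * L ≤ P := by
    rw [Submodule.mul_le]
    intro y hy l hl
    have hle : L ≤ P.comap (LinearMap.mulLeft (ZMod 2) y) := by
      rw [hL, Submodule.span_le]
      rintro _ ⟨s, rfl⟩
      have h1 := (hDA s (Finset.mem_univ _) hy).2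
      rw [SetLike.mem_coe, Submodule.mem_comap, LinearMap.mulLeft_apply] at h1 ⊢
      rw [mul_comm]
      exact hP s.1 h1
    exact hle hl
  have hn200 : (δ2 + ε) * n + 40 * κ * ((δ + δ') * n + (g + 1)) < n / (200 * κ) := hpar
  have hcp : 0 ≤ 40 * (κ : ℝ) * ((δ + δ') * n + (g + 1)) := by positivity
  have hsmall : (δ2 + ε) * n ≤ 1 / (200 * κ) * n := by
    have e1 : n / (200 * (κ : ℝ)) = 1 / (200 * κ) * n := by ring
    linarith
  have hfP : (finrank (ZMod 2) ↥P : ℝ) + finrank (ZMod 2) ↥(perp P) = n := by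
    rw [hn]; exact_mod_cast finrank_perp P
  have hlow : n / 2 - ε * n ≤ finrank (ZMod 2) ↥P := by
    have h1 := hΩ Finset.univ
    rw [Finset.card_univ] at h1
    refine h1.trans ?_
    exact_mod_cast Submodule.finrank_map_le _ P
  have hmain := dich_classes L D κ hκ hc hpos
    (by
      have h1 : (finrank (ZMod 2) ↥(D * L) : ℝ) ≤ finrank (ZMod 2) ↥P := by
        exact_mod_cast Submodule.finrank_mono hDL
      rw [← hn]
      nlinarith [mul_nonneg hε hn0.le])
    (by
      have h1 : (finrank (ZMod 2) ↥D : ℝ) ≤ finrank (ZMod 2) ↥(perp P) := by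
        exact_mod_cast Submodule.finrank_mono hDK
      rw [← hn]
      nlinarith [mul_nonneg hδ2 hn0.le])
  rcases hmain with ⟨Ω, hΩd⟩ | hbad
  · -- no deficient set
    exfalso
    rw [← hn] at hΩd
    have h1 := finrank_map_codim (pull (fun i : Ω => (i : ι))) D (perp P) hDK
    have h2 := finrank_perp_map P Ω
    have h3 := hΩ Ωᶜ
    have h4 : Ω.card + (Ωᶜ : Finset ι).card = Fintype.card ι := Finset.card_add_card_compl Ω
    have h1' : (finrank (ZMod 2) ↥((perp P).map (pull (fun i : Ω => (i : ι)))) : ℝ) +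
        finrank (ZMod 2) ↥D ≤ finrank (ZMod 2) ↥(D.map (pull (fun i : Ω => (i : ι)))) +
        finrank (ZMod 2) ↥(perp P) := by exact_mod_cast h1
    have h2' : (Ω.card : ℝ) +
        finrank (ZMod 2) ↥(P.map (pull (fun i : (Ωᶜ : Finset ι) => (i : ι)))) ≤
        finrank (ZMod 2) ↥((perp P).map (pull (fun i : Ω => (i : ι)))) +
        finrank (ZMod 2) ↥P := by exact_mod_cast h2
    have h4' : (Ω.card : ℝ) + (Ωᶜ : Finset ι).card = n := by rw [hn]; exact_mod_cast h4
    linarith
  · -- bad points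
    rw [← hn] at hbad
    set A : Finset ι := Finset.univ.filter (fun i => ∀ l ∈ L, l i = 0) with hA
    set B : Finset ι := Finset.univ.filter (fun i => ∃ j, j ≠ i ∧ ∀ l ∈ L, l i = l j) with hB
    have hAB : (badPts L).card ≤ A.card + B.card := by
      refine le_trans (Finset.card_le_card ?_) (Finset.card_union_le A B)
      intro i hi
      unfold badPts at hi
      rcases (Finset.mem_filter.1 hi).2 with h | h
      · exact Finset.mem_union_left _ (Finset.mem_filter.2 ⟨Finset.mem_univ _, h⟩)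
      · exact Finset.mem_union_right _ (Finset.mem_filter.2 ⟨Finset.mem_univ _, h⟩)
    by_cases hAp : p0 ≤ A.card
    · left
      refine ⟨A, hAp, fun i => ?_⟩
      refine rank_le_of_Gd (Q i) (G i) (hGQ i) g (hGne i) (hGd i) _ ?_
      intro b
      exact hwkill i b (fun s => (Finset.mem_filter.1 b.2).2 _ (hwL i s))
    · right
      push Not at hAp
      have hBc : 3 * p ≤ B.card := by
        have h1 : (badPts L).card ≤ A.card + B.card := hAB
        have h2 : n / (200 * κ) ≤ A.card + B.card := by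
          refine hbad.trans ?_
          exact_mod_cast h1
        rw [div_le_iff₀ (by positivity)] at h2
        have h3 : Fintype.card ι ≤ (A.card + B.card) * (200 * κ) := by
          rw [hn] at h2
          exact_mod_cast h2
        by_contra hcon
        push Not at hcon
        have h5 : 400 * κ * (A.card + 1) ≤ Fintype.card ι :=
          (Nat.mul_le_mul_left _ hAp).trans hp0
        have h6 : 400 * κ * (B.card + 1) ≤ Fintype.card ι := by
          calc 400 * κ * (B.card + 1) ≤ 400 * κ * (3 * p) := Nat.mul_le_mul_left _ hcon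
            _ = 1200 * κ * p := by ring
            _ ≤ _ := hp
        nlinarith
      obtain ⟨u, v, hinj, huv⟩ := exists_pairs (fun i : ι => fun l : L => (l : ι → ZMod 2) i) B
        (by
          intro i hi
          obtain ⟨j, hj, hl⟩ := (Finset.mem_filter.1 hi).2
          exact ⟨j, hj, funext fun l => hl l l.2⟩) p hBc
      refine ⟨u, v, hinj, fun i => ?_⟩
      refine rank_le_of_Gd (Q i) (G i) (hGQ i) g (hGne i) (hGd i) _ ?_
      intro b
      have h1 := hwsep i (u b) (v b) (fun s => congrFun (huv b) ⟨w i s, hwL i s⟩)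
      have h2 : (G i).filter (fun w => dif u v w b ≠ 0) = (G i).filter (fun w => w (u b) ≠ w (v b)) := by
        apply Finset.filter_congr
        intro f _
        rw [dif_apply]
        have h : ∀ a b : ZMod 2, a + b = 0 ↔ a = b := by decide
        rw [Ne, h]
      rw [h2]
      exact h1

/-- row E -/
theorem rowE51 (t g κ p0 p : ℕ) (hκ : 1 ≤ κ) (hc : Fintype.card ι ≤ 2 ^ κ)
    (hpos : 0 < Fintype.card ι) (δ δ' δ2 ε : ℝ) (hδ : 0 ≤ δ) (hδ' : 0 ≤ δ') (hδ2 : 0 ≤ δ2)
    (hε : 0 ≤ ε) (J1 J2 : Finset (Fin m)) (x : ι → (Fin m → ZMod 2))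
    (hY1 : P2 ((1 / 2 - δ') * Fintype.card ι) ≤ (Yg t g (rws J1 x)).card)
    (hY2 : P2 ((1 / 2 - δ') * Fintype.card ι) ≤ (Yg t g (rws J2 x)).card)
    (hr1 : (1 / 2 - δ) * Fintype.card ι ≤ RR (t + 1) (rws J1 x))
    (hr2 : (1 / 2 - δ) * Fintype.card ι ≤ RR (t + 1) (rws J2 x))
    (hr : (RR (t + 1) x : ℝ) ≤ (1 / 2 + δ2) * Fintype.card ι)
    (hΩ : ∀ Ω : Finset ι, (Ω.card : ℝ) / 2 - ε * Fintype.card ι ≤
      finrank (ZMod 2) ↥((PP (Fin m → ZMod 2) (t + 1)).map (pull (fun i : Ω => x i))))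
    (hpar : (δ2 + ε) * Fintype.card ι + 40 * κ * ((δ + δ') * Fintype.card ι + (g + 1)) <
      Fintype.card ι / (200 * κ))
    (hp0 : 400 * κ * p0 ≤ Fintype.card ι) (hp : 1200 * κ * p ≤ Fintype.card ι) :
    KillC t (4 * (g + 2)) p0 (rws J1 x) ∨
    ∃ u v : Fin p → ι, Function.Injective (Sum.elim u v) ∧
      PairR t (4 * (g + 2)) u v (rws J1 x) ∧ PairR t (4 * (g + 2)) u v (rws J2 x) := by
  have hres : ∀ (J : Finset (Fin m)), (PP (J → ZMod 2) (t + 1)).map (pull (rws J x)) ≤
      (PP (Fin m → ZMod 2) (t + 1)).map (pull x) := by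
    intro J
    have h1 := PP_comp (V := Fin m → ZMod 2) (W := J → ZMod 2)
      (LinearMap.funLeft (ZMod 2) (ZMod 2) (fun j : J => (j : Fin m))) (t + 1)
    have h2 : (PP (J → ZMod 2) (t + 1)).map (pull (rws J x)) =
        ((PP (J → ZMod 2) (t + 1)).map (pull
          (LinearMap.funLeft (ZMod 2) (ZMod 2) (fun j : J => (j : Fin m))))).map (pull x) := by
      rw [map_pull_pull]
      rfl
    rw [h2]
    exact Submodule.map_mono h1
  have hmain := pairs_of_two t g κ p0 p hκ hc hpos δ δ' δ2 ε hδ hδ' hδ2 hε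
    ((PP (Fin m → ZMod 2) (t + 1)).map (pull x))
    ![(PP (J1 → ZMod 2) (t + 1)).map (pull (rws J1 x)),
      (PP (J2 → ZMod 2) (t + 1)).map (pull (rws J2 x))]
    ![(PP (J1 → ZMod 2) t).map (pull (rws J1 x)), (PP (J2 → ZMod 2) t).map (pull (rws J2 x))]
    (by
      intro i
      fin_cases i
      · exact hres J1
      · exact hres J2)
    ![Yg t g (rws J1 x), Yg t g (rws J2 x)]
    (by
      intro i y hy
      fin_cases i
      · exact (Finset.mem_filter.1 hy).2.1
      · exact (Finset.mem_filter.1 hy).2.1)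
    (by
      intro i y hy
      fin_cases i
      · exact (Finset.mem_filter.1 hy).2.2
      · exact (Finset.mem_filter.1 hy).2.2)
    (by
      intro i
      fin_cases i
      · exact hY1
      · exact hY2)
    (by
      intro i
      fin_cases i
      · exact hr1
      · exact hr2)
    hr
    (by
      intro Ω
      rw [map_pull_pull]
      exact hΩ Ω)
    hpar hp0 hp
  rcases hmain with ⟨Ω, hΩc, hΩr⟩ | ⟨u, v, hinj, huv⟩
  · left
    refine ⟨Ω, hΩc, ?_⟩
    have h1 := hΩr 0
    have h2 : ((PP (J1 → ZMod 2) t).map (pull (rws J1 x))).map (pull (fun j : Ω => (j : ι))) =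
        (PP (J1 → ZMod 2) t).map (pull (fun i : Ω => rws J1 x i)) := map_pull_pull _ _ _
    rw [← h2]
    exact h1
  · right
    refine ⟨u, v, hinj, ?_, ?_⟩
    · have h1 := huv 0
      have h2 : ((PP (J1 → ZMod 2) t).map (pull (rws J1 x))).map (dif u v) =
          (PP (J1 → ZMod 2) t).map (dif (fun b => rws J1 x (u b)) (fun b => rws J1 x (v b))) := by
        rw [← Submodule.map_comp]
        rfl
      unfold PairR
      rw [← h2]
      exact h1
    · have h1 := huv 1
      have h2 : ((PP (J2 → ZMod 2) t).map (pull (rws J2 x))).map (dif u v) =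
          (PP (J2 → ZMod 2) t).map (dif (fun b => rws J2 x (u b)) (fun b => rws J2 x (v b))) := by
        rw [← Submodule.map_comp]
        rfl
      unfold PairR
      rw [← h2]
      exact h1

end Main

end P288
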