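import Pool.Agent.RMX.NS44
import Pool.Agent.RMX.RowE51
import Pool.Agent.Helper37.RM.StrOf

/-! The rows E and S, and the count of the non structured families (helper44) -/

set_option autoImplicit false
set_option linter.unusedSectionVars false

open scoped BigOperators
open Classical Module

namespace RMH

lemma rowE44 (t g L p0 p m n : ℕ) (δ δ' ε : ℝ) (hL : n ≤ 2 ^ L) (hL1 : 1 ≤ L) (hn : 0 < n)
    (hδ : 0 ≤ δ) (hδ' : 0 ≤ δ') (hε : 0 ≤ ε)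
    (hpar : ((2 * t + 3) * δ + ε) * n + 40 * L * ((δ + δ') * n + (g + 1)) < n / (200 * L))
    (hp0 : 400 * L * p0 ≤ n) (hp : 1200 * L * p ≤ n) :
    RowE44 t g (4 * (g + 2)) p0 p m n δ δ' ε := by
  intro x J1 J2 hx hnull hw1 hw2 hall hO hf1 hf2
  have hcard : Fintype.card (Fin n) = n := Fintype.card_fin n
  have hY : ∀ J : Finset (Fin m), ¬ P288.Few t g δ' J x →
      P2 ((1 / 2 - δ') * (Fintype.card (Fin n) : ℝ)) ≤ ((P288.Yg t g (rws J x)).card : ℝ) := by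
    intro J hJ
    unfold P288.Few at hJ
    exact not_lt.1 hJ
  have h1 := P288.rowE51 (ι := Fin n) (m := m) t g L p0 p hL1 (by rw [hcard]; exact hL)
    (by rw [hcard]; exact hn) δ δ' ((2 * t + 3) * δ) ε hδ hδ' (by positivity) hε J1 J2 x
    (hY J1 hf1) (hY J2 hf2) hw1.1 hw2.1 (by
      rw [hcard]
      exact hall) (by
      intro Ω
      rw [hcard]
      exact (not_le.1 (hO Ω)).le) (by
      rw [hcard]
      exact hpar) (by rw [hcard]; exact hp0) (by rw [hcard]; exact hp)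
  rcases h1 with h | ⟨u, v, huv, h2, h3⟩
  · exact Or.inl h
  · exact Or.inr (Or.inr ⟨u, v, huv, h2, h3⟩)

lemma rowS44 (t c k0 ρ p p1 κ m n : ℕ) (ht : 1 ≤ t)
    (hρ : ρ < k0 * (c - k0 - (t - 1)).choose (t - 1)) (hκ : κ * k0 + 2 * p1 < p) :
    RowS44 t c ρ p p1 κ m n := by
  obtain ⟨t', rfl⟩ : ∃ t', t = t' + 1 := ⟨t - 1, by omega⟩
  intro J1 J2 hJ x u v huv h1 h2 hn1 hn2
  exact str_of_pairs37 t' c k0 ρ p p1 κ m n J1 J2 hJ x u v huv h1 h2 hρ hn1 hn2 hκ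

/-- **(NS)** the number of the injective null families which are not structured -/
theorem nonstr44 (t a a2 b c k0 p0 p p1 g L lam j0 j1 jw κ m n : ℕ) (δ δ' ε θ G : ℝ)
    (ht : 1 ≤ t) (hn0 : 0 < n) (hL1 : 1 ≤ L) (hL : n ≤ 2 ^ L) (hlam : m + 1 ≤ 2 ^ lam)
    (hδ : 0 ≤ δ) (hδ' : 0 ≤ δ') (hε : 0 ≤ ε) (hθ0 : 0 ≤ θ)
    (hθ : θ * g = (δ + δ') * n) (hn : 2 * n < (a - (t + 1)).choose (t + 1))
    (hj0 : jw ≤ j0) (hj01 : j0 ≤ j1) (hj1 : j1 + jw ≤ m) (hm2 : m ≤ 2 * j0)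
    (hjw : (t + 2) * jw ≤ m)
    (hρ2 : 4 * (g + 2) < (a2 - t).choose t) (hρb : 4 * (g + 2) < b.choose t)
    (hρp : 4 * (g + 2) ≤ p1)
    (hρk : 4 * (g + 2) < k0 * (c - k0 - (t - 1)).choose (t - 1)) (hκ : κ * k0 + 2 * p1 < p)
    (hp0 : 400 * L * p0 ≤ n) (hp : 1200 * L * p ≤ n)
    (hpar : ((2 * t + 3) * δ + ε) * n + 40 * L * ((δ + δ') * n + (g + 1)) < n / (200 * L))
    (hI : G + lam + 3 + (2 * a + 3) * n + 2 * m ≤ jw * (δ * n))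
    (hIII : G + 2 * lam + 2 + (a + 3) * n ≤ m * (ε * n))
    (hD : G + 2 * lam + 2 + (a + 2) * n + 2 * (θ * (δ * n)) + ((j1 : ℝ) - j0)
      + ((m : ℝ) - j1) * (δ * n) ≤ ((j1 : ℝ) - j0) * (δ' * n))
    (hK : G + lam + 2 + ((m : ℝ) - j0) * (δ * n) + m * (4 * (g + 2) + 1) + (a + 4) * n
      ≤ p0 * ((j0 : ℝ) / 2 - a2))
    (hN : G + lam + 2 + ((m : ℝ) - j0) * (δ * n) + m * (4 * (g + 2) + 1) + (a + 2) * n
      + 2 * p * (L + 1) ≤ ((p1 : ℝ) - 4 * (g + 2)) * ((j0 : ℝ) - c - 5 * b)) :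
    NotStr44 t n m κ G := by
  refine nonstr_le44 t a a2 b c (4 * (g + 2)) p0 p p1 g L lam j0 j1 jw κ m n δ δ' ε θ G ht hL hlam
    hδ hθ0 hθ hn hj0 hj01 hj1 hm2 hjw hρ2 hρb hρp hI hIII hD ?_ ?_ ?_ ?_
  · push_cast
    exact hK
  · push_cast
    exact hN
  · exact rowE44 t g L p0 p m n δ δ' ε hL hL1 hn0 hδ hδ' hε hpar hp0 hp
  · exact rowS44 t c k0 (4 * (g + 2)) p p1 κ m n ht hρk hκ

end RMH
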