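import Pool.Agent.Helper44.HO.Final

/-!
# Base counts with closures of degree `t + 1` (helper52)

The counts of `Pool.Agent.Helper44.HO.Count` and `NullCount` with ranks of `PP V (t + 1)` in place
of `PP V t`; the hypothesis on the number of points is in terms of `(a - (t + 1)).choose (t + 1)`.
-/

set_option autoImplicit false
set_option linter.unusedSectionVars false

open scoped BigOperators
open Classical Module

namespace P288

open RMH

section Base

variable {ι : Type} [Fintype ι]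
variable {V W : Type} [AddCommGroup V] [Module (ZMod 2) V] [Fintype V]
  [AddCommGroup W] [Module (ZMod 2) W] [Fintype W]

/-- closure count with a real bound for the rank -/
theorem closure52 (q a d : ℕ) (h : Fintype.card ι < (a - q).choose q) :
    cnt (fun y : ι → V => finrank (ZMod 2) ↥((PP V q).map (pull y)) ≤ d)
      ≤ 2 ^ Fintype.card ι * Fintype.card V ^ d * 2 ^ (a * Fintype.card ι) :=
  closureCount ι V q a d h

lemma nX_step52 (t a p : ℕ) (hι : Fintype.card ι = 2 * p)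
    (ha : 2 * p < (a - (t + 1)).choose (t + 1)) (hW : Fintype.card W = 2) :
    nX ι (V × W) (t + 2) ≤ nX ι V (t + 2) * 2 ^ p
      + 2 ^ (2 * p) * Fintype.card V ^ p * 2 ^ (a * (2 * p)) * 2 ^ (2 * p) := by
  refine (nX_split (ι := ι) (V := V) (W := W) (t + 1)).trans ?_
  rw [hW, hι]
  set S := Finset.univ.filter (fun z : ι → V => Null (t + 1 + 1) z) with hS
  calc ∑ z ∈ S, 2 ^ (2 * p - finrank (ZMod 2) ↥((PP V (t + 1)).map (pull z)))
      ≤ ∑ z ∈ S, (2 ^ p
        + if finrank (ZMod 2) ↥((PP V (t + 1)).map (pull z)) ≤ p then 2 ^ (2 * p) else 0) := by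
        refine Finset.sum_le_sum (fun z _ => ?_)
        by_cases h : finrank (ZMod 2) ↥((PP V (t + 1)).map (pull z)) ≤ p
        · rw [if_pos h]
          have : 2 ^ (2 * p - finrank (ZMod 2) ↥((PP V (t + 1)).map (pull z))) ≤ 2 ^ (2 * p) :=
            Nat.pow_le_pow_right (by norm_num) (Nat.sub_le _ _)
          exact this.trans (Nat.le_add_left _ _)
        · rw [if_neg h, add_zero]
          exact Nat.pow_le_pow_right (by norm_num) (by omega)
    _ = S.card * 2 ^ p
        + (S.filter (fun z => finrank (ZMod 2) ↥((PP V (t + 1)).map (pull z)) ≤ p)).card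
          * 2 ^ (2 * p) := by
        rw [Finset.sum_add_distrib, Finset.sum_const, smul_eq_mul, ← Finset.sum_filter,
          Finset.sum_const, smul_eq_mul]
    _ ≤ _ := by
        have h4 : S.card = nX ι V (t + 2) := by
          unfold nX
          rw [cnt_eq]
        rw [h4]
        refine Nat.add_le_add (le_of_eq rfl) (Nat.mul_le_mul_right _ ?_)
        have h3 := closureCount ι V (t + 1) a p (by rw [hι]; exact ha)
        rw [hι, cnt_eq] at h3
        exact (Finset.card_le_card (Finset.filter_subset_filter _ (Finset.subset_univ S))).trans h3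

/-- (C1) the a priori bound for the number of null families -/
theorem nX_le52 (t a p : ℕ) (hι : Fintype.card ι = 2 * p)
    (ha : 2 * p < (a - (t + 1)).choose (t + 1)) (k : ℕ) :
    ∀ (V : Type) [AddCommGroup V] [Module (ZMod 2) V] [Fintype V], Fintype.card V = 2 ^ k →
      nX ι V (t + 2) ≤ (k + 1) * 2 ^ (k * p + (a + 2) * (2 * p)) := by
  induction k with
  | zero =>
    intro V _ _ _ hV
    have h1 : nX ι V (t + 2) ≤ Fintype.card (ι → V) := by
      unfold nX
      rw [cnt_eq]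
      exact (Finset.card_filter_le _ _).trans (le_of_eq Finset.card_univ)
    rw [Fintype.card_fun, hV, pow_zero, one_pow] at h1
    refine h1.trans ?_
    have := Nat.one_le_two_pow (n := 0 * p + (a + 2) * (2 * p))
    omega
  | succ k ih =>
    intro V _ _ _ hV
    have hV1 : Fintype.card (Fin k → ZMod 2) = 2 ^ k := by
      rw [Fintype.card_fun, ZMod.card, Fintype.card_fin]
    have hVW : Fintype.card ((Fin k → ZMod 2) × ZMod 2) = 2 ^ (k + 1) := by
      rw [Fintype.card_prod, hV1, ZMod.card, pow_succ]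
    obtain ⟨e⟩ := equiv_of_card V ((Fin k → ZMod 2) × ZMod 2) (k + 1) hV hVW
    refine (nX_equiv e _).trans ?_
    have h1 := nX_step52 (ι := ι) (V := Fin k → ZMod 2) (W := ZMod 2) t a p hι ha (ZMod.card 2)
    have h2 := ih (Fin k → ZMod 2) hV1
    refine h1.trans ?_
    rw [hV1]
    have h3 : (2 : ℕ) ^ (2 * p) * (2 ^ k) ^ p * 2 ^ (a * (2 * p)) * 2 ^ (2 * p)
        = 2 ^ (k * p + (a + 2) * (2 * p)) := by
      rw [← pow_mul, ← pow_add, ← pow_add, ← pow_add]
      congr 1
      ring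
    rw [h3]
    have h4 : (2 : ℕ) ^ ((k + 1) * p + (a + 2) * (2 * p))
        = 2 ^ (k * p + (a + 2) * (2 * p)) * 2 ^ p := by
      rw [← pow_add]
      congr 1
      ring
    rw [h4]
    have h5 := Nat.mul_le_mul_right (2 ^ p) h2
    have h6 : (2 : ℕ) ^ (k * p + (a + 2) * (2 * p))
        ≤ 2 ^ (k * p + (a + 2) * (2 * p)) * 2 ^ p :=
      Nat.le_mul_of_pos_right _ (Nat.two_pow_pos p)
    calc nX ι (Fin k → ZMod 2) (t + 2) * 2 ^ p + 2 ^ (k * p + (a + 2) * (2 * p))
        ≤ (k + 1) * 2 ^ (k * p + (a + 2) * (2 * p)) * 2 ^ p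
          + 2 ^ (k * p + (a + 2) * (2 * p)) * 2 ^ p := Nat.add_le_add h5 h6
      _ = _ := by ring

/-- the number of families with prescribed sums of all functions of degree `≤ t + 2` -/
theorem cnt_fiber_le52 (t a : ℕ) (hn : 2 * Fintype.card ι < (a - (t + 1)).choose (t + 1))
    (j : ℕ) (hV : Fintype.card V = 2 ^ j) (lam : (V → ZMod 2) → ZMod 2) :
    (cnt (fun y : ι → V => ∀ p ∈ PP V (t + 2), ∑ i, p (y i) = lam p) : ℝ)
      ≤ (j + 1) * P2 (j * Fintype.card ι / 2 + (a + 2) * Fintype.card ι) := by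
  have h1 := sq_le (ι := ι) (V := V) (t + 2) lam
  have hc : Fintype.card (ι ⊕ ι) = 2 * Fintype.card ι := by
    rw [Fintype.card_sum]
    ring
  have h2 := nX_le52 (ι := ι ⊕ ι) t a (Fintype.card ι) hc hn j V hV
  have h3 : (cnt (fun y : ι → V => ∀ p ∈ PP V (t + 2), ∑ i, p (y i) = lam p) : ℝ) ^ 2
      ≤ (j + 1) * P2 (j * Fintype.card ι + (a + 2) * (2 * Fintype.card ι)) := by
    have h4 := h1.trans h2
    have h5 : ((cnt (fun y : ι → V => ∀ p ∈ PP V (t + 2), ∑ i, p (y i) = lam p) ^ 2 : ℕ) : ℝ)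
        ≤ (((j + 1) * 2 ^ (j * Fintype.card ι + (a + 2) * (2 * Fintype.card ι)) : ℕ) : ℝ) := by
      exact_mod_cast h4
    rw [Nat.cast_pow] at h5
    refine h5.trans (le_of_eq ?_)
    rw [Nat.cast_mul, Nat.cast_pow, Nat.cast_ofNat, P2_nat]
    push_cast
    ring
  have h6 : ((j : ℝ) + 1) * P2 (j * Fintype.card ι + (a + 2) * (2 * Fintype.card ι))
      ≤ ((j + 1) * P2 (j * Fintype.card ι / 2 + (a + 2) * Fintype.card ι)) ^ 2 := by
    rw [mul_pow, P2_pow]
    have h7 : (j * (Fintype.card ι : ℝ) / 2 + (a + 2) * Fintype.card ι) * ((2 : ℕ) : ℝ)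
        = j * Fintype.card ι + (a + 2) * (2 * Fintype.card ι) := by
      push_cast
      ring
    rw [h7]
    have h8 : ((j : ℝ) + 1) ≤ (j + 1) ^ 2 := by
      have : (0 : ℝ) ≤ j := Nat.cast_nonneg _
      nlinarith
    exact mul_le_mul_of_nonneg_right h8 (P2_pos _).le
  have h9 := h3.trans h6
  refine (pow_le_pow_iff_left₀ (Nat.cast_nonneg _) ?_ (two_ne_zero)).1 h9
  have := P2_pos (j * Fintype.card ι / 2 + (a + 2) * Fintype.card ι)
  positivity

/-- null families whose restriction to `Ω` has small rank in degree `t + 1` -/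
theorem cnt_omega_le52 (t a : ℕ) (hn : 2 * Fintype.card ι < (a - (t + 1)).choose (t + 1))
    (j : ℕ) (hV : Fintype.card V = 2 ^ j) (δ : ℝ) (Ω : Finset ι) :
    (cnt (fun z : ι → V => Null (t + 2) z ∧
      (finrank (ZMod 2) ↥((PP V (t + 1)).map (pull (fun i : Ω => z i))) : ℝ)
        ≤ Ω.card / 2 - δ * Fintype.card ι) : ℝ)
      ≤ (j + 1) * P2 ((a + 2) * Fintype.card ι + j * Fintype.card ι / 2
        - j * (δ * Fintype.card ι)) := by
  set n : ℝ := (Fintype.card ι : ℝ) with hndef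
  have hj0 : (0 : ℝ) ≤ j := Nat.cast_nonneg _
  by_cases hneg : (Ω.card : ℝ) / 2 - δ * n < 0
  · have h0 : cnt (fun z : ι → V => Null (t + 2) z ∧
      (finrank (ZMod 2) ↥((PP V (t + 1)).map (pull (fun i : Ω => z i))) : ℝ)
        ≤ Ω.card / 2 - δ * n)
        = 0 := by
      unfold cnt
      rw [Nat.card_eq_zero]
      left
      refine ⟨fun z => ?_⟩
      have h1 := z.2.2
      have h2 : (0 : ℝ) ≤ (finrank (ZMod 2)
        ↥((PP V (t + 1)).map (pull (fun i : Ω => (z : ι → V) i))) : ℝ) := Nat.cast_nonneg _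
      linarith
    rw [h0, Nat.cast_zero]
    have := P2_pos ((a + 2) * n + j * n / 2 - j * (δ * n))
    positivity
  push Not at hneg
  set d : ℕ := ⌊(Ω.card : ℝ) / 2 - δ * n⌋₊ with hd
  have hdle : (d : ℝ) ≤ (Ω.card : ℝ) / 2 - δ * n := Nat.floor_le hneg
  have hcompl : Fintype.card {i // ¬ i ∈ Ω} = Fintype.card ι - Ω.card := by
    rw [Fintype.card_subtype_compl, Fintype.card_coe]
  have hΩle : Ω.card ≤ Fintype.card ι := Finset.card_le_univ Ω
  have hcomplR : (Fintype.card {i // ¬ i ∈ Ω} : ℝ) = n - Ω.card := by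
    rw [hcompl, Nat.cast_sub hΩle]
  have hM1 : ∀ lam : (V → ZMod 2) → ZMod 2,
      (cnt (fun y : {i // ¬ i ∈ Ω} → V => ∀ p ∈ PP V (t + 2), ∑ i, p (y i) = lam p) : ℝ)
        ≤ (j + 1) * P2 (j * (n - Ω.card) / 2 + (a + 2) * (n - Ω.card)) := by
    intro lam
    have h1 := cnt_fiber_le52 (ι := {i // ¬ i ∈ Ω}) (V := V) t a (by rw [hcompl]; omega) j hV lam
    rwa [hcomplR] at h1
  set M : ℕ := ⌊(j + 1) * P2 (j * (n - Ω.card) / 2 + (a + 2) * (n - Ω.card))⌋₊ with hM
  have hMle : (M : ℝ) ≤ (j + 1) * P2 (j * (n - Ω.card) / 2 + (a + 2) * (n - Ω.card)) := by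
    refine Nat.floor_le ?_
    have := P2_pos (j * (n - Ω.card) / 2 + (a + 2) * (n - Ω.card))
    positivity
  have h2 := card_omega (ι := ι) (V := V) (t + 2) (t + 1) d M Ω (fun lam => Nat.le_floor (hM1 lam))
  have h3 := closureCount Ω V (t + 1) a d (by rw [Fintype.card_coe]; omega)
  rw [Fintype.card_coe, hV] at h3
  have h4 : cnt (fun z : ι → V => Null (t + 2) z ∧
      (finrank (ZMod 2) ↥((PP V (t + 1)).map (pull (fun i : Ω => z i))) : ℝ)
        ≤ Ω.card / 2 - δ * n)
      ≤ cnt (fun z : ι → V => Null (t + 2) z ∧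
      finrank (ZMod 2) ↥((PP V (t + 1)).map (pull (fun i : Ω => z i))) ≤ d) :=
    cnt_mono (fun z hz => ⟨hz.1, Nat.le_floor hz.2⟩)
  have h5 : (cnt (fun z : ι → V => Null (t + 2) z ∧
      (finrank (ZMod 2) ↥((PP V (t + 1)).map (pull (fun i : Ω => z i))) : ℝ)
        ≤ Ω.card / 2 - δ * n) : ℝ)
      ≤ ((2 ^ Ω.card * (2 ^ j) ^ d * 2 ^ (a * Ω.card) : ℕ) : ℝ) * M := by
    have := h4.trans (h2.trans (Nat.mul_le_mul_right M h3))
    exact_mod_cast this
  refine h5.trans ?_
  have h6 : ((2 ^ Ω.card * (2 ^ j) ^ d * 2 ^ (a * Ω.card) : ℕ) : ℝ)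
      ≤ P2 (Ω.card + j * ((Ω.card : ℝ) / 2 - δ * n) + a * Ω.card) := by
    push_cast
    rw [← pow_mul, P2_nat, P2_nat, P2_nat, ← P2_add, ← P2_add]
    apply P2_mono
    push_cast
    have := mul_le_mul_of_nonneg_left hdle hj0
    linarith
  calc ((2 ^ Ω.card * (2 ^ j) ^ d * 2 ^ (a * Ω.card) : ℕ) : ℝ) * M
      ≤ P2 (Ω.card + j * ((Ω.card : ℝ) / 2 - δ * n) + a * Ω.card)
        * ((j + 1) * P2 (j * (n - Ω.card) / 2 + (a + 2) * (n - Ω.card))) :=
        mul_le_mul h6 hMle (Nat.cast_nonneg _) (P2_pos _).le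
    _ = (j + 1) * P2 ((Ω.card + j * ((Ω.card : ℝ) / 2 - δ * n) + a * Ω.card)
        + (j * (n - Ω.card) / 2 + (a + 2) * (n - Ω.card))) := by
        rw [P2_add (Ω.card + j * ((Ω.card : ℝ) / 2 - δ * n) + a * Ω.card)]
        ring
    _ ≤ _ := by
        refine mul_le_mul_of_nonneg_left (P2_mono ?_) (by positivity)
        have : (0 : ℝ) ≤ Ω.card := Nat.cast_nonneg _
        nlinarith

end Base

end P288
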