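import Pool.Agent.RMX.Base44

set_option autoImplicit false
set_option linter.unusedSectionVars false

open scoped BigOperators
open Classical Module

namespace RMH

lemma cnt_prod_le44 {A B C : Type} [Finite B] [Finite C] {P : A → Prop} {Q : B → Prop}
    {R : C → Prop} (f : A → B) (g : A → C) (hf : ∀ x, P x → Q (f x)) (hg : ∀ x, P x → R (g x))
    (hi : ∀ x y, P x → P y → f x = f y → g x = g y → x = y) : cnt P ≤ cnt Q * cnt R := by
  have h1 : cnt Q * cnt R = Nat.card ({x : B // Q x} × {x : C // R x}) := (Nat.card_prod _ _).symm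
  rw [h1]
  unfold cnt
  refine Nat.card_le_card_of_injective (fun x : {x : A // P x} =>
    ((⟨f x, hf x x.2⟩ : {y // Q y}), (⟨g x, hg x x.2⟩ : {y // R y}))) ?_
  intro x y hxy
  have h2 := congrArg (fun q => ((q.1 : {y // Q y}) : B)) hxy
  have h3 := congrArg (fun q => ((q.2 : {y // R y}) : C)) hxy
  exact Subtype.ext (hi x y x.2 y.2 h2 h3)

section Rows

variable {ι : Type} [Fintype ι] {m : ℕ}

/-- the restriction to the rows `J` as a linear map -/
def resJ (J : Finset (Fin m)) : (Fin m → ZMod 2) →ₗ[ZMod 2] (J → ZMod 2) :=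
  LinearMap.funLeft (ZMod 2) (ZMod 2) (Subtype.val : J → Fin m)

/-- the restriction to the other rows as a linear map -/
def resC (J : Finset (Fin m)) : (Fin m → ZMod 2) →ₗ[ZMod 2] ({i // ¬ i ∈ J} → ZMod 2) :=
  LinearMap.funLeft (ZMod 2) (ZMod 2) (Subtype.val : {i // ¬ i ∈ J} → Fin m)

lemma rws_eq (J : Finset (Fin m)) (x : ι → (Fin m → ZMod 2)) :
    rws J x = fun i => resJ J (x i) := rfl

lemma null_rws {r : ℕ} (J : Finset (Fin m)) {x : ι → (Fin m → ZMod 2)} (h : Null r x) :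
    Null r (rws J x) := h.comp (resJ J)

lemma card_funJ (J : Finset (Fin m)) : Fintype.card (J → ZMod 2) = 2 ^ J.card := by
  rw [Fintype.card_fun, ZMod.card, Fintype.card_coe]

lemma card_funC (J : Finset (Fin m)) :
    Fintype.card ({i // ¬ i ∈ J} → ZMod 2) = 2 ^ (m - J.card) := by
  rw [Fintype.card_fun, ZMod.card, Fintype.card_subtype_compl, Fintype.card_coe, Fintype.card_fin]

lemma cardJ_le (J : Finset (Fin m)) : J.card ≤ m := by
  have := Finset.card_le_univ J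
  rwa [Fintype.card_fin] at this

lemma ext_rows (J : Finset (Fin m)) {x y : ι → (Fin m → ZMod 2)} (h1 : rws J x = rws J y)
    (h2 : (fun i => resC J (x i)) = fun i => resC J (y i)) : x = y := by
  funext i k
  by_cases hk : k ∈ J
  · exact congrFun (congrFun h1 i) ⟨k, hk⟩
  · exact congrFun (congrFun h2 i) ⟨k, hk⟩

/-- splitting off the rows outside `J` -/
theorem split44 (r : ℕ) (J : Finset (Fin m)) (G : (ι → (J → ZMod 2)) → Prop) :
    cnt (fun x : ι → (Fin m → ZMod 2) => Null (r + 1) x ∧ G (rws J x))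
      ≤ ∑ z ∈ Finset.univ.filter (fun z : ι → (J → ZMod 2) => Null (r + 1) z ∧ G z),
        (2 ^ (m - J.card)) ^ (Fintype.card ι
          - finrank (ZMod 2) ↥((PP (J → ZMod 2) r).map (pull z))) := by
  have h1 := card_split (ι := ι) (V := J → ZMod 2) (W := {i // ¬ i ∈ J} → ZMod 2) r G
  rw [card_funC] at h1
  refine le_trans ?_ h1
  refine cnt_le_of_inj (fun x i => (resJ J (x i), resC J (x i))) ?_ ?_
  · rintro x ⟨hx, hG⟩
    exact ⟨hx.comp ((resJ J).prod (resC J)), hG⟩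
  · intro x y _ _ hxy
    refine ext_rows J ?_ ?_
    · funext i
      exact congrArg Prod.fst (congrFun hxy i)
    · funext i
      exact congrArg Prod.snd (congrFun hxy i)

lemma succ_le_P2 (k m : ℕ) (h : k ≤ m) : ((k : ℝ) + 1) ≤ P2 m := by
  have h1 : k + 1 ≤ 2 ^ m := by
    have := Nat.lt_two_pow_self (n := m)
    omega
  have h2 : ((k + 1 : ℕ) : ℝ) ≤ ((2 ^ m : ℕ) : ℝ) := by exact_mod_cast h1
  rw [Nat.cast_pow, Nat.cast_ofNat, P2_nat] at h2
  push_cast at h2
  exact h2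

/-- (i), large rank on the rows `J` -/
theorem high44 (r a n : ℕ) (hF : FibB (r + 1) a n) (hι : Fintype.card ι = n)
    (J : Finset (Fin m)) (δ : ℝ) :
    (cnt (fun x : ι → (Fin m → ZMod 2) => Null (r + 1) x ∧
      (1 / 2 + δ) * n ≤ (finrank (ZMod 2) ↥((PP (J → ZMod 2) r).map (pull (rws J x))) : ℝ)) : ℝ)
      ≤ P2 ((m : ℝ) * n / 2 - (m - J.card) * (δ * n) + (a + 2) * n + m) := by
  have h1 := split44 (ι := ι) (m := m) r J (fun z =>
    (1 / 2 + δ) * n ≤ (finrank (ZMod 2) ↥((PP (J → ZMod 2) r).map (pull z)) : ℝ))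
  have hJm := cardJ_le J
  have hJmR : (J.card : ℝ) ≤ m := by exact_mod_cast hJm
  have hsub : ((m - J.card : ℕ) : ℝ) = m - J.card := Nat.cast_sub hJm
  have h2 : (cnt (fun x : ι → (Fin m → ZMod 2) => Null (r + 1) x ∧
      (1 / 2 + δ) * n ≤ (finrank (ZMod 2) ↥((PP (J → ZMod 2) r).map (pull (rws J x))) : ℝ)) : ℝ)
      ≤ ((∑ z ∈ Finset.univ.filter (fun z : ι → (J → ZMod 2) => Null (r + 1) z ∧
        (1 / 2 + δ) * n ≤ (finrank (ZMod 2) ↥((PP (J → ZMod 2) r).map (pull z)) : ℝ)),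
        (2 ^ (m - J.card)) ^ (Fintype.card ι
          - finrank (ZMod 2) ↥((PP (J → ZMod 2) r).map (pull z))) : ℕ) : ℝ) := by
    exact_mod_cast h1
  refine h2.trans ?_
  rw [Nat.cast_sum]
  have h3 : ∀ z ∈ Finset.univ.filter (fun z : ι → (J → ZMod 2) => Null (r + 1) z ∧
        (1 / 2 + δ) * n ≤ (finrank (ZMod 2) ↥((PP (J → ZMod 2) r).map (pull z)) : ℝ)),
      (((2 ^ (m - J.card)) ^ (Fintype.card ι
          - finrank (ZMod 2) ↥((PP (J → ZMod 2) r).map (pull z))) : ℕ) : ℝ)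
        ≤ P2 ((m - J.card) * ((1 / 2 - δ) * n)) := by
    intro z hz
    have hz2 := (Finset.mem_filter.1 hz).2.2
    have hd : finrank (ZMod 2) ↥((PP (J → ZMod 2) r).map (pull z)) ≤ Fintype.card ι := by
      have := Submodule.finrank_le ((PP (J → ZMod 2) r).map (pull z))
      rwa [finrank_fintype_fun_eq_card] at this
    push_cast
    rw [← pow_mul, P2_nat]
    apply P2_mono
    push_cast
    rw [hsub, Nat.cast_sub hd, hι]
    exact mul_le_mul_of_nonneg_left (by linarith) (by linarith)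
  refine (Finset.sum_le_sum h3).trans ?_
  rw [Finset.sum_const, nsmul_eq_mul]
  have h4 : ((Finset.univ.filter (fun z : ι → (J → ZMod 2) => Null (r + 1) z ∧
        (1 / 2 + δ) * n ≤ (finrank (ZMod 2) ↥((PP (J → ZMod 2) r).map (pull z)) : ℝ))).card : ℝ)
      ≤ (J.card + 1) * P2 (J.card * n / 2 + (a + 2) * n) := by
    have h5 := hF.null (ι := ι) (V := J → ZMod 2) hι.le J.card (card_funJ J)
    rw [hι] at h5
    refine le_trans ?_ h5
    rw [cnt_eq]
    have h6 : (Finset.univ.filter (fun z : ι → (J → ZMod 2) => Null (r + 1) z ∧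
        (1 / 2 + δ) * n ≤ (finrank (ZMod 2) ↥((PP (J → ZMod 2) r).map (pull z)) : ℝ)))
        ⊆ Finset.univ.filter (fun z : ι → (J → ZMod 2) => Null (r + 1) z) := by
      intro z hz
      rw [Finset.mem_filter] at hz ⊢
      exact ⟨hz.1, hz.2.1⟩
    exact_mod_cast Finset.card_le_card h6
  calc _ ≤ ((J.card + 1) * P2 (J.card * n / 2 + (a + 2) * n))
        * P2 ((m - J.card) * ((1 / 2 - δ) * n)) :=
        mul_le_mul_of_nonneg_right h4 (P2_pos _).le
    _ ≤ (P2 m * P2 (J.card * n / 2 + (a + 2) * n)) * P2 ((m - J.card) * ((1 / 2 - δ) * n)) := by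
        refine mul_le_mul_of_nonneg_right (mul_le_mul_of_nonneg_right ?_ (P2_pos _).le)
          (P2_pos _).le
        exact succ_le_P2 _ _ hJm
    _ = _ := by
        rw [← P2_add, ← P2_add]
        congr 1
        ring

/-- (i), small rank on the rows `J` -/
theorem low44 (r a n : ℕ) (hn : 2 * n < (a - r).choose r) (hι : Fintype.card ι = n)
    (J : Finset (Fin m)) (δ : ℝ) :
    (cnt (fun x : ι → (Fin m → ZMod 2) => Null (r + 1) x ∧
      (finrank (ZMod 2) ↥((PP (J → ZMod 2) r).map (pull (rws J x))) : ℝ) ≤ (1 / 2 - δ) * n) : ℝ)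
      ≤ P2 ((m : ℝ) * n / 2 - J.card * (δ * n) + (2 * a + 3) * n + m) := by
  have hJm := cardJ_le J
  have hJmR : (J.card : ℝ) ≤ m := by exact_mod_cast hJm
  have hsub : ((m - J.card : ℕ) : ℝ) = m - J.card := Nat.cast_sub hJm
  have hJ0 : (0 : ℝ) ≤ J.card := Nat.cast_nonneg _
  by_cases hneg : (1 / 2 - δ) * n < 0
  · have h0 : cnt (fun x : ι → (Fin m → ZMod 2) => Null (r + 1) x ∧
      (finrank (ZMod 2) ↥((PP (J → ZMod 2) r).map (pull (rws J x))) : ℝ) ≤ (1 / 2 - δ) * n)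
        = 0 := by
      unfold cnt
      rw [Nat.card_eq_zero]
      left
      refine ⟨fun z => ?_⟩
      have h1 := z.2.2
      have h2 : (0 : ℝ) ≤ (finrank (ZMod 2)
        ↥((PP (J → ZMod 2) r).map (pull (rws J (z : ι → (Fin m → ZMod 2))))) : ℝ) :=
        Nat.cast_nonneg _
      linarith
    rw [h0, Nat.cast_zero]
    exact (P2_pos _).le
  push Not at hneg
  set d : ℕ := ⌊(1 / 2 - δ) * (n : ℝ)⌋₊ with hd
  have hdle : (d : ℝ) ≤ (1 / 2 - δ) * n := Nat.floor_le hneg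
  have h1 : cnt (fun x : ι → (Fin m → ZMod 2) => Null (r + 1) x ∧
      (finrank (ZMod 2) ↥((PP (J → ZMod 2) r).map (pull (rws J x))) : ℝ) ≤ (1 / 2 - δ) * n)
      ≤ cnt (fun u : ι → (J → ZMod 2) => finrank (ZMod 2) ↥((PP (J → ZMod 2) r).map (pull u)) ≤ d)
        * cnt (fun v : ι → ({i // ¬ i ∈ J} → ZMod 2) => Null (r + 1) v) := by
    refine cnt_prod_le44 (rws J) (fun x i => resC J (x i)) ?_ ?_ ?_
    · intro x hx
      exact Nat.le_floor hx.2
    · intro x hx
      exact hx.1.comp (resC J)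
    · intro x y _ _ h1 h2
      exact ext_rows J h1 h2
  have h2 := closureCount ι (J → ZMod 2) r a d (by rw [hι]; omega)
  rw [hι, card_funJ] at h2
  have h3 := (fibB44 r a n hn).null (ι := ι) (V := {i // ¬ i ∈ J} → ZMod 2) hι.le (m - J.card)
    (card_funC J)
  rw [hι, hsub] at h3
  have h4 : (cnt (fun x : ι → (Fin m → ZMod 2) => Null (r + 1) x ∧
      (finrank (ZMod 2) ↥((PP (J → ZMod 2) r).map (pull (rws J x))) : ℝ) ≤ (1 / 2 - δ) * n) : ℝ)
      ≤ ((2 ^ n * (2 ^ J.card) ^ d * 2 ^ (a * n) : ℕ) : ℝ)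
        * (cnt (fun v : ι → ({i // ¬ i ∈ J} → ZMod 2) => Null (r + 1) v) : ℝ) := by
    have h5 := h1.trans (Nat.mul_le_mul_right _ h2)
    exact_mod_cast h5
  refine h4.trans ?_
  have h6 : ((2 ^ n * (2 ^ J.card) ^ d * 2 ^ (a * n) : ℕ) : ℝ)
      ≤ P2 (n + J.card * ((1 / 2 - δ) * n) + a * n) := by
    push_cast
    rw [← pow_mul, P2_nat, P2_nat, P2_nat, ← P2_add, ← P2_add]
    apply P2_mono
    push_cast
    have := mul_le_mul_of_nonneg_left hdle hJ0
    linarith
  have h7 : ((m : ℝ) - J.card + 1) ≤ P2 m := by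
    have := succ_le_P2 (m - J.card) m (Nat.sub_le _ _)
    rwa [hsub] at this
  calc ((2 ^ n * (2 ^ J.card) ^ d * 2 ^ (a * n) : ℕ) : ℝ)
        * (cnt (fun v : ι → ({i // ¬ i ∈ J} → ZMod 2) => Null (r + 1) v) : ℝ)
      ≤ P2 (n + J.card * ((1 / 2 - δ) * n) + a * n)
        * (P2 m * P2 ((m - J.card) * n / 2 + (a + 2) * n)) :=
        mul_le_mul h6 (h3.trans (mul_le_mul_of_nonneg_right h7 (P2_pos _).le))
          (Nat.cast_nonneg _) (P2_pos _).le
    _ = _ := by
        rw [← P2_add, ← P2_add]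
        congr 1
        ring

/-- the rank of the functions of degree `≤ r` on the rows `J` is in the window -/
def Win (r j1 : ℕ) (lo hi : ℝ) (x : ι → (Fin m → ZMod 2)) : Prop :=
  ∀ J : Finset (Fin m), j1 ≤ J.card → J.card ≤ m - j1 →
    lo < (finrank (ZMod 2) ↥((PP (J → ZMod 2) r).map (pull (rws J x))) : ℝ) ∧
    (finrank (ZMod 2) ↥((PP (J → ZMod 2) r).map (pull (rws J x))) : ℝ) < hi

/-- (i) null families with a rank outside the window are rare -/
theorem classI44 (r a n j1 : ℕ) (hn : 2 * n < (a - r).choose r) (hι : Fintype.card ι = n)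
    (hj1 : j1 ≤ m) (δ : ℝ) (hδ : 0 ≤ δ) :
    (cnt (fun x : ι → (Fin m → ZMod 2) => Null (r + 1) x ∧
      ¬ Win r j1 ((1 / 2 - δ) * n) ((1 / 2 + δ) * n) x) : ℝ)
      ≤ P2 ((m : ℝ) * n / 2 - j1 * (δ * n) + (2 * a + 3) * n + 2 * m + 1) := by
  set A : Finset (Fin m) → (ι → (Fin m → ZMod 2)) → Prop := fun J x =>
    j1 ≤ J.card ∧ J.card ≤ m - j1 ∧ (Null (r + 1) x ∧
      (finrank (ZMod 2) ↥((PP (J → ZMod 2) r).map (pull (rws J x))) : ℝ) ≤ (1 / 2 - δ) * n) with hA
  set B : Finset (Fin m) → (ι → (Fin m → ZMod 2)) → Prop := fun J x =>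
    j1 ≤ J.card ∧ J.card ≤ m - j1 ∧ (Null (r + 1) x ∧
      (1 / 2 + δ) * n ≤ (finrank (ZMod 2) ↥((PP (J → ZMod 2) r).map (pull (rws J x))) : ℝ)) with hB
  have h1 : cnt (fun x : ι → (Fin m → ZMod 2) => Null (r + 1) x ∧
      ¬ Win r j1 ((1 / 2 - δ) * n) ((1 / 2 + δ) * n) x)
      ≤ cnt (fun x => ∃ b : Finset (Fin m) × Bool, (if b.2 then A b.1 x else B b.1 x)) := by
    refine cnt_mono (fun x hx => ?_)
    obtain ⟨hx1, hx2⟩ := hx
    unfold Win at hx2
    push Not at hx2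
    obtain ⟨J, hJ1, hJ2, hJ3⟩ := hx2
    by_cases hlo : (1 / 2 - δ) * n
        < (finrank (ZMod 2) ↥((PP (J → ZMod 2) r).map (pull (rws J x))) : ℝ)
    · exact ⟨(J, false), hJ1, hJ2, hx1, hJ3 hlo⟩
    · push Not at hlo
      exact ⟨(J, true), hJ1, hJ2, hx1, hlo⟩
  have h2 := h1.trans (cnt_exists (fun (b : Finset (Fin m) × Bool) x =>
    (if b.2 then A b.1 x else B b.1 x)))
  have h3 : (cnt (fun x : ι → (Fin m → ZMod 2) => Null (r + 1) x ∧
      ¬ Win r j1 ((1 / 2 - δ) * n) ((1 / 2 + δ) * n) x) : ℝ)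
      ≤ ((∑ b : Finset (Fin m) × Bool, cnt (fun x => (if b.2 then A b.1 x else B b.1 x)) : ℕ) : ℝ)
      := by exact_mod_cast h2
  refine h3.trans ?_
  rw [Nat.cast_sum]
  set E : ℝ := (m : ℝ) * n / 2 - j1 * (δ * n) + (2 * a + 3) * n + m with hE
  have hδn : 0 ≤ δ * n := mul_nonneg hδ (Nat.cast_nonneg _)
  have hn0 : (0 : ℝ) ≤ n := Nat.cast_nonneg _
  have ha0 : (0 : ℝ) ≤ a := Nat.cast_nonneg _
  have h4 : ∀ b : Finset (Fin m) × Bool,
      (cnt (fun x => (if b.2 then A b.1 x else B b.1 x)) : ℝ) ≤ P2 E := by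
    rintro ⟨J, b⟩
    by_cases hJ : j1 ≤ J.card ∧ J.card ≤ m - j1
    · obtain ⟨hJ1, hJ2⟩ := hJ
      have hJ1R : (j1 : ℝ) ≤ J.card := by exact_mod_cast hJ1
      have hJ2R : (J.card : ℝ) ≤ m - j1 := by
        have : (J.card : ℝ) ≤ ((m - j1 : ℕ) : ℝ) := by exact_mod_cast hJ2
        rwa [Nat.cast_sub hj1] at this
      cases b
      · have h5 : cnt (fun x => (if (false : Bool) then A J x else B J x))
            ≤ cnt (fun x : ι → (Fin m → ZMod 2) => Null (r + 1) x ∧ (1 / 2 + δ) * n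
              ≤ (finrank (ZMod 2) ↥((PP (J → ZMod 2) r).map (pull (rws J x))) : ℝ)) :=
          cnt_mono (fun x hx => hx.2.2)
        have h6 := high44 (ι := ι) (m := m) r a n (fibB44 r a n hn) hι J δ
        refine le_trans (by exact_mod_cast h5) (h6.trans (P2_mono ?_))
        rw [hE]
        have h7 : (j1 : ℝ) * (δ * n) ≤ (m - J.card) * (δ * n) :=
          mul_le_mul_of_nonneg_right (by linarith) hδn
        nlinarith
      · have h5 : cnt (fun x => (if (true : Bool) then A J x else B J x))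
            ≤ cnt (fun x : ι → (Fin m → ZMod 2) => Null (r + 1) x ∧
              (finrank (ZMod 2) ↥((PP (J → ZMod 2) r).map (pull (rws J x))) : ℝ)
                ≤ (1 / 2 - δ) * n) :=
          cnt_mono (fun x hx => hx.2.2)
        have h6 := low44 (ι := ι) (m := m) r a n hn hι J δ
        refine le_trans (by exact_mod_cast h5) (h6.trans (P2_mono ?_))
        rw [hE]
        have h7 : (j1 : ℝ) * (δ * n) ≤ J.card * (δ * n) :=
          mul_le_mul_of_nonneg_right hJ1R hδn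
        linarith
    · have h0 : cnt (fun x => (if (b : Bool) then A J x else B J x)) = 0 := by
        unfold cnt
        rw [Nat.card_eq_zero]
        left
        refine ⟨fun z => ?_⟩
        have h1 := z.2
        cases b
        · exact hJ ⟨h1.1, h1.2.1⟩
        · exact hJ ⟨h1.1, h1.2.1⟩
      show (cnt (fun x => (if (b : Bool) then A J x else B J x)) : ℝ) ≤ P2 E
      rw [h0, Nat.cast_zero]
      exact (P2_pos _).le
  refine (Finset.sum_le_sum (fun b _ => h4 b)).trans (le_of_eq ?_)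
  rw [Finset.sum_const, Finset.card_univ, Fintype.card_prod, Fintype.card_finset,
    Fintype.card_fin, Fintype.card_bool, nsmul_eq_mul]
  have h8 : (m : ℝ) * n / 2 - j1 * (δ * n) + (2 * a + 3) * n + 2 * m + 1
      = ((m + 1 : ℕ) : ℝ) + E := by
    rw [hE]
    push_cast
    ring
  have h9 : (2 : ℝ) ^ m * 2 = P2 ((m + 1 : ℕ) : ℝ) := by
    rw [← P2_nat, pow_succ]
  rw [h8, P2_add ((m + 1 : ℕ) : ℝ) E, ← h9]
  push_cast
  ring

end Rows

end RMH
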