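import Pool.Agent.Helper44.HO.Dich

/-!
The dichotomy for a space of multipliers which need not contain the constants (row DICH0).
-/

set_option autoImplicit false
set_option linter.unusedSectionVars false

open scoped BigOperators
open Classical Module

namespace P288

open RMH

section Sep

variable {ι : Type} [Fintype ι]

lemma exists_zero_one (L : Submodule (ZMod 2) (ι → ZMod 2)) (h1 : ∀ i, ∃ l ∈ L, l i = 1)
    (hsep : ∀ i j, i ≠ j → ∃ l ∈ L, l i ≠ l j) (i j : ι) (hij : i ≠ j) :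
    ∃ m ∈ L, m i = 0 ∧ m j = 1 := by
  obtain ⟨l, hl, hlj⟩ := h1 j
  by_cases hli : l i = 0
  · exact ⟨l, hl, hli, hlj⟩
  have hli' := zmod2_ne_zero hli
  obtain ⟨p, hp, hpij⟩ := hsep i j hij
  by_cases h : p i = 0
  · refine ⟨p, hp, h, zmod2_ne_zero ?_⟩
    intro h'
    exact hpij (by rw [h, h'])
  · have h' := zmod2_ne_zero h
    have hpj : p j = 0 := zmod2_ne_one (fun h'' => hpij (by rw [h', h'']))
    refine ⟨l + p, L.add_mem hl hp, ?_, ?_⟩
    · rw [Pi.add_apply, hli', h']; rfl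
    · rw [Pi.add_apply, hlj, hpj]; rfl

/-- the value of `l` at `j` as a sign -/
lemma sum_sign_zero' (L : Submodule (ZMod 2) (ι → ZMod 2)) (h1 : ∀ i, ∃ l ∈ L, l i = 1)
    (hsep : ∀ i j, i ≠ j → ∃ l ∈ L, l i ≠ l j) (i j : ι) (hij : i ≠ j) :
    ∑ l ∈ Finset.univ.filter (fun l : ι → ZMod 2 => l ∈ L ∧ l i = 1),
      (if l j = 1 then (1 : ℤ) else -1) = 0 := by
  obtain ⟨m, hm, hmi, hmj⟩ := exists_zero_one L h1 hsep i j hij
  set s := Finset.univ.filter (fun l : ι → ZMod 2 => l ∈ L ∧ l i = 1) with hs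
  have key : ∑ l ∈ s, (if l j = 1 then (1 : ℤ) else -1)
      = ∑ l ∈ s, -(if l j = 1 then (1 : ℤ) else -1) := by
    refine Finset.sum_nbij' (fun l => l + m) (fun l => l + m) ?_ ?_ ?_ ?_ ?_
    · intro l hl
      rw [hs, Finset.mem_filter] at hl ⊢
      exact ⟨Finset.mem_univ _, L.add_mem hl.2.1 hm, by rw [Pi.add_apply, hl.2.2, hmi]; rfl⟩
    · intro l hl
      rw [hs, Finset.mem_filter] at hl ⊢
      exact ⟨Finset.mem_univ _, L.add_mem hl.2.1 hm, by rw [Pi.add_apply, hl.2.2, hmi]; rfl⟩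
    · intro l _
      funext k
      simp only [Pi.add_apply, add_assoc, RMC.zmod2_add_self, add_zero]
    · intro l _
      funext k
      simp only [Pi.add_apply, add_assoc, RMC.zmod2_add_self, add_zero]
    · intro l _
      rw [Pi.add_apply, hmj]
      rcases RMC.zmod2_cases (l j) with h | h
      · rw [h]; simp
      · rw [h]
        have : (1 : ZMod 2) + 1 = 0 := rfl
        rw [this]; simp
  rw [Finset.sum_neg_distrib] at key
  linarith

lemma exists_half' (L : Submodule (ZMod 2) (ι → ZMod 2)) (h1 : ∀ i, ∃ l ∈ L, l i = 1)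
    (hsep : ∀ i j, i ≠ j → ∃ l ∈ L, l i ≠ l j) (i : ι) (J : Finset ι) (hi : i ∉ J) :
    ∃ l ∈ L, l i = 1 ∧ 2 * (J.filter (fun j => l j = 1)).card ≤ J.card := by
  set s := Finset.univ.filter (fun l : ι → ZMod 2 => l ∈ L ∧ l i = 1) with hs
  have hne : s.Nonempty := by
    obtain ⟨l, hl, hli⟩ := h1 i
    exact ⟨l, by rw [hs, Finset.mem_filter]; exact ⟨Finset.mem_univ _, hl, hli⟩⟩
  have hsum : ∑ l ∈ s, ∑ j ∈ J, (if l j = 1 then (1 : ℤ) else -1) ≤ ∑ l ∈ s, 0 := by
    rw [Finset.sum_comm, Finset.sum_const_zero]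
    refine le_of_eq (Finset.sum_eq_zero (fun j hj => ?_))
    exact sum_sign_zero' L h1 hsep i j (fun h => hi (h ▸ hj))
  obtain ⟨l, hl, hle⟩ := Finset.exists_le_of_sum_le hne hsum
  rw [hs, Finset.mem_filter] at hl
  refine ⟨l, hl.2.1, hl.2.2, ?_⟩
  rw [Finset.sum_ite, Finset.sum_const, Finset.sum_const] at hle
  have h3 := Finset.card_filter_add_card_filter_not (s := J) (fun j => l j = 1)
  simp only [nsmul_eq_mul, mul_one, mul_neg] at hle
  omega

lemma exists_ind' (L : Submodule (ZMod 2) (ι → ZMod 2)) (h1 : ∀ i, ∃ l ∈ L, l i = 1)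
    (hsep : ∀ i j, i ≠ j → ∃ l ∈ L, l i ≠ l j) (i : ι) (κ : ℕ) :
    ∀ J : Finset ι, i ∉ J → J.card < 2 ^ κ → ∃ f ∈ L ^ κ, f i = 1 ∧ ∀ j ∈ J, f j = 0 := by
  induction κ with
  | zero =>
    intro J hi hJ
    have : J = ∅ := by
      rw [← Finset.card_eq_zero]
      have : (2 : ℕ) ^ 0 = 1 := rfl
      omega
    subst this
    refine ⟨1, ?_, rfl, fun j hj => absurd hj (Finset.notMem_empty j)⟩
    rw [pow_zero]
    exact Submodule.one_le.1 le_rfl
  | succ κ ih =>
    intro J hi hJ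
    obtain ⟨l, hl, hli, hhalf⟩ := exists_half' L h1 hsep i J hi
    obtain ⟨f, hf, hfi, hfJ⟩ := ih (J.filter (fun j => l j = 1))
      (fun h => hi (Finset.mem_filter.1 h).1) (by rw [pow_succ] at hJ; omega)
    refine ⟨f * l, ?_, ?_, ?_⟩
    · rw [pow_succ]
      exact Submodule.mul_mem_mul hf hl
    · rw [Pi.mul_apply, hfi, hli, mul_one]
    · intro j hj
      rw [Pi.mul_apply]
      by_cases h : l j = 1
      · rw [hfJ j (Finset.mem_filter.2 ⟨hj, h⟩), zero_mul]
      · rw [zmod2_ne_one h, mul_zero]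

lemma single_mem' (L : Submodule (ZMod 2) (ι → ZMod 2)) (h1 : ∀ i, ∃ l ∈ L, l i = 1)
    (hsep : ∀ i j, i ≠ j → ∃ l ∈ L, l i ≠ l j) (κ : ℕ) (hc : Fintype.card ι ≤ 2 ^ κ) (i : ι) :
    (Pi.single i 1 : ι → ZMod 2) ∈ L ^ κ := by
  obtain ⟨f, hf, hfi, hfJ⟩ := exists_ind' L h1 hsep i κ (Finset.univ.erase i)
    (Finset.notMem_erase i _) (by
      rw [Finset.card_erase_of_mem (Finset.mem_univ i), Finset.card_univ]
      have : 0 < 2 ^ κ := Nat.two_pow_pos κ
      have : 0 < Fintype.card ι := Fintype.card_pos_iff.2 ⟨i⟩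
      omega)
  have : (Pi.single i 1 : ι → ZMod 2) = f := by
    funext j
    by_cases h : j = i
    · subst h; rw [Pi.single_eq_same, hfi]
    · rw [Pi.single_eq_of_ne h, hfJ j (Finset.mem_erase.2 ⟨h, Finset.mem_univ j⟩)]
  rw [this]
  exact hf

lemma card_supp_le' (L S : Submodule (ZMod 2) (ι → ZMod 2)) (h1 : ∀ i, ∃ l ∈ L, l i = 1)
    (hsep : ∀ i j, i ≠ j → ∃ l ∈ L, l i ≠ l j) (κ : ℕ) (hc : Fintype.card ι ≤ 2 ^ κ) :
    (supp S).card ≤ finrank (ZMod 2) ↥(S * L ^ κ) := by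
  have hli : LinearIndependent (ZMod 2)
      (fun i : supp S => (Pi.single (i : ι) 1 : ι → ZMod 2)) := by
    have h := (Pi.basisFun (ZMod 2) ι).linearIndependent.comp (fun i : supp S => (i : ι))
      Subtype.val_injective
    have h2 : (⇑(Pi.basisFun (ZMod 2) ι) ∘ fun i : supp S => (i : ι))
        = (fun i : supp S => (Pi.single (i : ι) 1 : ι → ZMod 2)) := by
      funext i
      simp [Pi.basisFun_apply]
    rwa [h2] at h
  have h3 := finrank_span_eq_card hli
  rw [Fintype.card_coe] at h3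
  rw [← h3]
  refine Submodule.finrank_mono (Submodule.span_le.2 ?_)
  rintro _ ⟨i, rfl⟩
  obtain ⟨s, hs, hsi⟩ := mem_supp.1 i.2
  have h4 : (Pi.single (i : ι) 1 : ι → ZMod 2) = s * Pi.single (i : ι) 1 := by
    funext j
    rw [Pi.mul_apply]
    by_cases h : j = i
    · rw [h, Pi.single_eq_same, mul_one, zmod2_ne_zero hsi]
    · rw [Pi.single_eq_of_ne h, mul_zero]
  show (Pi.single (i : ι) 1 : ι → ZMod 2) ∈ S * L ^ κ
  rw [h4]
  exact Submodule.mul_mem_mul hs (single_mem' L h1 hsep κ hc i)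

/-- a subspace with small product by a separating subspace has a deficient restriction -/
theorem dichotomy0 (L D : Submodule (ZMod 2) (ι → ZMod 2))
    (h1 : ∀ i, ∃ l ∈ L, l i = 1) (hsep : ∀ i j, i ≠ j → ∃ l ∈ L, l i ≠ l j)
    (κ : ℕ) (hκ : 1 ≤ κ) (hc : Fintype.card ι ≤ 2 ^ κ) (hpos : 0 < Fintype.card ι)
    (hD : (finrank (ZMod 2) ↥(D * L) : ℝ)
      < (1 / 2 + 1 / (100 * κ)) * Fintype.card ι)
    (hD2 : (finrank (ZMod 2) D : ℝ) < (1 / 2 + 1 / (100 * κ)) * Fintype.card ι) :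
    ∃ Ω : Finset ι, (finrank (ZMod 2) ↥(D.map (pull (fun i : Ω => (i : ι)))) : ℝ)
      ≤ (Ω.card : ℝ) / 2 - Fintype.card ι / (100 * κ) := by
  by_contra hcon
  push Not at hcon
  have hκ1 : (1 : ℝ) ≤ κ := by exact_mod_cast hκ
  set n : ℝ := (Fintype.card ι : ℝ) with hn
  have hn0 : 0 < n := by rw [hn]; exact_mod_cast hpos
  set δ : ℝ := 1 / (100 * (κ : ℝ)) with hδ
  have hδ0 : 0 < δ := by positivity
  have hδ1 : δ ≤ 1 / 100 := by
    rw [hδ]
    apply one_div_le_one_div_of_le (by norm_num)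
    linarith
  have hnδ : n / (100 * (κ : ℝ)) = δ * n := by rw [hδ]; ring
  -- the minimal set
  set P : Finset ι → Prop := fun Ω =>
    10 * (finrank (ZMod 2) ↥(D.map (res Ω)) : ℝ) + 9 * (n - Ω.card) ≤ 10 * finrank (ZMod 2) D
    with hP
  have hPne : (Finset.univ.filter P).Nonempty := by
    refine ⟨Finset.univ, Finset.mem_filter.2 ⟨Finset.mem_univ _, ?_⟩⟩
    rw [hP]
    show 10 * (finrank (ZMod 2) ↥(D.map (res Finset.univ)) : ℝ)
      + 9 * (n - (Finset.univ : Finset ι).card) ≤ 10 * finrank (ZMod 2) D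
    rw [map_res_univ, Finset.card_univ, ← hn]
    linarith
  obtain ⟨Ω, hΩP, hmin⟩ := Finset.exists_min_image (Finset.univ.filter P) Finset.card hPne
  have hΩ : 10 * (finrank (ZMod 2) ↥(D.map (res Ω)) : ℝ) + 9 * (n - Ω.card)
      ≤ 10 * finrank (ZMod 2) D := (Finset.mem_filter.1 hΩP).2
  set d' : ℝ := (finrank (ZMod 2) ↥(D.map (res Ω)) : ℝ) with hd'
  have hlow : (Ω.card : ℝ) / 2 - δ * n < d' := by
    rw [hd', finrank_res, ← hnδ]
    exact hcon Ω
  have hΩn : (Ω.card : ℝ) ≤ n := by rw [hn]; exact_mod_cast Finset.card_le_univ Ω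
  -- the product
  have hprod : (finrank (ZMod 2) ↥(D.map (res Ω) * L) : ℝ)
      ≤ (1 + 10 * δ) * finrank (ZMod 2) ↥(D.map (res Ω)) := by
    rw [map_res_mul]
    have h2 := finrank_map_add (res Ω) (D * L)
    have h3 : (finrank (ZMod 2) ↥((D * L).map (res Ω)) : ℝ) ≤ finrank (ZMod 2) ↥(D * L) := by
      have : finrank (ZMod 2) ↥((D * L).map (res Ω)) ≤ finrank (ZMod 2) ↥(D * L) := by omega
      exact_mod_cast this
    refine h3.trans (hD.le.trans ?_)
    rw [← hd']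
    have h4 : n - Ω.card ≤ 5 * δ * n := by nlinarith
    have h5 : (1 / 2 - 7 / 2 * δ) * n ≤ d' := by nlinarith
    have h6 : (1 + 10 * δ) * ((1 / 2 - 7 / 2 * δ) * n) ≤ (1 + 10 * δ) * d' :=
      mul_le_mul_of_nonneg_left h5 (by positivity)
    refine le_trans ?_ h6
    have h7 : 0 ≤ δ * n * (1 / 2 - 35 * δ) :=
      mul_nonneg (mul_nonneg hδ0.le hn0.le) (by linarith)
    nlinarith
  have hd'0 : 0 < d' := by
    have h4 : n - Ω.card ≤ 5 * δ * n := by nlinarith
    have h5 : (1 / 2 - 7 / 2 * δ) * n ≤ d' := by nlinarith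
    have h6 : 0 < (1 / 2 - 7 / 2 * δ) * n := mul_pos (by linarith) hn0
    linarith
  have hne : D.map (res Ω) ≠ ⊥ := by
    intro h
    rw [hd', h, finrank_bot] at hd'0
    simp at hd'0
  obtain ⟨S, hSD, hS0, hS⟩ := exists_petridis L (D.map (res Ω)) hne (1 + 10 * δ) hprod
  have hSκ := hS κ
  have h8 : (finrank (ZMod 2) ↥(S * L ^ κ) : ℝ) ≤ 10 / 9 * finrank (ZMod 2) S :=
    hSκ.trans (mul_le_mul_of_nonneg_right (exp_bound κ hκ) (Nat.cast_nonneg _))
  have h9 : ((supp S).card : ℝ) ≤ finrank (ZMod 2) ↥(S * L ^ κ) := by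
    exact_mod_cast card_supp_le' L S h1 hsep κ hc
  have h10 : 9 * ((supp S).card : ℝ) ≤ 10 * finrank (ZMod 2) S := by linarith
  -- the support is contained in `Ω` and nonempty
  have hsub : supp S ⊆ Ω := by
    intro i hi
    obtain ⟨s, hs, hsi⟩ := mem_supp.1 hi
    obtain ⟨f, -, rfl⟩ := hSD hs
    by_contra hiΩ
    rw [res_apply, if_neg hiΩ] at hsi
    exact hsi rfl
  have hsuppne : 0 < (supp S).card := by
    rw [Finset.card_pos]
    obtain ⟨s, hs, hs0⟩ := (Submodule.ne_bot_iff S).1 hS0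
    obtain ⟨i, hi⟩ := Function.ne_iff.1 hs0
    exact ⟨i, mem_supp.2 ⟨s, hs, hi⟩⟩
  have h11 := finrank_map_add (res (Ω \ supp S)) (D.map (res Ω))
  rw [map_res_map_res Ω _ Finset.sdiff_subset] at h11
  have h12 : S ≤ D.map (res Ω) ⊓ LinearMap.ker (res (Ω \ supp S)) := by
    intro s hs
    refine ⟨hSD hs, ?_⟩
    show res (Ω \ supp S) s = 0
    funext i
    rw [res_apply]
    split_ifs with hi
    · by_contra hsi
      exact (Finset.mem_sdiff.1 hi).2 (mem_supp.2 ⟨s, hs, hsi⟩)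
    · rfl
  have h13 := Submodule.finrank_mono h12
  have h14 : (finrank (ZMod 2) ↥(D.map (res (Ω \ supp S))) : ℝ) + finrank (ZMod 2) S ≤ d' := by
    rw [hd']
    have : finrank (ZMod 2) ↥(D.map (res (Ω \ supp S))) + finrank (ZMod 2) S
        ≤ finrank (ZMod 2) ↥(D.map (res Ω)) := by omega
    exact_mod_cast this
  have h15 : ((Ω \ supp S).card : ℝ) = Ω.card - (supp S).card := by
    rw [Finset.card_sdiff_of_subset hsub, Nat.cast_sub (Finset.card_le_card hsub)]
  have h16 : Ω \ supp S ∈ Finset.univ.filter P := by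
    refine Finset.mem_filter.2 ⟨Finset.mem_univ _, ?_⟩
    rw [hP]
    show 10 * (finrank (ZMod 2) ↥(D.map (res (Ω \ supp S))) : ℝ)
      + 9 * (n - (Ω \ supp S).card) ≤ 10 * finrank (ZMod 2) D
    rw [h15]
    linarith
  have h17 := hmin _ h16
  rw [Finset.card_sdiff_of_subset hsub] at h17
  have h18 := Finset.card_le_card hsub
  omega

/-- restriction of functions to a set of points and multiplication -/
lemma map_pull_mul' {κ' : Type} (y : κ' → ι) (M N : Submodule (ZMod 2) (ι → ZMod 2)) :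
    M.map (pull y) * N.map (pull y) = (M * N).map (pull y) := by
  apply le_antisymm
  · rw [Submodule.mul_le]
    rintro _ ⟨d, hd, rfl⟩ _ ⟨l, hl, rfl⟩
    exact ⟨d * l, Submodule.mul_mem_mul hd hl, rfl⟩
  · rw [Submodule.map_le_iff_le_comap, Submodule.mul_le]
    intro d hd l hl
    exact Submodule.mul_mem_mul ⟨d, hd, rfl⟩ ⟨l, hl, rfl⟩

/-- the points which are killed by `L` or not separated by `L` from another point -/
noncomputable def badPts (L : Submodule (ZMod 2) (ι → ZMod 2)) : Finset ι :=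
  Finset.univ.filter (fun i => (∀ l ∈ L, l i = 0) ∨ ∃ j, j ≠ i ∧ ∀ l ∈ L, l i = l j)

/-- DICH0: either a deficient set or many bad points -/
theorem dich_classes (L D : Submodule (ZMod 2) (ι → ZMod 2))
    (κ : ℕ) (hκ : 1 ≤ κ) (hc : Fintype.card ι ≤ 2 ^ κ) (hpos : 0 < Fintype.card ι)
    (hDL : (finrank (ZMod 2) ↥(D * L) : ℝ)
      ≤ (1 / 2 + 1 / (200 * κ)) * Fintype.card ι)
    (hD : (finrank (ZMod 2) D : ℝ) ≤ (1 / 2 + 1 / (200 * κ)) * Fintype.card ι) :
    (∃ Ω : Finset ι, (finrank (ZMod 2) ↥(D.map (pull (fun i : Ω => (i : ι)))) : ℝ)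
      ≤ (Ω.card : ℝ) / 2 - Fintype.card ι / (200 * κ)) ∨
    (Fintype.card ι : ℝ) / (200 * κ) ≤ (badPts L).card := by
  by_contra hcon
  push Not at hcon
  obtain ⟨hcon1, hcon2⟩ := hcon
  have hκ1 : (1 : ℝ) ≤ κ := by exact_mod_cast hκ
  set n : ℝ := (Fintype.card ι : ℝ) with hn
  have hn0 : 0 < n := by rw [hn]; exact_mod_cast hpos
  set δ : ℝ := 1 / (200 * (κ : ℝ)) with hδ
  have hδ0 : 0 < δ := by positivity
  have hδ1 : δ ≤ 1 / 200 := by
    rw [hδ]
    apply one_div_le_one_div_of_le (by norm_num)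
    linarith
  have hnδ : n / (200 * (κ : ℝ)) = δ * n := by rw [hδ]; ring
  set T : Finset ι := Finset.univ \ badPts L with hT
  have hTcard : (T.card : ℝ) = n - (badPts L).card := by
    rw [hT, Finset.card_sdiff_of_subset (Finset.subset_univ _), Finset.card_univ,
      Nat.cast_sub (Finset.card_le_univ _)]
  have hTbig : (1 - δ) * n < T.card := by
    rw [hTcard]
    rw [hnδ] at hcon2
    nlinarith
  have hTcard' : (Fintype.card T : ℝ) = T.card := by rw [Fintype.card_coe]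
  have hmemT : ∀ i ∈ T, (∃ l ∈ L, l i = 1) ∧ ∀ j, j ≠ i → ∃ l ∈ L, l i ≠ l j := by
    intro i hi
    rw [hT, Finset.mem_sdiff] at hi
    have h2 := hi.2
    unfold badPts at h2
    rw [Finset.mem_filter] at h2
    push Not at h2
    obtain ⟨h3, h4⟩ := h2 (Finset.mem_univ _)
    refine ⟨?_, h4⟩
    obtain ⟨l, hl, hli⟩ := h3
    exact ⟨l, hl, zmod2_ne_zero hli⟩
  have hnT : (1 / 2 + δ) * n < (1 / 2 + 1 / (100 * κ)) * (Fintype.card T : ℝ) := by
    rw [hTcard']
    have e1 : (1 : ℝ) / (100 * κ) = 2 * δ := by rw [hδ]; field_simp; norm_num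
    rw [e1]
    have e2 : (1 / 2 + 2 * δ) * ((1 - δ) * n) < (1 / 2 + 2 * δ) * (T.card : ℝ) :=
      mul_lt_mul_of_pos_left hTbig (by linarith)
    have e3 : (1 / 2 + δ) * n ≤ (1 / 2 + 2 * δ) * ((1 - δ) * n) := by
      have : 0 ≤ n * δ * (1 / 2 - 2 * δ) := mul_nonneg (by positivity) (by linarith)
      nlinarith
    linarith
  have hpos' : 0 < Fintype.card T := by
    have : (0 : ℝ) < Fintype.card T := by
      rw [hTcard']
      have : 0 < (1 - δ) * n := mul_pos (by linarith) hn0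
      linarith
    exact_mod_cast this
  have hmapLe : ∀ M : Submodule (ZMod 2) (ι → ZMod 2),
      finrank (ZMod 2) ↥(M.map (pull (fun i : T => (i : ι)))) ≤ finrank (ZMod 2) M := fun M =>
    Submodule.finrank_map_le _ M
  obtain ⟨Ω, hΩ⟩ := dichotomy0 (L.map (pull (fun i : T => (i : ι))))
    (D.map (pull (fun i : T => (i : ι))))
    (by
      intro i
      obtain ⟨l, hl, hli⟩ := (hmemT i.1 i.2).1
      exact ⟨_, ⟨l, hl, rfl⟩, hli⟩)
    (by
      intro i j hij
      obtain ⟨l, hl, hlij⟩ := (hmemT i.1 i.2).2 j.1 (fun h => hij (Subtype.ext h.symm))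
      exact ⟨_, ⟨l, hl, rfl⟩, hlij⟩)
    κ hκ (by
      rw [Fintype.card_coe]
      exact (Finset.card_le_univ T).trans hc) hpos'
    (by
      rw [map_pull_mul']
      refine lt_of_le_of_lt ?_ (lt_of_le_of_lt hDL hnT)
      exact_mod_cast hmapLe (D * L))
    (by
      refine lt_of_le_of_lt ?_ (lt_of_le_of_lt hD hnT)
      exact_mod_cast hmapLe D)
  -- transport the set
  refine absurd (hcon1 (Ω.map (Function.Embedding.subtype _))) ?_
  push Not
  have hcardΩ : ((Ω.map (Function.Embedding.subtype _)).card : ℝ) = Ω.card := by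
    rw [Finset.card_map]
  rw [hcardΩ]
  have hfin : finrank (ZMod 2) ↥(D.map (pull (fun i : (Ω.map (Function.Embedding.subtype _)) =>
      (i : ι)))) ≤
      finrank (ZMod 2) ↥((D.map (pull (fun i : T => (i : ι)))).map
        (pull (fun i : Ω => (i : T)))) := by
    have e : (D.map (pull (fun i : T => (i : ι)))).map (pull (fun i : Ω => (i : T))) =
        (D.map (pull (fun i : (Ω.map (Function.Embedding.subtype _)) => (i : ι)))).map
          (pull (fun i : Ω => (⟨(i : T), Finset.mem_map_of_mem _ i.2⟩ :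
            (Ω.map (Function.Embedding.subtype _) : Finset ι)))) := by
      rw [← Submodule.map_comp, ← Submodule.map_comp]
      rfl
    rw [e]
    apply le_of_eq
    refine (Submodule.equivMapOfInjective _ ?_ _).finrank_eq
    intro f g hfg
    funext j
    obtain ⟨k, hk, hkj⟩ := Finset.mem_map.1 j.2
    have h2 := congrFun hfg ⟨k, hk⟩
    have h3 : (⟨((⟨k, hk⟩ : Ω) : T), Finset.mem_map_of_mem _ hk⟩ :
        (Ω.map (Function.Embedding.subtype _) : Finset ι)) = j := Subtype.ext hkj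
    have h4 : f ⟨((⟨k, hk⟩ : Ω) : T), Finset.mem_map_of_mem _ hk⟩ =
        g ⟨((⟨k, hk⟩ : Ω) : T), Finset.mem_map_of_mem _ hk⟩ := h2
    rw [h3] at h4
    exact h4
  have hfin' : (finrank (ZMod 2) ↥(D.map (pull
      (fun i : (Ω.map (Function.Embedding.subtype _)) => (i : ι)))) : ℝ) ≤
      finrank (ZMod 2) ↥((D.map (pull (fun i : T => (i : ι)))).map
        (pull (fun i : Ω => (i : T)))) := by exact_mod_cast hfin
  refine hfin'.trans (hΩ.trans ?_)
  rw [hTcard', hnδ]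
  have e1 : (T.card : ℝ) / (100 * κ) = 2 * δ * T.card := by rw [hδ]; ring
  rw [e1]
  have e2 : 2 * δ * ((1 - δ) * n) ≤ 2 * δ * (T.card : ℝ) :=
    mul_le_mul_of_nonneg_left hTbig.le (by linarith)
  have e3 : δ * n ≤ 2 * δ * ((1 - δ) * n) := by
    have : 0 ≤ n * δ * (1 - 2 * δ) := mul_nonneg (by positivity) (by linarith)
    nlinarith
  linarith

end Sep

end P288
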