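import Pool.Agent.Helper71.HO.Hilb
import Pool.Agent.RMX.Dich71

/-!
Dense sets of multipliers: the rank bound (E1), the choice of a short tuple (E2), Fubini (E3) and the
extraction of disjoint pairs (E4).
-/

set_option autoImplicit false
set_option linter.unusedSectionVars false

open scoped BigOperators
open Classical Module

namespace P288

open RMH

/-! ### fibres of a surjective linear map -/

lemma sum_comp_surj {X β : Type} [AddCommGroup X] [Module (ZMod 2) X] [Fintype X] [Fintype β]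
    (ψ : X →ₗ[ZMod 2] (β → ZMod 2)) (hψ : Function.Surjective ψ) (F : (β → ZMod 2) → ℝ) :
    ∃ k : ℝ, 0 < k ∧ (Fintype.card X : ℝ) = k * 2 ^ Fintype.card β ∧
      ∑ w, F (ψ w) = k * ∑ c, F c := by
  set k : ℕ := (Finset.univ.filter (fun w : X => ψ w = 0)).card with hk
  have hfib : ∀ c : β → ZMod 2, (Finset.univ.filter (fun w : X => ψ w = c)).card = k := by
    intro c
    obtain ⟨w₀, hw₀⟩ := hψ c
    rw [hk]
    refine Finset.card_nbij' (fun w => w - w₀) (fun w => w + w₀) ?_ ?_ ?_ ?_
    · intro w hw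
      simp only [Finset.coe_filter, Finset.mem_univ, true_and, Set.mem_ofPred_eq] at hw ⊢
      rw [map_sub, hw, hw₀, sub_self]
    · intro w hw
      simp only [Finset.coe_filter, Finset.mem_univ, true_and, Set.mem_ofPred_eq] at hw ⊢
      rw [map_add, hw, hw₀, zero_add]
    · intro w _
      simp
    · intro w _
      simp
  have hsum : ∀ F : (β → ZMod 2) → ℝ, ∑ w, F (ψ w) = (k : ℝ) * ∑ c, F c := by
    intro F
    rw [← Finset.sum_fiberwise Finset.univ ψ (fun w => F (ψ w)), Finset.mul_sum]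
    apply Finset.sum_congr rfl
    intro c _
    have : ∀ w ∈ Finset.univ.filter (fun w : X => ψ w = c), F (ψ w) = F c := by
      intro w hw
      rw [(Finset.mem_filter.1 hw).2]
    rw [Finset.sum_congr rfl this, Finset.sum_const, hfib c, nsmul_eq_mul]
  refine ⟨k, ?_, ?_, hsum F⟩
  · have : 0 < k := by
      rw [hk, Finset.card_pos]
      exact ⟨0, by simp⟩
    exact_mod_cast this
  · have h1 := hsum (fun _ => 1)
    simp only [Finset.sum_const, Finset.card_univ, nsmul_eq_mul, mul_one] at h1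
    rw [h1]
    congr 1
    rw [Fintype.card_fun, ZMod.card]
    push_cast
    rfl

lemma sum_weight {β : Type} [Fintype β] :
    ∑ c : β → ZMod 2, ∏ b, (if c b = 0 then (1 : ℝ) else 1 / 4) = (5 / 4) ^ Fintype.card β := by
  have h1 := Finset.prod_univ_sum (fun _ : β => (Finset.univ : Finset (ZMod 2)))
    (fun _ a => if a = 0 then (1 : ℝ) else 1 / 4)
  rw [Fintype.piFinset_univ] at h1
  rw [← h1]
  have h2 : ∑ a : ZMod 2, (if a = 0 then (1 : ℝ) else 1 / 4) = 5 / 4 := by
    have : (Finset.univ : Finset (ZMod 2)) = {0, 1} := by decide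
    rw [this, Finset.sum_pair (by decide)]
    norm_num
  rw [h2, Finset.prod_const, Finset.card_univ]

lemma log_five : (20 : ℝ) * Real.log (5 / 8) ≤ -13 * Real.log 2 := by
  have h1 : ((5 : ℝ) / 8) ^ 20 ≤ 1 / 2 ^ 13 := by norm_num
  have h2 := Real.log_le_log (by positivity) h1
  rw [Real.log_pow, one_div, Real.log_inv, Real.log_pow] at h2
  push_cast at h2
  linarith

/-- E1: the rank bound -/
theorem rank_of_dense {X β : Type} [AddCommGroup X] [Module (ZMod 2) X] [Fintype X] [Fintype β]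
    (φ : X →ₗ[ZMod 2] (β → ZMod 2)) (G : Finset X) (g : ℕ) (hne : G.Nonempty)
    (hG : Fintype.card X ≤ 2 ^ (g + 1) * G.card)
    (h : ∀ b, 10 * (G.filter (fun w => φ w b ≠ 0)).card ≤ G.card) :
    finrank (ZMod 2) ↥(LinearMap.range φ) ≤ 4 * (g + 2) := by
  obtain ⟨T, hT, hT2⟩ := exists_info (LinearMap.range φ)
  set r := finrank (ZMod 2) ↥(LinearMap.range φ) with hr
  -- the restriction to `T`
  set ψ : X →ₗ[ZMod 2] (T → ZMod 2) := (LinearMap.funLeft (ZMod 2) (ZMod 2)
    (fun b : T => (b : β))).comp φ with hψ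
  have hψa : ∀ w (b : T), ψ w b = φ w b := fun w b => rfl
  have hker : LinearMap.ker ψ = LinearMap.ker φ := by
    ext w
    constructor
    · intro hw
      have h1 : ∀ b ∈ T, φ w b = 0 := by
        intro b hb
        have := congrFun (LinearMap.mem_ker.1 hw) ⟨b, hb⟩
        exact this
      exact LinearMap.mem_ker.2 (hT2 _ ⟨w, rfl⟩ h1)
    · intro hw
      apply LinearMap.mem_ker.2
      funext b
      rw [hψa, LinearMap.mem_ker.1 hw]
      rfl
  have hrank : finrank (ZMod 2) ↥(LinearMap.range ψ) = r := by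
    have h1 := LinearMap.finrank_range_add_finrank_ker ψ
    have h2 := LinearMap.finrank_range_add_finrank_ker φ
    rw [hker] at h1
    omega
  have hTr : T.card = r := by
    apply le_antisymm hT
    rw [← hrank]
    have := Submodule.finrank_le (LinearMap.range ψ)
    rw [Module.finrank_fintype_fun_eq_card, Fintype.card_coe] at this
    exact this
  have hsurj : Function.Surjective ψ := by
    rw [← LinearMap.range_eq_top]
    apply Submodule.eq_top_of_finrank_eq
    rw [hrank, Module.finrank_fintype_fun_eq_card, Fintype.card_coe, hTr]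
  obtain ⟨k, hk, hcard, hsum⟩ := sum_comp_surj ψ hsurj
    (fun c => ∏ b, (if c b = 0 then (1 : ℝ) else 1 / 4))
  rw [sum_weight, Fintype.card_coe, hTr] at hsum
  rw [Fintype.card_coe, hTr] at hcard
  rcases Nat.eq_zero_or_pos r with hr0 | hrpos
  · omega
  have hrR : (0 : ℝ) < r := by exact_mod_cast hrpos
  -- the number of ones
  set ones : X → ℕ := fun w => (Finset.univ.filter (fun b : T => φ w b ≠ 0)).card with hones
  have hprod : ∀ w, ∏ b : T, (if ψ w b = 0 then (1 : ℝ) else 1 / 4) = (1 / 4) ^ ones w := by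
    intro w
    rw [Finset.prod_ite]
    simp only [Finset.prod_const_one, one_mul, Finset.prod_const]
    rfl
  have hsumones : ∑ w ∈ G, (10 * ones w : ℕ) ≤ r * G.card := by
    have e1 : ∑ w ∈ G, (10 * ones w : ℕ) =
        ∑ b : T, 10 * (G.filter (fun w => φ w b ≠ 0)).card := by
      rw [← Finset.mul_sum, ← Finset.mul_sum]
      congr 1
      simp only [hones, Finset.card_filter]
      exact Finset.sum_comm
    rw [e1]
    calc ∑ b : T, 10 * (G.filter (fun w => φ w b ≠ 0)).card ≤ ∑ _b : T, G.card :=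
          Finset.sum_le_sum fun b _ => h b
      _ = r * G.card := by rw [Finset.sum_const, Finset.card_univ, Fintype.card_coe, hTr, smul_eq_mul]
  -- Markov
  have hmarkov : G.card ≤ 2 * (G.filter (fun w => 5 * ones w ≤ r)).card := by
    have h1 := Finset.card_filter_add_card_filter_not (s := G) (fun w => 5 * ones w ≤ r)
    have h2 : (G.filter (fun w => ¬ 5 * ones w ≤ r)).card * (2 * r) ≤ r * G.card := by
      refine le_trans ?_ hsumones
      calc (G.filter (fun w => ¬ 5 * ones w ≤ r)).card * (2 * r)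
          = ∑ _w ∈ G.filter (fun w => ¬ 5 * ones w ≤ r), 2 * r := by
            rw [Finset.sum_const, smul_eq_mul]
        _ ≤ ∑ w ∈ G.filter (fun w => ¬ 5 * ones w ≤ r), 10 * ones w := by
            apply Finset.sum_le_sum
            intro w hw
            have := (Finset.mem_filter.1 hw).2
            omega
        _ ≤ ∑ w ∈ G, 10 * ones w :=
            Finset.sum_le_sum_of_subset (Finset.filter_subset _ _)
    have h3 : 2 * (G.filter (fun w => ¬ 5 * ones w ≤ r)).card ≤ G.card := by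
      have : r * (2 * (G.filter (fun w => ¬ 5 * ones w ≤ r)).card) ≤ r * G.card := by
        calc r * (2 * (G.filter (fun w => ¬ 5 * ones w ≤ r)).card)
            = (G.filter (fun w => ¬ 5 * ones w ≤ r)).card * (2 * r) := by ring
          _ ≤ _ := h2
      exact Nat.le_of_mul_le_mul_left this hrpos
    omega
  -- lower bound for the sum
  have hlow : ((G.filter (fun w => 5 * ones w ≤ r)).card : ℝ) * (2 : ℝ) ^ (-(2 / 5 * (r : ℝ))) ≤
      k * (5 / 4) ^ r := by
    rw [← hsum]
    calc ((G.filter (fun w => 5 * ones w ≤ r)).card : ℝ) * (2 : ℝ) ^ (-(2 / 5 * (r : ℝ)))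
        = ∑ _w ∈ G.filter (fun w => 5 * ones w ≤ r), (2 : ℝ) ^ (-(2 / 5 * (r : ℝ))) := by
          rw [Finset.sum_const, nsmul_eq_mul]
      _ ≤ ∑ w ∈ G.filter (fun w => 5 * ones w ≤ r),
            ∏ b : T, (if ψ w b = 0 then (1 : ℝ) else 1 / 4) := by
          apply Finset.sum_le_sum
          intro w hw
          rw [hprod]
          have h1 := (Finset.mem_filter.1 hw).2
          have h2 : (1 / 4 : ℝ) ^ ones w = (2 : ℝ) ^ (-(2 * (ones w : ℝ))) := by
            have e4 : (2 : ℝ) ^ (2 * (ones w : ℝ)) = 4 ^ ones w := by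
              rw [Real.rpow_mul (by norm_num), Real.rpow_natCast]
              norm_num
            rw [Real.rpow_neg (by norm_num), e4, one_div, inv_pow]
          rw [h2]
          apply Real.rpow_le_rpow_of_exponent_le (by norm_num)
          have h3 : (5 : ℝ) * ones w ≤ r := by exact_mod_cast h1
          linarith
      _ ≤ ∑ w, ∏ b : T, (if ψ w b = 0 then (1 : ℝ) else 1 / 4) := by
          apply Finset.sum_le_sum_of_subset_of_nonneg (Finset.subset_univ _)
          intro w _ _
          apply Finset.prod_nonneg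
          intro b _
          split_ifs <;> norm_num
  have hGR : (Fintype.card X : ℝ) ≤ 2 ^ (g + 1) * G.card := by exact_mod_cast hG
  have hmR : (G.card : ℝ) ≤ 2 * (G.filter (fun w => 5 * ones w ≤ r)).card := by
    exact_mod_cast hmarkov
  -- combine
  have hpow : (0 : ℝ) < (2 : ℝ) ^ (-(2 / 5 * (r : ℝ))) := Real.rpow_pos_of_pos (by norm_num) _
  have hfin : (2 : ℝ) ^ (-(2 / 5 * (r : ℝ))) ≤ 2 ^ (g + 2) * (5 / 8) ^ r := by
    have e1 : k * 2 ^ r * (2 : ℝ) ^ (-(2 / 5 * (r : ℝ))) ≤ 2 ^ (g + 2) * (k * (5 / 4) ^ r) := by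
      rw [← hcard]
      calc (Fintype.card X : ℝ) * (2 : ℝ) ^ (-(2 / 5 * (r : ℝ)))
          ≤ (2 ^ (g + 1) * (2 * (G.filter (fun w => 5 * ones w ≤ r)).card)) *
            (2 : ℝ) ^ (-(2 / 5 * (r : ℝ))) := by
            apply mul_le_mul_of_nonneg_right _ hpow.le
            refine hGR.trans ?_
            gcongr
        _ = 2 ^ (g + 2) * (((G.filter (fun w => 5 * ones w ≤ r)).card : ℝ) *
            (2 : ℝ) ^ (-(2 / 5 * (r : ℝ)))) := by ring
        _ ≤ 2 ^ (g + 2) * (k * (5 / 4) ^ r) := by gcongr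
    have e2 : (5 / 4 : ℝ) ^ r = 2 ^ r * (5 / 8) ^ r := by rw [← mul_pow]; norm_num
    rw [e2] at e1
    have e3 : (k * 2 ^ r) * (2 : ℝ) ^ (-(2 / 5 * (r : ℝ))) ≤
        (k * 2 ^ r) * (2 ^ (g + 2) * (5 / 8) ^ r) := by
      refine e1.trans (le_of_eq ?_)
      ring
    exact le_of_mul_le_mul_left e3 (by positivity)
  have hlog := Real.log_le_log hpow hfin
  rw [Real.log_rpow (by norm_num), Real.log_mul (by positivity) (by positivity), Real.log_pow,
    Real.log_pow] at hlog
  have hl2 : 0 < Real.log 2 := Real.log_pos (by norm_num)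
  have h5 := log_five
  have h6 : (r : ℝ) * (20 * Real.log (5 / 8)) ≤ r * (-13 * Real.log 2) :=
    mul_le_mul_of_nonneg_left h5 hrR.le
  have h7 : (r : ℝ) * Real.log 2 ≤ 4 * (g + 2 : ℕ) * Real.log 2 := by
    push_cast at hlog ⊢
    nlinarith
  have h8 : (r : ℝ) ≤ 4 * (g + 2 : ℕ) := le_of_mul_le_mul_right h7 hl2
  exact_mod_cast h8

/-! ### E2: a short tuple -/

lemma exists_hit {α β : Type} (G : Finset α) (hne : G.Nonempty) (B : Finset β)
    (hit : α → β → Prop)
    (h : ∀ b ∈ B, G.card < 10 * (G.filter (fun w => hit w b)).card) (M : ℕ) :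
    ∃ w : Fin M → α, (∀ s, w s ∈ G) ∧
      (10 : ℕ) ^ M * (B.filter (fun b => ∀ s, ¬ hit (w s) b)).card ≤ 9 ^ M * B.card := by
  induction M with
  | zero =>
    refine ⟨Fin.elim0, fun s => s.elim0, ?_⟩
    simp
  | succ M ih =>
    obtain ⟨w, hw, hc⟩ := ih
    set B' := B.filter (fun b => ∀ s, ¬ hit (w s) b) with hB'
    -- an element of `G` which hits a tenth of `B'`
    have hsum : ∑ v ∈ G, 10 * (B'.filter (fun b => ¬ hit v b)).card ≤ ∑ _v ∈ G, 9 * B'.card := by
      rw [← Finset.mul_sum, Finset.sum_const, smul_eq_mul]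
      have e1 : ∑ v ∈ G, (B'.filter (fun b => ¬ hit v b)).card =
          ∑ b ∈ B', (G.filter (fun v => ¬ hit v b)).card := by
        simp only [Finset.card_filter]
        exact Finset.sum_comm
      rw [e1, Finset.mul_sum]
      calc ∑ b ∈ B', 10 * (G.filter (fun v => ¬ hit v b)).card ≤ ∑ _b ∈ B', 9 * G.card := by
            apply Finset.sum_le_sum
            intro b hb
            have h1 := Finset.card_filter_add_card_filter_not (s := G) (fun v => hit v b)
            have h2 := h b (Finset.mem_filter.1 hb).1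
            omega
        _ = G.card * (9 * B'.card) := by rw [Finset.sum_const, smul_eq_mul]; ring
    obtain ⟨v, hv, hle⟩ := Finset.exists_le_of_sum_le hne hsum
    refine ⟨Fin.snoc w v, ?_, ?_⟩
    · intro s
      refine Fin.lastCases ?_ (fun s => ?_) s
      · rw [Fin.snoc_last]; exact hv
      · rw [Fin.snoc_castSucc]; exact hw s
    · have e1 : B.filter (fun b => ∀ s, ¬ hit (Fin.snoc (α := fun _ => α) w v s) b) =
          B'.filter (fun b => ¬ hit v b) := by
        ext b
        rw [Finset.mem_filter, Finset.mem_filter, hB', Finset.mem_filter]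
        constructor
        · rintro ⟨hb, hall⟩
          refine ⟨⟨hb, fun s => ?_⟩, ?_⟩
          · have := hall s.castSucc
            rwa [Fin.snoc_castSucc] at this
          · have := hall (Fin.last M)
            rwa [Fin.snoc_last] at this
        · rintro ⟨⟨hb, hall⟩, hv'⟩
          refine ⟨hb, fun s => ?_⟩
          refine Fin.lastCases ?_ (fun s => ?_) s
          · rw [Fin.snoc_last]; exact hv'
          · rw [Fin.snoc_castSucc]; exact hall s
      rw [e1, pow_succ, pow_succ]
      calc 10 ^ M * 10 * (B'.filter (fun b => ¬ hit v b)).card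
          = 10 ^ M * (10 * (B'.filter (fun b => ¬ hit v b)).card) := by ring
        _ ≤ 10 ^ M * (9 * B'.card) := by gcongr
        _ = 9 * (10 ^ M * B'.card) := by ring
        _ ≤ 9 * (9 ^ M * B.card) := by gcongr
        _ = 9 ^ M * 9 * B.card := by ring

lemma nine_ten (κ : ℕ) (hκ : 1 ≤ κ) : 9 ^ (20 * κ) * (2 * (2 ^ κ) ^ 2) < 10 ^ (20 * κ) := by
  rw [pow_mul, pow_mul]
  have h1 : 8 * 9 ^ 20 < 10 ^ 20 := by norm_num
  have h2 : (2 * (2 ^ κ) ^ 2 : ℕ) ≤ 8 ^ κ := by
    have e1 : (2 ^ κ) ^ 2 = 4 ^ κ := by rw [← pow_mul, mul_comm, pow_mul]; norm_num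
    rw [e1]
    have e2 : 8 ^ κ = 4 ^ κ * 2 ^ κ := by rw [← mul_pow]; norm_num
    rw [e2]
    have e3 : 2 ≤ 2 ^ κ := by
      calc 2 = 2 ^ 1 := rfl
        _ ≤ 2 ^ κ := Nat.pow_le_pow_right (by norm_num) hκ
    calc 2 * 4 ^ κ = 4 ^ κ * 2 := by ring
      _ ≤ 4 ^ κ * 2 ^ κ := by gcongr
  calc (9 ^ 20) ^ κ * (2 * (2 ^ κ) ^ 2) ≤ (9 ^ 20) ^ κ * 8 ^ κ := by gcongr
    _ = (8 * 9 ^ 20) ^ κ := by rw [mul_pow]; ring
    _ < (10 ^ 20) ^ κ := Nat.pow_lt_pow_left h1 (by omega)

/-- E2 -/
theorem exists_tuple {ι : Type} [Fintype ι] (κ : ℕ) (hκ : 1 ≤ κ) (hc : Fintype.card ι ≤ 2 ^ κ)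
    (hpos : 0 < Fintype.card ι)
    (G : Finset (ι → ZMod 2)) (hne : G.Nonempty) :
    ∃ w : Fin (20 * κ) → (ι → ZMod 2), (∀ s, w s ∈ G) ∧
      (∀ i j, (∀ s, w s i = w s j) → 10 * (G.filter (fun w => w i ≠ w j)).card ≤ G.card) ∧
      (∀ i, (∀ s, w s i = 0) → 10 * (G.filter (fun w => w i ≠ 0)).card ≤ G.card) := by
  set hit : (ι → ZMod 2) → ((ι × ι) ⊕ ι) → Prop := fun w b =>
    Sum.elim (fun p : ι × ι => w p.1 ≠ w p.2) (fun i => w i ≠ 0) b with hhit
  set B : Finset ((ι × ι) ⊕ ι) := Finset.univ.filter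
    (fun b => G.card < 10 * (G.filter (fun w => hit w b)).card) with hB
  obtain ⟨w, hw, hc'⟩ := exists_hit G hne B hit (fun b hb => (Finset.mem_filter.1 hb).2) (20 * κ)
  have hBcard : B.card ≤ 2 * (2 ^ κ) ^ 2 := by
    calc B.card ≤ Fintype.card ((ι × ι) ⊕ ι) := Finset.card_le_univ B
      _ = Fintype.card ι * Fintype.card ι + Fintype.card ι := by
          rw [Fintype.card_sum, Fintype.card_prod]
      _ ≤ 2 ^ κ * 2 ^ κ + 2 ^ κ := by gcongr
      _ ≤ 2 * (2 ^ κ) ^ 2 := by
          have : 1 ≤ 2 ^ κ := Nat.one_le_two_pow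
          nlinarith
  have hempty : (B.filter (fun b => ∀ s, ¬ hit (w s) b)).card = 0 := by
    by_contra hcon
    have h1 : 1 ≤ (B.filter (fun b => ∀ s, ¬ hit (w s) b)).card := Nat.one_le_iff_ne_zero.2 hcon
    have h2 : 10 ^ (20 * κ) ≤ 9 ^ (20 * κ) * (2 * (2 ^ κ) ^ 2) := by
      calc 10 ^ (20 * κ) = 10 ^ (20 * κ) * 1 := (mul_one _).symm
        _ ≤ 10 ^ (20 * κ) * (B.filter (fun b => ∀ s, ¬ hit (w s) b)).card := by gcongr
        _ ≤ 9 ^ (20 * κ) * B.card := hc'
        _ ≤ _ := by gcongr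
    exact absurd h2 (not_le.2 (nine_ten κ hκ))
  rw [Finset.card_eq_zero] at hempty
  have key : ∀ b : (ι × ι) ⊕ ι, (∀ s, ¬ hit (w s) b) →
      10 * (G.filter (fun w => hit w b)).card ≤ G.card := by
    intro b hb
    by_contra hcon
    push Not at hcon
    have : b ∈ B.filter (fun b => ∀ s, ¬ hit (w s) b) :=
      Finset.mem_filter.2 ⟨Finset.mem_filter.2 ⟨Finset.mem_univ _, hcon⟩, hb⟩
    rw [hempty] at this
    exact Finset.notMem_empty _ this
  refine ⟨w, hw, ?_, ?_⟩
  · intro i j hij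
    have h1 := key (Sum.inl (i, j)) (fun s => by
      simp only [hhit, Sum.elim_inl]
      exact fun h => h (hij s))
    simpa [hhit] using h1
  · intro i hi
    have h1 := key (Sum.inr i) (fun s => by
      simp only [hhit, Sum.elim_inr]
      exact fun h => h (hi s))
    simpa [hhit] using h1

/-! ### E3: Fubini -/

/-- small growth gives small codimension -/
lemma card_of_growth {ι : Type} [Fintype ι] (P W : Submodule (ZMod 2) (ι → ZMod 2))
    (y : ι → ZMod 2) (g : ℕ)
    (h : finrank (ZMod 2) ↥(P ⊔ W.map (LinearMap.mulLeft (ZMod 2) y)) ≤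
      finrank (ZMod 2) P + g) :
    (Finset.univ.filter (fun w : ι → ZMod 2 => w ∈ W)).card ≤
      2 ^ g * (Finset.univ.filter (fun w : ι → ZMod 2 => w ∈ W ∧ y * w ∈ P)).card := by
  set Q : Submodule (ZMod 2) (ι → ZMod 2) := W ⊓ P.comap (LinearMap.mulLeft (ZMod 2) y) with hQ
  have hWc : (Finset.univ.filter (fun w : ι → ZMod 2 => w ∈ W)).card =
      2 ^ finrank (ZMod 2) W := by
    have h1 := Module.card_eq_pow_finrank (K := ZMod 2) (V := W)
    rw [ZMod.card] at h1
    rw [← h1]
    exact (Fintype.card_of_subtype _ (by simp)).symm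
  have hQc : (Finset.univ.filter (fun w : ι → ZMod 2 => w ∈ W ∧ y * w ∈ P)).card =
      2 ^ finrank (ZMod 2) Q := by
    have h1 := Module.card_eq_pow_finrank (K := ZMod 2) (V := Q)
    rw [ZMod.card] at h1
    rw [← h1]
    exact (Fintype.card_of_subtype _ (by simp [hQ])).symm
  rw [hWc, hQc, ← pow_add]
  apply Nat.pow_le_pow_right (by norm_num)
  -- dimension count
  set f : W →ₗ[ZMod 2] (ι → ZMod 2) ⧸ P := P.mkQ.comp
    ((LinearMap.mulLeft (ZMod 2) y).comp W.subtype) with hf
  have h1 := LinearMap.finrank_range_add_finrank_ker f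
  have h2 : finrank (ZMod 2) ↥(LinearMap.ker f) = finrank (ZMod 2) Q := by
    have hk : LinearMap.ker f = Q.comap W.subtype := by
      ext w
      simp only [hf, LinearMap.mem_ker, LinearMap.comp_apply, Submodule.mkQ_apply,
        Submodule.Quotient.mk_eq_zero, hQ, Submodule.mem_comap, Submodule.mem_inf,
        Submodule.subtype_apply, SetLike.coe_mem, true_and]
    rw [hk]
    exact (Submodule.comapSubtypeEquivOfLe inf_le_left).finrank_eq
  have h3 : LinearMap.range f = (P ⊔ W.map (LinearMap.mulLeft (ZMod 2) y)).map P.mkQ := by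
    have e1 : P.map P.mkQ = ⊥ := by
      rw [eq_bot_iff, Submodule.map_le_iff_le_comap, Submodule.comap_bot, Submodule.ker_mkQ]
    rw [Submodule.map_sup, e1, bot_sup_eq, hf, LinearMap.range_comp, LinearMap.range_comp,
      Submodule.range_subtype]
  have h4 : finrank (ZMod 2) ↥((P ⊔ W.map (LinearMap.mulLeft (ZMod 2) y)).map P.mkQ) +
      finrank (ZMod 2) P = finrank (ZMod 2) ↥(P ⊔ W.map (LinearMap.mulLeft (ZMod 2) y)) := by
    have h5 := finrank_map_add P.mkQ (P ⊔ W.map (LinearMap.mulLeft (ZMod 2) y))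
    rw [Submodule.ker_mkQ, inf_eq_right.2 le_sup_left] at h5
    omega
  rw [h3] at h1
  omega

/-- E3: Fubini -/
theorem good_dense {A B : Type} (X : Finset A) (Y : Finset B) (R : A → B → Prop) (g : ℕ)
    (hY : Y.Nonempty)
    (h : ∀ y ∈ Y, X.card ≤ 2 ^ g * (X.filter (fun w => R w y)).card) :
    X.card ≤ 2 ^ (g + 1) *
      (X.filter (fun w => Y.card ≤ 2 ^ (g + 1) * (Y.filter (fun y => R w y)).card)).card := by
  set G := X.filter (fun w => Y.card ≤ 2 ^ (g + 1) * (Y.filter (fun y => R w y)).card) with hG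
  have h1 : Y.card * X.card ≤ 2 ^ g * ∑ w ∈ X, (Y.filter (fun y => R w y)).card := by
    have e1 : ∑ w ∈ X, (Y.filter (fun y => R w y)).card =
        ∑ y ∈ Y, (X.filter (fun w => R w y)).card := by
      simp only [Finset.card_filter]
      exact Finset.sum_comm
    rw [e1, Finset.mul_sum]
    calc Y.card * X.card = ∑ _y ∈ Y, X.card := by rw [Finset.sum_const, smul_eq_mul]
      _ ≤ _ := Finset.sum_le_sum h
  have h2 : 2 ^ (g + 1) * ∑ w ∈ X, (Y.filter (fun y => R w y)).card ≤
      2 ^ (g + 1) * (G.card * Y.card) + X.card * Y.card := by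
    rw [← Finset.sum_filter_add_sum_filter_not X
      (fun w => Y.card ≤ 2 ^ (g + 1) * (Y.filter (fun y => R w y)).card), ← hG, mul_add]
    refine Nat.add_le_add ?_ ?_
    · apply Nat.mul_le_mul_left
      calc ∑ w ∈ G, (Y.filter (fun y => R w y)).card ≤ ∑ _w ∈ G, Y.card :=
            Finset.sum_le_sum fun w _ => Finset.card_filter_le _ _
        _ = G.card * Y.card := by rw [Finset.sum_const, smul_eq_mul]
    · rw [Finset.mul_sum]
      calc ∑ w ∈ X.filter (fun w => ¬ Y.card ≤ 2 ^ (g + 1) * (Y.filter (fun y => R w y)).card),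
            2 ^ (g + 1) * (Y.filter (fun y => R w y)).card
          ≤ ∑ _w ∈ X.filter (fun w => ¬ Y.card ≤
              2 ^ (g + 1) * (Y.filter (fun y => R w y)).card), Y.card := by
            apply Finset.sum_le_sum
            intro w hw
            exact (not_le.1 (Finset.mem_filter.1 hw).2).le
        _ ≤ X.card * Y.card := by
            rw [Finset.sum_const, smul_eq_mul]
            exact Nat.mul_le_mul_right _ (Finset.card_filter_le _ _)
  have hYpos : 0 < Y.card := Finset.card_pos.2 hY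
  have h3 : Y.card * X.card ≤ Y.card * (2 ^ (g + 1) * G.card) := by
    have e1 : (2 : ℕ) ^ (g + 1) = 2 * 2 ^ g := by rw [pow_succ]; ring
    rw [e1] at h2 ⊢
    nlinarith
  exact Nat.le_of_mul_le_mul_left h3 hYpos

end P288
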