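import Pool.Agent.Helper44.HO.Close
import Pool.Agent.Helper44.HO.NullCount
import Pool.Agent.Helper71.HO.MomE

/-!
From a count of injective null families to the covering radius (row FIN).
-/

set_option autoImplicit false

open scoped BigOperators
open Classical Module Filter

namespace P288

open RMH

lemma geom8 (s : ℕ) : ∑ v ∈ Finset.Icc 1 s, ((1 : ℝ) / 8) ^ v ≤ 1 / 7 - 1 / 7 * (1 / 8) ^ s := by
  induction s with
  | zero => simp
  | succ s ih =>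
    rw [Finset.sum_Icc_succ_top (by omega), pow_succ]
    linarith

/-- the correlation bound from the count -/
theorem large_of_count (r m s : ℕ) (hs : 6 ≤ s) (hN : 4 * s ^ 2 ≤ 2 ^ m)
    (h : ∀ v, 1 ≤ v → v ≤ s → (cnt (fun x : Fin (2 * v) → (Fin m → ZMod 2) =>
      Function.Injective x ∧ Null r x) : ℝ) ≤ 2 ^ (m * v) / (16 * s) ^ v)
    (F : (Fin m → ZMod 2) → ℝ) (hF : ∀ x, F x ^ 2 = 1) :
    ∃ q ∈ PP (Fin m → ZMod 2) r, ((s : ℝ) / Real.exp 1) * 2 ^ m ≤ RMC.cor F q ^ 2 := by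
  have hcard : Fintype.card (Fin m → ZMod 2) = 2 ^ m := by
    rw [Fintype.card_fun, ZMod.card, Fintype.card_fin]
  have hcardR : (Fintype.card (Fin m → ZMod 2) : ℝ) = 2 ^ m := by rw [hcard]; push_cast; rfl
  have hsR : (6 : ℝ) ≤ s := by exact_mod_cast hs
  have hmain := exists_large_cor (PP (Fin m → ZMod 2) r) F hF s hs (by rw [hcard]; exact hN) ?_
  · rw [hcardR] at hmain
    exact hmain
  rw [hcardR]
  calc ∑ v ∈ Finset.Icc 1 s, (2 * s / 2 ^ m : ℝ) ^ v *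
        (nullCard (PP (Fin m → ZMod 2) r) (2 * v) : ℝ)
      ≤ ∑ v ∈ Finset.Icc 1 s, ((1 : ℝ) / 8) ^ v := by
        apply Finset.sum_le_sum
        intro v hv
        obtain ⟨hv1, hv2⟩ := Finset.mem_Icc.1 hv
        have e1 : (nullCard (PP (Fin m → ZMod 2) r) (2 * v) : ℝ) ≤ 2 ^ (m * v) / (16 * s) ^ v :=
          (Nat.cast_le.2 (RMH.nullCard_le r (2 * v))).trans (h v hv1 hv2)
        refine (mul_le_mul_of_nonneg_left e1 (by positivity)).trans (le_of_eq ?_)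
        rw [div_pow, pow_mul, mul_pow, mul_pow]
        have h16 : (16 : ℝ) ^ v = 2 ^ v * 8 ^ v := by rw [← mul_pow]; norm_num
        rw [h16]
        have hs0 : (s : ℝ) ^ v ≠ 0 := by positivity
        have h8 : (8 : ℝ) ^ v * (1 / 8) ^ v = 1 := by rw [← mul_pow]; norm_num
        field_simp
        exact h8.symm
    _ ≤ 1 / 7 - 1 / 7 * (1 / 8) ^ s := geom8 s
    _ ≤ 1 / 4 := by
        have : (0 : ℝ) ≤ 1 / 7 * (1 / 8) ^ s := by positivity
        linarith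

/-- the count hypothesis -/
def CountH (t A M₀ : ℕ) : Prop :=
  ∀ m : ℕ, M₀ ≤ m → ∀ s : ℕ, (s : ℝ) * Real.log m ^ A ≤ (m : ℝ) ^ (t + 1) →
    ∀ v, 1 ≤ v → v ≤ s → (cnt (fun x : Fin (2 * v) → (Fin m → ZMod 2) =>
      Function.Injective x ∧ Null (t + 2) x) : ℝ) ≤ 2 ^ (m * v) / (16 * s) ^ v

lemma params71 (t A : ℕ) : ∃ M : ℕ, ∀ m : ℕ, M ≤ m → 1 ≤ Real.log m ∧
    6 ≤ (m : ℝ) ^ (t + 1) / Real.log m ^ A ∧ (4 : ℝ) * ((m : ℝ) ^ (t + 1)) ^ 2 ≤ 2 ^ m := by
  have h1 := (Real.isLittleO_pow_log_id_atTop (n := A)).bound (show (0 : ℝ) < 1 / 6 by norm_num)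
  have h2 := (tendsto_natCast_atTop_atTop (R := ℝ)).eventually h1
  have h3 := (isLittleO_pow_const_const_pow_of_one_lt (R := ℝ) (2 * (t + 1))
    (show (1 : ℝ) < 2 by norm_num)).bound (show (0 : ℝ) < 1 / 4 by norm_num)
  obtain ⟨M, hM⟩ := Filter.eventually_atTop.1 (h2.and h3)
  refine ⟨max M 3, fun m hm => ?_⟩
  obtain ⟨e1, e2⟩ := hM m ((le_max_left _ _).trans hm)
  have hm3 : (3 : ℝ) ≤ m := by exact_mod_cast (le_max_right _ _).trans hm
  have hlog : 1 ≤ Real.log m := by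
    rw [Real.le_log_iff_exp_le (by linarith)]
    have := Real.exp_one_lt_d9
    linarith
  refine ⟨hlog, ?_, ?_⟩
  · rw [le_div_iff₀ (by positivity)]
    have e3 : Real.log m ^ A ≤ 1 / 6 * m := by
      rw [Real.norm_of_nonneg (by positivity), id, Real.norm_of_nonneg (by positivity)] at e1
      exact e1
    have e4 : (m : ℝ) ≤ (m : ℝ) ^ (t + 1) := le_self_pow₀ (by linarith) (by omega)
    linarith
  · rw [Real.norm_of_nonneg (by positivity), Real.norm_of_nonneg (by positivity)] at e2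
    rw [← pow_mul, mul_comm (t + 1) 2]
    linarith

/-- FIN: the covering radius bound from the count of injective null families -/
theorem cov_of_count (t A M₀ : ℕ) (H : CountH t A M₀) :
    ∃ c : ℝ, 0 < c ∧ ∃ M : ℕ, ∀ m : ℕ, M ≤ m → (RMC71.covRadius (t + 2) m : ℝ) ≤
      2 ^ m / 2 - c * (m : ℝ) ^ (((t : ℝ) + 1) / 2) / Real.log m ^ ((A : ℝ) / 2) *
        Real.sqrt (2 ^ m) := by
  obtain ⟨M, hM⟩ := params71 t A
  refine ⟨Real.sqrt (1 / 6) / 2, by positivity, max M M₀, fun m hm => ?_⟩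
  obtain ⟨hlog, h6, h2m⟩ := hM m ((le_max_left _ _).trans hm)
  set X : ℝ := (m : ℝ) ^ (t + 1) / Real.log m ^ A with hX
  set s : ℕ := ⌊X⌋₊ with hs
  have hX0 : 0 ≤ X := by linarith
  have hsX : (s : ℝ) ≤ X := Nat.floor_le hX0
  have hs6 : 6 ≤ s := Nat.le_floor (by exact_mod_cast h6)
  have hXs : X < s + 1 := Nat.lt_floor_add_one X
  have hs2 : X / 2 ≤ s := by linarith
  have hlogA : (1 : ℝ) ≤ Real.log m ^ A := one_le_pow₀ hlog
  have hle : (s : ℝ) * Real.log m ^ A ≤ (m : ℝ) ^ (t + 1) := by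
    rw [hX, le_div_iff₀ (by linarith)] at hsX
    exact hsX
  have hN : 4 * s ^ 2 ≤ 2 ^ m := by
    have h1 : (s : ℝ) ≤ (m : ℝ) ^ (t + 1) := by
      have : (0 : ℝ) ≤ s := Nat.cast_nonneg s
      nlinarith
    have h2 : (4 : ℝ) * (s : ℝ) ^ 2 ≤ 2 ^ m := by
      refine le_trans ?_ h2m
      gcongr
    exact_mod_cast h2
  have hc := covRadius_le_of (t + 2) m s (large_of_count (t + 2) m s hs6 hN
    (H m ((le_max_right _ _).trans hm) s hle))
  refine hc.trans ?_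
  have hexp : Real.exp 1 ≤ 3 := by
    have := Real.exp_one_lt_d9
    linarith
  have hm0 : (0 : ℝ) ≤ m := Nat.cast_nonneg m
  have hl0 : 0 ≤ Real.log m := by linarith
  have h1 : Real.sqrt (1 / 6) * Real.sqrt X ≤ Real.sqrt ((s : ℝ) / Real.exp 1) := by
    rw [← Real.sqrt_mul (by norm_num)]
    apply Real.sqrt_le_sqrt
    have := Real.exp_pos 1
    rw [le_div_iff₀ this]
    have hs0 : (0 : ℝ) ≤ s := Nat.cast_nonneg s
    nlinarith
  have h2 : Real.sqrt X = (m : ℝ) ^ (((t : ℝ) + 1) / 2) / Real.log m ^ ((A : ℝ) / 2) := by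
    rw [hX, Real.sqrt_div (by positivity), Real.sqrt_eq_rpow, Real.sqrt_eq_rpow,
      ← Real.rpow_natCast, ← Real.rpow_natCast, ← Real.rpow_mul hm0, ← Real.rpow_mul hl0]
    congr 2
    · push_cast; ring
    · ring
  rw [h2] at h1
  have h3 := mul_le_mul_of_nonneg_right h1 (Real.sqrt_nonneg ((2 : ℝ) ^ m))
  have h4 : Real.sqrt (1 / 6) / 2 * (m : ℝ) ^ (((t : ℝ) + 1) / 2) / Real.log m ^ ((A : ℝ) / 2) *
        Real.sqrt (2 ^ m) = Real.sqrt (1 / 6) * ((m : ℝ) ^ (((t : ℝ) + 1) / 2) /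
        Real.log m ^ ((A : ℝ) / 2)) * Real.sqrt (2 ^ m) / 2 := by ring
  rw [h4]
  linarith

end P288
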