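import Pool.Agent.RMX.Ind88b

/-!
Project P2 (MP_11cd4d_lc, exponent `(r-1)/2`): from the count of non structured families to the
covering radius, with explicit thresholds (helper88).
-/

set_option autoImplicit false

open scoped BigOperators
open Classical Module Filter

namespace P288

open RMH

/-- the count of all injective null families -/
theorem count_at (t Λ₀ Λ m : ℕ) (ht : 1 ≤ t) (hNS : NonStr t Λ₀) (hΛ₀ : Λ₀ ≤ Λ)
    (hΛ1 : Lam1 t ≤ Λ) (hmΛ : m ≤ 2 ^ Λ) (h128 : 128 * Λ ^ 8 ≤ m) :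
    ∀ s : ℕ, s * (2 * Λ ^ 8) ^ (t + 1) ≤ m ^ (t + 1) →
    ∀ v, 1 ≤ v → v ≤ s → (cnt (fun x : Fin (2 * v) → (Fin m → ZMod 2) =>
      Function.Injective x ∧ Null (t + 2) x) : ℝ) ≤ 2 ^ (m * v) / (16 * s) ^ v := by
  intro s hs v hv1 hvs
  have hL1 : 1 ≤ Λ := by
    refine le_trans ?_ hΛ1
    unfold Lam1
    have : 1 ≤ 4000 * (t + 2) := by omega
    exact Nat.mul_pos (by omega) (by omega)
  have hΛ8pos : 0 < Λ ^ 8 := by positivity
  set A := m / Λ ^ 8 with hA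
  have hAm : A * Λ ^ 8 ≤ m := Nat.div_mul_le_self m _
  have hA128 : 128 ≤ A := (Nat.le_div_iff_mul_le hΛ8pos).2 h128
  have h2A : m ≤ 2 * Λ ^ 8 * A := by
    have h1 : m < Λ ^ 8 * (A + 1) := by
      have := Nat.lt_mul_div_succ m hΛ8pos
      exact this
    have h2 : Λ ^ 8 * (A + 1) ≤ 2 * Λ ^ 8 * A := by
      have : Λ ^ 8 * (A + 1) ≤ Λ ^ 8 * (2 * A) := Nat.mul_le_mul_left _ (by omega)
      calc Λ ^ 8 * (A + 1) ≤ Λ ^ 8 * (2 * A) := this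
        _ = 2 * Λ ^ 8 * A := by ring
    omega
  -- s ≤ A ^ (t + 1)
  have hsA : s ≤ A ^ (t + 1) := by
    have h2 : s * (2 * Λ ^ 8) ^ (t + 1) ≤ A ^ (t + 1) * (2 * Λ ^ 8) ^ (t + 1) := by
      refine hs.trans ?_
      calc m ^ (t + 1) ≤ (2 * Λ ^ 8 * A) ^ (t + 1) := Nat.pow_le_pow_left h2A _
        _ = A ^ (t + 1) * (2 * Λ ^ 8) ^ (t + 1) := by
          rw [mul_pow]
          ring
    exact Nat.le_of_mul_le_mul_right h2 (by positivity)
  have hsm : s ≤ m ^ (t + 1) := by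
    have h1 : A ≤ m := Nat.div_le_self _ _
    exact hsA.trans (Nat.pow_le_pow_left h1 _)
  have hmain := induction88 t Λ₀ ht hNS Λ m A hΛ₀ hΛ1 hA128 hmΛ hAm (2 * v) m le_rfl (by
      rw [Nat.sub_self, Nat.mul_zero, Nat.add_zero]
      exact Nat.mul_le_mul_left _ (hvs.trans hsA))
  have hNI : (cnt (fun x : Fin (2 * v) → (Fin m → ZMod 2) =>
      Function.Injective x ∧ Null (t + 2) x) : ℝ) = (NI (t + 2) (2 * v) m : ℝ) := rfl
  rw [hNI]
  refine hmain.trans ?_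
  have hs1 : 1 ≤ s := hv1.trans hvs
  have h16 : (16 * s) ^ v ≤ 2 ^ (((t + 1) * Λ + 4) * v) := by
    rw [pow_mul]
    refine Nat.pow_le_pow_left ?_ v
    have h1 : m ^ (t + 1) ≤ (2 ^ Λ) ^ (t + 1) := Nat.pow_le_pow_left hmΛ _
    rw [← pow_mul] at h1
    have h2 : 2 ^ ((t + 1) * Λ + 4) = 2 ^ (Λ * (t + 1)) * 16 := by
      rw [pow_add, mul_comm (t + 1) Λ]
      norm_num
    rw [h2]
    omega
  have h16R : ((16 * s : ℝ)) ^ v ≤ 2 ^ (((t + 1) * Λ + 4) * v) := by exact_mod_cast h16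
  have hspos : (0 : ℝ) < (16 * s : ℝ) ^ v := by
    have : (0 : ℝ) < s := by exact_mod_cast hs1
    positivity
  rw [le_div_iff₀ hspos]
  calc P2 ((m : ℝ) * (2 * v : ℕ) / 2 - (((t : ℝ) + 1) * Λ + 4) * (2 * v : ℕ) / 2)
        * (16 * (s : ℝ)) ^ v
      ≤ P2 ((m : ℝ) * (2 * v : ℕ) / 2 - (((t : ℝ) + 1) * Λ + 4) * (2 * v : ℕ) / 2)
        * 2 ^ (((t + 1) * Λ + 4) * v) := mul_le_mul_of_nonneg_left h16R (P2_pos _).le
    _ = 2 ^ (m * v) := by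
      rw [P2_nat, P2_nat, ← P2_add]
      congr 1
      push_cast
      ring

/-- the covering radius from the count (helper71's `cov_of_count` at one `m`) -/
theorem cov_at (t m : ℕ) (X : ℝ) (h6 : 6 ≤ X) (h2m : (4 : ℝ) * X ^ 2 ≤ 2 ^ m)
    (H : ∀ s : ℕ, (s : ℝ) ≤ X →
      ∀ v, 1 ≤ v → v ≤ s → (cnt (fun x : Fin (2 * v) → (Fin m → ZMod 2) =>
        Function.Injective x ∧ Null (t + 2) x) : ℝ) ≤ 2 ^ (m * v) / (16 * s) ^ v) :
    (RMC71.covRadius (t + 2) m : ℝ) ≤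
      2 ^ m / 2 - 1 / 5 * Real.sqrt X * Real.sqrt (2 ^ m) := by
  set s : ℕ := ⌊X⌋₊ with hs
  have hX0 : 0 ≤ X := by linarith
  have hsX : (s : ℝ) ≤ X := Nat.floor_le hX0
  have hs6 : 6 ≤ s := Nat.le_floor (by exact_mod_cast h6)
  have hXs : X < s + 1 := Nat.lt_floor_add_one X
  have hs2 : X / 2 ≤ s := by linarith
  have hN : 4 * s ^ 2 ≤ 2 ^ m := by
    have h2 : (4 : ℝ) * (s : ℝ) ^ 2 ≤ 2 ^ m := by
      refine le_trans ?_ h2m
      gcongr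
    exact_mod_cast h2
  have hc := covRadius_le_of (t + 2) m s (large_of_count (t + 2) m s hs6 hN (H s hsX))
  refine hc.trans ?_
  have hexp : Real.exp 1 ≤ 3 := by
    have := Real.exp_one_lt_d9
    linarith
  have h1 : 2 / 5 * Real.sqrt X ≤ Real.sqrt ((s : ℝ) / Real.exp 1) := by
    have e1 : (2 : ℝ) / 5 = Real.sqrt ((2 / 5) ^ 2) := (Real.sqrt_sq (by norm_num)).symm
    rw [e1, ← Real.sqrt_mul (by positivity)]
    apply Real.sqrt_le_sqrt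
    have := Real.exp_pos 1
    rw [le_div_iff₀ this]
    have hs0 : (0 : ℝ) ≤ s := Nat.cast_nonneg s
    nlinarith
  have h3 := mul_le_mul_of_nonneg_right h1 (Real.sqrt_nonneg ((2 : ℝ) ^ m))
  linarith

/-- the covering radius, explicit and uniform in the order -/
theorem cov_uniform (t Λ₀ Λ m : ℕ) (ht : 1 ≤ t) (hNS : NonStr t Λ₀) (hΛ₀ : Λ₀ ≤ Λ)
    (hΛ1 : Lam1 t ≤ Λ) (hmΛ : m ≤ 2 ^ Λ) (h128 : 128 * Λ ^ 8 ≤ m) :
    (RMC71.covRadius (t + 2) m : ℝ) ≤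
      2 ^ m / 2 - 1 / 5 * ((m : ℝ) / (2 * (Λ : ℝ) ^ 8)) ^ (((t : ℝ) + 1) / 2) *
        Real.sqrt (2 ^ m) := by
  have hL : 4000 * (t + 2) * (t + t) ≤ Λ := hΛ1
  have hL2 : 2 * (t + 2) ≤ Λ := by
    refine le_trans ?_ hL
    have h1 : 4000 * (t + 2) ≤ 4000 * (t + 2) * (t + t) := Nat.le_mul_of_pos_right _ (by omega)
    omega
  have hΛ8 : Λ * Λ ≤ Λ ^ 8 := by
    have h1 : Λ ^ 8 = Λ * Λ * Λ ^ 6 := by ring
    rw [h1]
    exact Nat.le_mul_of_pos_right _ (by have : 0 < Λ := by omega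
                                        positivity)
  have hΛR : (0 : ℝ) < Λ := by
    have : 0 < Λ := by omega
    exact_mod_cast this
  set q : ℝ := (m : ℝ) / (2 * (Λ : ℝ) ^ 8) with hq
  have hq64 : 64 ≤ q := by
    rw [hq, le_div_iff₀ (by positivity)]
    have h1 : ((128 * Λ ^ 8 : ℕ) : ℝ) ≤ m := by exact_mod_cast h128
    push_cast at h1
    linarith
  have hqm : q ≤ m := by
    rw [hq, div_le_iff₀ (by positivity)]
    have h1 : (1 : ℝ) ≤ (Λ : ℝ) ^ 8 := by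
      apply one_le_pow₀
      have : 1 ≤ Λ := by omega
      exact_mod_cast this
    have h2 : (0 : ℝ) ≤ m := Nat.cast_nonneg m
    nlinarith
  have hmain := cov_at t m (q ^ (t + 1)) ?_ ?_ ?_
  · have h1 : Real.sqrt (q ^ (t + 1)) = q ^ (((t : ℝ) + 1) / 2) := by
      rw [Real.sqrt_eq_rpow, ← Real.rpow_natCast, ← Real.rpow_mul (by linarith)]
      congr 1
      push_cast
      ring
    rw [h1] at hmain
    exact hmain
  · exact le_trans (by linarith) (le_self_pow₀ (by linarith : 1 ≤ q) (by omega))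
  · have h1 : m ^ (t + 1) ≤ 2 ^ (Λ * (t + 1)) := by
      rw [pow_mul]
      exact Nat.pow_le_pow_left hmΛ _
    have h2 : (m ^ (t + 1)) ^ 2 ≤ 2 ^ (Λ * (t + 1) * 2) := by
      rw [pow_mul 2 (Λ * (t + 1)) 2]
      exact Nat.pow_le_pow_left h1 _
    have h3 : 4 * 2 ^ (Λ * (t + 1) * 2) = 2 ^ (2 + Λ * (t + 1) * 2) := by
      rw [pow_add]
      norm_num
    have h4 : 2 + Λ * (t + 1) * 2 ≤ Λ * Λ := by nlinarith
    have h5 : 4 * (m ^ (t + 1)) ^ 2 ≤ 2 ^ m := by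
      calc 4 * (m ^ (t + 1)) ^ 2 ≤ 4 * 2 ^ (Λ * (t + 1) * 2) := Nat.mul_le_mul_left _ h2
        _ = 2 ^ (2 + Λ * (t + 1) * 2) := h3
        _ ≤ 2 ^ m := Nat.pow_le_pow_right (by norm_num) (by omega)
    have h6 : (4 : ℝ) * ((m : ℝ) ^ (t + 1)) ^ 2 ≤ 2 ^ m := by exact_mod_cast h5
    refine le_trans ?_ h6
    have hq0 : 0 ≤ q := by linarith
    gcongr
  · intro s hs
    refine count_at t Λ₀ Λ m ht hNS hΛ₀ hΛ1 hmΛ h128 s ?_
    have h1 : (s : ℝ) * (2 * (Λ : ℝ) ^ 8) ^ (t + 1) ≤ (m : ℝ) ^ (t + 1) := by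
      rw [hq, div_pow, le_div_iff₀ (by positivity)] at hs
      exact hs
    exact_mod_cast h1

end P288
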