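import Pool.Agent.RMX.Base44
import Pool.Agent.RM7.S6e
import Pool.Agent.RM7.S6f

/-! The strong induction on the number of points (helper44) -/

set_option autoImplicit false
set_option linter.unusedSectionVars false

open scoped BigOperators
open Classical Module

namespace RMH

/-- few injective null families are not structured -/
def NotStr44 (t n m κ : ℕ) (G : ℝ) : Prop :=
  (cnt (fun x : Fin n → (Fin m → ZMod 2) => Function.Injective x ∧ Null (t + 2) x ∧ ¬ Str κ x) : ℝ)
    ≤ P2 ((m : ℝ) * n / 2 - G)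

lemma two_P2_44 (x : ℝ) : P2 (x - 1) + P2 (x - 1) = P2 x := by
  have h : P2 x = P2 (x - 1) * P2 1 := by
    rw [← P2_add]
    congr 1
    ring
  rw [h]
  unfold P2
  rw [Real.rpow_one]
  ring

/-- the base case -/
lemma base44 (t a0 L lam w m : ℕ) (hw0 : 1 ≤ w) (ha0 : 4 * w < (a0 - t).choose t)
    (hw : 2 * w ≤ 2 ^ L) (hlam : m + 1 ≤ 2 ^ lam)
    (hm : 50 * L * (2 * a0 + 14 + lam + L) ≤ m / 4) :
    (NI (t + 2) (2 * w) m : ℝ) ≤ P2 ((m : ℝ) * w - w * (L + 4)) := by
  have hL1 : 1 ≤ L := by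
    by_contra h
    have : L = 0 := by omega
    subst this
    rw [pow_zero] at hw
    omega
  have hLm : 4 * L ≤ m := by
    have h1 : L ≤ 50 * L * (2 * a0 + 14 + lam + L) := by
      calc L = L * 1 := (mul_one L).symm
        _ ≤ L * (50 * (2 * a0 + 14 + lam + L)) := Nat.mul_le_mul_left _ (by omega)
        _ = _ := by ring
    omega
  have hLR : (0 : ℝ) < L := by exact_mod_cast hL1
  have hcard : Fintype.card (Fin m → ZMod 2) = 2 ^ m := by
    rw [Fintype.card_fun, ZMod.card, Fintype.card_fin]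
  have h1 := null_count_cnt closureCount t a0 L w m ha0 hw hw0 (Fin m → ZMod 2) hcard hLm
  unfold NI
  refine h1.trans ?_
  have hE0 : (2 : ℝ) ^ ((m * w : ℝ) + 2 * (a0 + 4) * w - 2 * w * (m / 4 : ℕ) / (100 * L))
      = P2 ((m * w : ℝ) + 2 * (a0 + 4) * w - 2 * w * (m / 4 : ℕ) / (100 * L)) := rfl
  rw [hE0]
  have hlam' : (4 : ℝ) * (m + 1) ≤ P2 (2 + lam) := by
    have h6 : ((m + 1 : ℕ) : ℝ) ≤ ((2 ^ lam : ℕ) : ℝ) := by exact_mod_cast hlam
    rw [Nat.cast_pow, Nat.cast_ofNat, P2_nat] at h6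
    push_cast at h6
    have h7 : P2 2 = 4 := by
      unfold P2
      rw [show (2 : ℝ) = ((2 : ℕ) : ℝ) by norm_num, Real.rpow_natCast]
      norm_num
    rw [P2_add, h7]
    linarith
  calc 4 * ((m : ℝ) + 1) * P2 ((m * w : ℝ) + 2 * (a0 + 4) * w - 2 * w * (m / 4 : ℕ) / (100 * L))
      ≤ P2 (2 + lam) * P2 ((m * w : ℝ) + 2 * (a0 + 4) * w - 2 * w * (m / 4 : ℕ) / (100 * L)) :=
        mul_le_mul_of_nonneg_right hlam' (P2_pos _).le
    _ = P2 ((2 + lam) + ((m * w : ℝ) + 2 * (a0 + 4) * w - 2 * w * (m / 4 : ℕ) / (100 * L))) :=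
        (P2_add _ _).symm
    _ ≤ P2 ((m : ℝ) * w - w * (L + 4)) := by
        apply P2_mono
        have hw1 : (1 : ℝ) ≤ w := by exact_mod_cast hw0
        have h7 : (2 * w * (m / 4 : ℕ) / (100 * L) : ℝ) = w * (((m / 4 : ℕ) : ℝ) / (50 * L)) := by
          field_simp
          ring
        have hl : (2 * a0 + 14 + lam + L : ℝ) ≤ ((m / 4 : ℕ) : ℝ) / (50 * L) := by
          rw [le_div_iff₀ (by positivity)]
          have : ((50 * L * (2 * a0 + 14 + lam + L) : ℕ) : ℝ) ≤ ((m / 4 : ℕ) : ℝ) := by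
            exact_mod_cast hm
          refine le_trans (le_of_eq ?_) this
          push_cast
          ring
        have h8 : (w : ℝ) * (2 * a0 + 14 + lam + L) ≤ w * (((m / 4 : ℕ) : ℝ) / (50 * L)) :=
          mul_le_mul_of_nonneg_left hl (by linarith)
        have h9 : (0 : ℝ) ≤ lam := Nat.cast_nonneg _
        have h10 : (lam : ℝ) ≤ w * lam := by nlinarith
        rw [h7]
        nlinarith

/-- the strong induction -/
theorem ind44 (t m m1 n0 n1 L lam κ a a0 : ℕ) (hm1 : m1 ≤ m) (hn0 : n0 ≤ 2 ^ L)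
    (hlow : n0 ≤ κ * (m - m1)) (h1 : κ ≤ 4 * (a - t).choose t) (h3 : 8 * n0 ≤ κ * m1)
    (h4 : 24 * a ≤ m1) (hm24 : 24 ≤ m1)
    (h5 : 32 * (m + 3 * n0 + n0 * L + n0 * (L + 4) + 3) ≤ m1 * κ)
    (ha0 : 2 * n1 < (a0 - t).choose t) (hlam : m + 1 ≤ 2 ^ lam)
    (hbase : 50 * L * (2 * a0 + 14 + lam + L) ≤ m1 / 4)
    (hstep : ∀ w m', n1 < 2 * w → 2 * w ≤ n0 → m1 ≤ m' → m' ≤ m →
      NotStr44 t (2 * w) m' κ (w * (L + 4) + 1)) :
    ∀ w m', 2 * w ≤ n0 → m' ≤ m → κ * (m - m') + 2 * w ≤ n0 →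
      (NI (t + 2) (2 * w) m' : ℝ) ≤ P2 ((m' : ℝ) * w - w * (L + 4)) := by
  have hκ0 : 0 < κ := by
    rcases Nat.eq_zero_or_pos κ with h | h
    · subst h
      rw [mul_zero] at h5
      omega
    · exact h
  intro w
  induction w using Nat.strong_induction_on with
  | _ w ih =>
    intro m' hw hm' hm'2
    have hm1' : m1 ≤ m' := by
      have h6 : κ * (m - m') ≤ κ * (m - m1) := by omega
      have h7 := Nat.le_of_mul_le_mul_left h6 hκ0
      omega
    rcases Nat.eq_zero_or_pos w with hw0 | hw0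
    · subst hw0
      have h6 : (NI (t + 2) (2 * 0) m' : ℝ) ≤ 1 := by
        exact_mod_cast NI_zero_le (r := t + 2) (m := m')
      have h7 : P2 ((m' : ℝ) * ((0 : ℕ) : ℝ) - ((0 : ℕ) : ℝ) * (L + 4)) = 1 := by
        unfold P2
        simp
      rw [h7]
      exact h6
    by_cases hbig : 2 * w ≤ n1
    · have hlam' : m' + 1 ≤ 2 ^ lam := by omega
      have hbase' : 50 * L * (2 * a0 + 14 + lam + L) ≤ m' / 4 :=
        hbase.trans (Nat.div_le_div_right hm1')
      exact base44 t a0 L lam w m' hw0 (by omega) (by omega) hlam' hbase'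
    push Not at hbig
    -- the structured families
    have hcard : Fintype.card (Fin m' → ZMod 2) = 2 ^ m' := by
      rw [Fintype.card_fun, ZMod.card, Fintype.card_fin]
    have hκm : κ * m1 ≤ κ * m' := Nat.mul_le_mul_left _ hm1'
    have hS := str_count t a κ m' (2 * w) L (w * (L + 4) + 1) (Fin m' → ZMod 2) hcard h1
      (by omega) (by omega) (by omega) (by omega) (by
        have e1 : 2 * w * L ≤ n0 * L := Nat.mul_le_mul_right _ hw
        have e2 : w * (L + 4) ≤ n0 * (L + 4) := Nat.mul_le_mul_right _ (by omega)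
        have e3 : m1 * κ ≤ m' * κ := Nat.mul_le_mul_right _ hm1'
        omega) (by
        intro e k hk hek
        by_cases he : Even e
        · obtain ⟨w', hw'⟩ := he
          have hw'2 : e = 2 * w' := by omega
          subst hw'2
          have hkm : k ≤ m' := by
            by_contra hcon
            push Not at hcon
            have e1 : κ * m' ≤ κ * k := Nat.mul_le_mul_left _ hcon.le
            omega
          have e2 : κ * (m - (m' - k)) = κ * (m - m') + κ * k := by
            rw [← Nat.mul_add]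
            congr 1
            omega
          have h6 := ih w' (by omega) (m' - k) (by omega) (by omega) (by
            rw [e2]
            omega)
          refine h6.trans (P2_mono ?_)
          have e3 : (0 : ℝ) ≤ (w' : ℝ) * (L + 4) := by positivity
          push_cast
          linarith
        · rw [NI_odd he, Nat.cast_zero]
          exact (P2_pos _).le)
    have hN := hstep w m' hbig hw hm1' hm'
    unfold NotStr44 at hN
    have hsplit : (NI (t + 2) (2 * w) m' : ℝ)
        ≤ (cnt (fun x : Fin (2 * w) → (Fin m' → ZMod 2) =>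
            Function.Injective x ∧ Null (t + 2) x ∧ Str κ x) : ℝ)
          + (cnt (fun x : Fin (2 * w) → (Fin m' → ZMod 2) =>
            Function.Injective x ∧ Null (t + 2) x ∧ ¬ Str κ x) : ℝ) := by
      unfold NI
      rw [cnt_eq, cnt_eq, cnt_eq]
      rw [← Nat.cast_add]
      refine Nat.cast_le.2 ?_
      refine le_trans (Finset.card_le_card ?_) (Finset.card_union_le _ _)
      intro x hx
      rw [Finset.mem_filter] at hx
      rw [Finset.mem_union, Finset.mem_filter, Finset.mem_filter]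
      by_cases hs : Str κ x
      · exact Or.inl ⟨hx.1, hx.2.1, hx.2.2, hs⟩
      · exact Or.inr ⟨hx.1, hx.2.1, hx.2.2, hs⟩
    refine hsplit.trans ?_
    rw [← two_P2_44]
    refine add_le_add (hS.trans (P2_mono ?_)) (hN.trans (P2_mono ?_))
    · push_cast
      linarith
    · push_cast
      linarith

/-- the form of row FIN -/
theorem fin44 (t m w s L : ℕ) (hL : 16 * s ≤ 2 ^ (L + 4))
    (h : (NI (t + 2) (2 * w) m : ℝ) ≤ P2 ((m : ℝ) * w - w * (L + 4))) (hs : 1 ≤ s) :
    (cnt (fun x : Fin (2 * w) → (Fin m → ZMod 2) => Function.Injective x ∧ Null (t + 2) x) : ℝ)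
      ≤ 2 ^ (m * w) / (16 * s) ^ w := by
  refine le_trans h ?_
  have hs0 : (0 : ℝ) < 16 * s := by
    have : (1 : ℝ) ≤ s := by exact_mod_cast hs
    linarith
  rw [le_div_iff₀ (pow_pos hs0 w)]
  have h1 : (16 * (s : ℝ)) ≤ P2 (L + 4) := by
    have h2 : ((16 * s : ℕ) : ℝ) ≤ ((2 ^ (L + 4) : ℕ) : ℝ) := by exact_mod_cast hL
    rw [Nat.cast_pow, Nat.cast_ofNat, P2_nat] at h2
    push_cast at h2
    exact h2
  calc P2 ((m : ℝ) * w - w * (L + 4)) * (16 * (s : ℝ)) ^ w
      ≤ P2 ((m : ℝ) * w - w * (L + 4)) * (P2 (L + 4)) ^ w :=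
        mul_le_mul_of_nonneg_left (pow_le_pow_left₀ hs0.le h1 w) (P2_pos _).le
    _ = (2 : ℝ) ^ (m * w) := by
        rw [P2_pow, ← P2_add, P2_nat]
        congr 1
        push_cast
        ring

end RMH
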