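import Pool.Agent.RM7.S6e
import Pool.Agent.RMX.Fin71
import Pool.Agent.Helper44.HO.Final

/-!
Project P2 (MP_11cd4d_lc, exponent `(r-1)/2`): the induction (helper88).
-/

set_option autoImplicit false

open scoped BigOperators
open Classical Module

namespace P288

open RMH

/-- odd null families do not exist -/
lemma NI_odd (r e m : ℕ) (he : ¬ Even e) : NI r e m = 0 := by
  unfold NI
  rw [cnt_eq, Finset.card_eq_zero, Finset.filter_eq_empty_iff]
  rintro x - ⟨-, hx⟩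
  have h2 := hx 1 (one_mem_PP r)
  simp only [Pi.one_apply, Finset.sum_const, Finset.card_univ, Fintype.card_fin, nsmul_eq_mul,
    mul_one] at h2
  rw [ZMod.natCast_eq_zero_iff_even] at h2
  exact he h2

lemma NI_zero (r m : ℕ) : (NI r 0 m : ℝ) ≤ 1 := by
  have h : NI r 0 m ≤ 1 := by
    unfold NI
    rw [cnt_eq]
    refine (Finset.card_filter_le _ _).trans ?_
    rw [Finset.card_univ, Fintype.card_fun, Fintype.card_fin, pow_zero]
  exact_mod_cast h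

lemma choose_add_ge88 (N k q : ℕ) : q * N.choose k ≤ (N + q).choose (k + 1) := by
  induction q with
  | zero => rw [Nat.zero_mul]; exact Nat.zero_le _
  | succ q ih =>
    rw [show N + (q + 1) = (N + q) + 1 by ring, Nat.choose_succ_succ', Nat.succ_mul]
    have h1 : N.choose k ≤ (N + q).choose k := Nat.choose_le_choose k (Nat.le_add_right _ _)
    omega

lemma pow_le_choose88 (q k : ℕ) : q ^ k ≤ (q * k).choose k := by
  induction k with
  | zero => simp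
  | succ k ih =>
    have h1 := choose_add_ge88 (q * k) k q
    rw [show q * (k + 1) = q * k + q by ring, pow_succ, Nat.mul_comm]
    exact (Nat.mul_le_mul_left q ih).trans h1

lemma choose_ge (t a A K : ℕ) (h : A * (t * K) + 2 * t ≤ a) :
    (A * K) ^ t ≤ (a - t).choose t := by
  refine (pow_le_choose88 (A * K) t).trans (Nat.choose_le_choose t ?_)
  have h1 : A * K * t = A * (t * K) := by ring
  omega

/-- the threshold for the logarithm -/
def Lam1 (t : ℕ) : ℕ := 4000 * (t + 2) * (t + t)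

lemma base_case (t Λ m w A : ℕ) (ht : 1 ≤ t) (hΛ : Lam1 t ≤ Λ) (hA : 1 ≤ A) (hm : m ≤ 2 ^ Λ)
    (hAm : A * Λ ^ 8 ≤ 2 * m) (hw : 1 ≤ w) (hwA : 2 * w < A ^ t * Λ ^ 4) :
    (NI (t + 2) (2 * w) m : ℝ) ≤ P2 ((m : ℝ) * w - (((t : ℝ) + 1) * Λ + 4) * w) := by
  have hf : 1 ≤ t := ht
  have hΛ' : 4000 * (t + 2) * (t + t) ≤ Λ := hΛ
  have hΛt : 4000 * (t + 2) ≤ Λ :=
    (Nat.le_mul_of_pos_right _ (by omega)).trans hΛ'
  have hΛ1 : 12000 ≤ Λ := by
    refine le_trans ?_ hΛt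
    omega
  have h2000 : 2000 * (t + 2) ≤ Λ := by omega
  have ht2 : t + 2 ≤ Λ := by omega
  set κ := (t + 1) * Λ + 1 with hκ
  have hκ2 : κ ≤ (t + 2) * Λ := by
    rw [hκ]
    nlinarith
  have hκpos : 0 < κ := by rw [hκ]; omega
  -- lower bound for m
  have hm8 : Λ ^ 8 ≤ 2 * m := (Nat.le_mul_of_pos_left _ hA).trans hAm
  set a := m / (1000 * κ) with ha
  have haκ : 1000 * κ * a ≤ m := Nat.mul_div_le m (1000 * κ)
  have hacl : 1000 * κ * (A * (t * (2 * Λ ^ 4)) + 2 * t) ≤ m := by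
    have h1 : A * (t * (2 * Λ ^ 4)) + 2 * t ≤ 2 * (t + t) * (A * Λ ^ 4) := by
      have h2 : 1 ≤ A * Λ ^ 4 := Nat.mul_pos hA (by positivity)
      nlinarith
    have h2 : 1000 * κ * (A * (t * (2 * Λ ^ 4)) + 2 * t)
        ≤ 1000 * ((t + 2) * Λ) * (2 * (t + t) * (A * Λ ^ 4)) :=
      Nat.mul_le_mul (Nat.mul_le_mul_left _ hκ2) h1
    have h3 : 2 * (1000 * ((t + 2) * Λ) * (2 * (t + t) * (A * Λ ^ 4)))
        = (4000 * (t + 2) * (t + t)) * (A * Λ ^ 5) := by ring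
    have h4 : (4000 * (t + 2) * (t + t)) * (A * Λ ^ 5) ≤ Λ * (A * Λ ^ 5) :=
      Nat.mul_le_mul_right _ hΛ'
    have h5 : Λ * (A * Λ ^ 5) ≤ A * Λ ^ 8 := by
      have : A * Λ ^ 8 = Λ * (A * Λ ^ 5) * Λ ^ 2 := by ring
      rw [this]
      exact Nat.le_mul_of_pos_right _ (by positivity)
    omega
  have ha2 : A * (t * (2 * Λ ^ 4)) + 2 * t ≤ a := by
    rw [ha, Nat.le_div_iff_mul_le (by omega)]
    rw [mul_comm]
    exact hacl
  have hcl : 4 * w < (a - t).choose t := by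
    refine lt_of_lt_of_le ?_ (choose_ge t a A (2 * Λ ^ 4) ha2)
    have h1 : (A * (2 * Λ ^ 4)) ^ t = A ^ t * (2 * Λ ^ 4) ^ t := by rw [mul_pow]
    rw [h1]
    have h2 : 2 * Λ ^ 4 ≤ (2 * Λ ^ 4) ^ t := Nat.le_self_pow (by omega) _
    have h3 : A ^ t * (2 * Λ ^ 4) ≤ A ^ t * (2 * Λ ^ 4) ^ t := Nat.mul_le_mul_left _ h2
    have h4 : A ^ t * (2 * Λ ^ 4) = 2 * (A ^ t * Λ ^ 4) := by ring
    omega
  have hwκ : 2 * w ≤ 2 ^ κ := by
    have h1 : A ^ t * Λ ^ 4 ≤ (A * Λ ^ 8) ^ t := by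
      rw [mul_pow]
      refine Nat.mul_le_mul_left _ ?_
      rw [← pow_mul]
      exact Nat.pow_le_pow_right (by omega) (by omega)
    have h2 : (A * Λ ^ 8) ^ t ≤ (2 ^ (Λ + 1)) ^ t := by
      refine Nat.pow_le_pow_left (hAm.trans ?_) t
      rw [pow_succ]
      omega
    have h3 : (2 ^ (Λ + 1)) ^ t ≤ 2 ^ κ := by
      rw [← pow_mul]
      refine Nat.pow_le_pow_right (by norm_num) ?_
      rw [hκ]
      nlinarith
    omega
  have hm4 : 4 * κ ≤ m := by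
    have : 4 * κ ≤ 1000 * κ * (A * (t * (2 * Λ ^ 4)) + 2 * t) := by
      have h1 : 1 ≤ A * (t * (2 * Λ ^ 4)) + 2 * t := by omega
      nlinarith
    omega
  have hV : Fintype.card (Fin m → ZMod 2) = 2 ^ m := by
    rw [Fintype.card_fun, ZMod.card, Fintype.card_fin]
  have hmain := null_count_cnt closureCount t a κ w m hcl hwκ hw (Fin m → ZMod 2) hV hm4
  refine le_trans hmain ?_
  have h4m : (4 * ((m : ℝ) + 1)) ≤ P2 ((Λ : ℝ) + 3) := by
    have h1 : 4 * (m + 1) ≤ 2 ^ (Λ + 3) := by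
      have h2 : 1 ≤ 2 ^ Λ := Nat.one_le_two_pow
      rw [pow_add]
      omega
    have h2 : ((4 * (m + 1) : ℕ) : ℝ) ≤ ((2 ^ (Λ + 3) : ℕ) : ℝ) := by exact_mod_cast h1
    rw [Nat.cast_pow, Nat.cast_ofNat, P2_nat] at h2
    push_cast at h2
    exact h2
  have hexp : (Λ : ℝ) + 3 + ((m * w : ℝ) + 2 * (a + 4) * w - 2 * w * (m / 4 : ℕ) / (100 * κ)) ≤
      (m : ℝ) * w - (((t : ℝ) + 1) * Λ + 4) * w := by
    have hκR : (0 : ℝ) < κ := by exact_mod_cast hκpos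
    have hwR : (1 : ℝ) ≤ w := by exact_mod_cast hw
    have haR : (1000 : ℝ) * κ * a ≤ m := by exact_mod_cast haκ
    have hm4R : (m : ℝ) - 3 ≤ 4 * ((m / 4 : ℕ) : ℝ) := by
      have h1 : m ≤ 4 * (m / 4) + 3 := by omega
      have h2 : (m : ℝ) ≤ ((4 * (m / 4) + 3 : ℕ) : ℝ) := by exact_mod_cast h1
      push_cast at h2
      linarith
    have hbig : (1000 : ℝ) * (((t : ℝ) + 2) * Λ + 16) * κ ≤ 3 * m := by
      have h1 : 1000 * ((t + 2) * Λ + 16) * κ ≤ 3 * m := by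
        have h2 : 1000 * ((t + 2) * Λ + 16) * κ ≤ 1000 * (2 * ((t + 2) * Λ)) * ((t + 2) * Λ) := by
          refine Nat.mul_le_mul (Nat.mul_le_mul_left _ ?_) hκ2
          nlinarith
        have h3 : 1000 * (2 * ((t + 2) * Λ)) * ((t + 2) * Λ) ≤ Λ ^ 8 := by
          have h5 : 1000 * (2 * ((t + 2) * Λ)) * ((t + 2) * Λ)
              = (2000 * (t + 2)) * (t + 2) * Λ ^ 2 := by ring
          rw [h5]
          have h6 : (2000 * (t + 2)) * (t + 2) * Λ ^ 2 ≤ Λ * Λ * Λ ^ 2 :=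
            Nat.mul_le_mul_right _ (Nat.mul_le_mul h2000 ht2)
          refine h6.trans ?_
          have h7 : Λ ^ 8 = Λ * Λ * Λ ^ 2 * Λ ^ 4 := by ring
          rw [h7]
          exact Nat.le_mul_of_pos_right _ (by positivity)
        linarith
      exact_mod_cast h1
    have hdiv : (w : ℝ) * (((t : ℝ) + 2) * Λ + 16) + 2 * a * w
        ≤ 2 * w * ((m / 4 : ℕ) : ℝ) / (100 * κ) + w := by
      rw [← sub_le_iff_le_add, le_div_iff₀ (by positivity)]
      have e1 : (w : ℝ) * (1000 * (((t : ℝ) + 2) * Λ + 16) * κ) ≤ w * (3 * m) :=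
        mul_le_mul_of_nonneg_left hbig (by linarith)
      have e2 : (w : ℝ) * (1000 * κ * a) ≤ w * m :=
        mul_le_mul_of_nonneg_left haR (by linarith)
      have e3 : (w : ℝ) * (m - 3) ≤ w * (4 * ((m / 4 : ℕ) : ℝ)) :=
        mul_le_mul_of_nonneg_left hm4R (by linarith)
      have e4 : (1 : ℝ) ≤ κ := by exact_mod_cast hκpos
      nlinarith
    have hΛw : (Λ : ℝ) ≤ Λ * w := by
      have : (0 : ℝ) ≤ Λ := Nat.cast_nonneg _
      nlinarith
    nlinarith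
  calc (4 : ℝ) * (m + 1) *
        (2 : ℝ) ^ ((m * w : ℝ) + 2 * (a + 4) * w - 2 * w * (m / 4 : ℕ) / (100 * κ))
      ≤ P2 ((Λ : ℝ) + 3) *
        P2 ((m * w : ℝ) + 2 * (a + 4) * w - 2 * w * (m / 4 : ℕ) / (100 * κ)) :=
        mul_le_mul_of_nonneg_right h4m (P2_pos _).le
    _ = P2 ((Λ : ℝ) + 3 + ((m * w : ℝ) + 2 * (a + 4) * w
          - 2 * w * (m / 4 : ℕ) / (100 * κ))) := (P2_add _ _).symm
    _ ≤ _ := P2_mono hexp

end P288
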