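import Pool.Agent.RMX.Ind88a

/-!
Project P2 (MP_11cd4d_lc, exponent `(r-1)/2`): the induction (helper88).
-/

set_option autoImplicit false

open scoped BigOperators
open Classical Module

namespace P288

open RMH

/-- the count of non structured families (row NS + PAR) -/
def NonStr (t Λ₀ : ℕ) : Prop :=
  ∀ Λ m n A : ℕ, Λ₀ ≤ Λ → 1 ≤ A → m ≤ 2 ^ Λ → A * Λ ^ 8 ≤ 2 * m → A ^ t * Λ ^ 4 ≤ n →
    n ≤ 2 * A ^ (t + 1) →
    (cnt (fun x : Fin n → (Fin m → ZMod 2) => Function.Injective x ∧ Null (t + 2) x ∧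
      ¬ Str (A ^ t) x) : ℝ) ≤ P2 ((m : ℝ) * n / 2 - (Λ : ℝ) ^ 2 * n)

/-- the induction -/
theorem induction88 (t Λ₀ : ℕ) (ht : 1 ≤ t) (hNS : NonStr t Λ₀) (Λ M A : ℕ) (hΛ₀ : Λ₀ ≤ Λ)
    (hΛ : Lam1 t ≤ Λ) (hA : 128 ≤ A) (hM : M ≤ 2 ^ Λ) (hAM : A * Λ ^ 8 ≤ M) :
    ∀ n m : ℕ, m ≤ M → n + A ^ t * (M - m) ≤ 2 * A ^ (t + 1) →
      (NI (t + 2) n m : ℝ) ≤ P2 ((m : ℝ) * n / 2 - (((t : ℝ) + 1) * Λ + 4) * n / 2) := by
  have hf : 1 ≤ t := ht
  have hΛ' : 4000 * (t + 2) * (t + t) ≤ Λ := hΛ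
  have hΛt : 4000 * (t + 2) ≤ Λ :=
    (Nat.le_mul_of_pos_right _ (by omega)).trans hΛ'
  have hΛf : 4000 * (t + t) ≤ Λ := by
    refine le_trans ?_ hΛ'
    rw [mul_assoc, mul_comm (t + 2)]
    exact Nat.mul_le_mul_left _ (Nat.le_mul_of_pos_right _ (by omega))
  have hΛ1 : 12000 ≤ Λ := by
    refine le_trans ?_ hΛt
    omega
  have hAt : 128 ≤ A ^ t := hA.trans (Nat.le_self_pow (by omega) _)
  have hAt1 : A ^ (t + 1) = A ^ t * A := pow_succ _ _
  intro n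
  induction n using Nat.strong_induction_on with
  | _ n ih =>
  intro m hmM hbud
  rcases Nat.eq_zero_or_pos n with rfl | hn
  · refine (NI_zero _ _).trans ?_
    have : (m : ℝ) * (0 : ℕ) / 2 - (((t : ℝ) + 1) * Λ + 4) * (0 : ℕ) / 2 = 0 := by
      push_cast
      ring
    rw [this]
    exact one_le_P2 le_rfl
  by_cases hev : Even n
  swap
  · rw [NI_odd _ _ _ hev, Nat.cast_zero]
    exact (P2_pos _).le
  obtain ⟨w, rfl⟩ : ∃ w, n = 2 * w := by
    obtain ⟨w, hw⟩ := hev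
    exact ⟨w, by omega⟩
  have hw : 1 ≤ w := by omega
  have hmM2 : M - m ≤ 2 * A := by
    have h1 : A ^ t * (M - m) ≤ A ^ t * (2 * A) := by
      rw [hAt1] at hbud
      nlinarith
    exact Nat.le_of_mul_le_mul_left h1 (by omega)
  have hn2 : 2 * w ≤ 2 * A ^ (t + 1) := le_trans (Nat.le_add_right _ _) hbud
  have hΛ8 : 4 ≤ Λ ^ 8 := le_trans (by omega) (Nat.le_self_pow (by norm_num) Λ)
  have hAm : A * Λ ^ 8 ≤ 2 * m := by
    have h1 : A * 4 ≤ A * Λ ^ 8 := Nat.mul_le_mul_left _ hΛ8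
    omega
  have hm : m ≤ 2 ^ Λ := hmM.trans hM
  have hgoal : (m : ℝ) * (2 * w : ℕ) / 2 - (((t : ℝ) + 1) * Λ + 4) * (2 * w : ℕ) / 2 =
      (m : ℝ) * w - (((t : ℝ) + 1) * Λ + 4) * w := by
    push_cast
    ring
  rcases lt_or_ge (2 * w) (A ^ t * Λ ^ 4) with hsmall | hlarge
  · rw [hgoal]
    exact base_case t Λ m w A ht hΛ (by omega) hm hAm hw hsmall
  -- the new regime
  have hns := hNS Λ m (2 * w) A hΛ₀ (by omega) hm hAm hlarge hn2
  set L := (t + 1) * Λ + 1 with hL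
  set G := ((t + 1) * Λ + 4) * w + 1 with hG
  have hV : Fintype.card (Fin m → ZMod 2) = 2 ^ m := by
    rw [Fintype.card_fun, ZMod.card, Fintype.card_fin]
  have hmA : A * Λ ^ 7 * 2 ≤ m := by
    have h1 : A * Λ ^ 8 = A * Λ ^ 7 * Λ := by ring
    have h2 : A * Λ ^ 7 * 4 ≤ A * Λ ^ 7 * Λ := Nat.mul_le_mul_left _ (by omega)
    omega
  have hstr := str_count t (m / 24) (A ^ t) m (2 * w) L G (Fin m → ZMod 2) hV ?_ ?_ ?_
    (by omega) ?_ ?_ ?_
  · -- conclusion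
    have hsplit : NI (t + 2) (2 * w) m ≤
        cnt (fun x : Fin (2 * w) → (Fin m → ZMod 2) =>
          Function.Injective x ∧ Null (t + 2) x ∧ Str (A ^ t) x) +
        cnt (fun x : Fin (2 * w) → (Fin m → ZMod 2) =>
          Function.Injective x ∧ Null (t + 2) x ∧ ¬ Str (A ^ t) x) := by
      unfold NI
      rw [cnt_eq, cnt_eq, cnt_eq]
      refine le_trans (Finset.card_le_card ?_) (Finset.card_union_le _ _)
      intro x hx
      rw [Finset.mem_union, Finset.mem_filter, Finset.mem_filter]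
      have h1 := (Finset.mem_filter.1 hx).2
      by_cases h : Str (A ^ t) x
      · exact Or.inl ⟨Finset.mem_univ _, h1.1, h1.2, h⟩
      · exact Or.inr ⟨Finset.mem_univ _, h1.1, h1.2, h⟩
    have hsplitR : (NI (t + 2) (2 * w) m : ℝ) ≤
        P2 ((m : ℝ) * (2 * w : ℕ) / 2 - G) +
          P2 ((m : ℝ) * (2 * w : ℕ) / 2 - (Λ : ℝ) ^ 2 * (2 * w : ℕ)) := by
      refine le_trans (by exact_mod_cast hsplit) (add_le_add hstr hns)
    refine hsplitR.trans ?_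
    have hle : P2 ((m : ℝ) * (2 * w : ℕ) / 2 - (Λ : ℝ) ^ 2 * (2 * w : ℕ)) ≤
        P2 ((m : ℝ) * (2 * w : ℕ) / 2 - G) := by
      apply P2_mono
      have h1 : (G : ℝ) ≤ (Λ : ℝ) ^ 2 * (2 * w : ℕ) := by
        have h2 : G ≤ Λ ^ 2 * (2 * w) := by
          rw [hG]
          have h3 : ((t + 1) * Λ + 4) * w + 1 ≤ (((t + 1) * Λ + 4) + 1) * w := by
            rw [add_mul ((t + 1) * Λ + 4) 1 w]
            omega
          refine h3.trans ?_
          have h4 : (t + 1) * Λ + 4 + 1 ≤ Λ ^ 2 * 2 := by nlinarith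
          calc ((t + 1) * Λ + 4 + 1) * w ≤ (Λ ^ 2 * 2) * w := Nat.mul_le_mul_right _ h4
            _ = Λ ^ 2 * (2 * w) := by ring
        exact_mod_cast h2
      linarith
    have heq : P2 ((m : ℝ) * (2 * w : ℕ) / 2 - G) + P2 ((m : ℝ) * (2 * w : ℕ) / 2 - G) =
        P2 ((m : ℝ) * (2 * w : ℕ) / 2 - (((t : ℝ) + 1) * Λ + 4) * (2 * w : ℕ) / 2) := by
      have h1 : (m : ℝ) * (2 * w : ℕ) / 2 - (((t : ℝ) + 1) * Λ + 4) * (2 * w : ℕ) / 2 =
          1 + ((m : ℝ) * (2 * w : ℕ) / 2 - G) := by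
        rw [hG]
        push_cast
        ring
      rw [h1, P2_add]
      have h2 : P2 1 = 2 := Real.rpow_one 2
      rw [h2]
      ring
    rw [← heq]
    linarith
  · -- closure
    have h1 : A * (t * 1) + 2 * t ≤ m / 24 := by
      rw [Nat.le_div_iff_mul_le (by norm_num)]
      have h2 : (A * (t * 1) + 2 * t) * 24 ≤ A * (24 * (2 * (t + t))) := by
        nlinarith
      have h3 : 24 * (2 * (t + t)) ≤ Λ ^ 7 * 2 := by
        have : Λ ≤ Λ ^ 7 := Nat.le_self_pow (by norm_num) _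
        omega
      have h4 : A * (24 * (2 * (t + t))) ≤ A * (Λ ^ 7 * 2) := Nat.mul_le_mul_left _ h3
      have h5 : A * (Λ ^ 7 * 2) = A * Λ ^ 7 * 2 := by ring
      omega
    have h2 := choose_ge t (m / 24) A 1 h1
    rw [mul_one] at h2
    omega
  · -- n ≤ 2 ^ L
    have h1 : A ≤ 2 ^ Λ := by
      have : A ≤ A * Λ ^ 8 := Nat.le_mul_of_pos_right _ (by omega)
      omega
    have h2 : A ^ (t + 1) ≤ (2 ^ Λ) ^ (t + 1) := Nat.pow_le_pow_left h1 _
    rw [← pow_mul] at h2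
    have h3 : 2 ^ L = 2 ^ (Λ * (t + 1)) * 2 := by
      rw [hL, pow_succ, mul_comm (t + 1) Λ]
    rw [h3]
    omega
  · -- 8 n ≤ κ m
    have h1 : 8 * (2 * w) ≤ A ^ t * (16 * A) := by
      rw [hAt1] at hn2
      nlinarith
    refine h1.trans (Nat.mul_le_mul_left _ ?_)
    have h2 : 16 ≤ Λ ^ 7 * 2 := by
      have : Λ ≤ Λ ^ 7 := Nat.le_self_pow (by norm_num) _
      omega
    have h3 : A * 16 ≤ A * (Λ ^ 7 * 2) := Nat.mul_le_mul_left _ h2
    have h5 : A * (Λ ^ 7 * 2) = A * Λ ^ 7 * 2 := by ring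
    omega
  · -- 24 ≤ m
    have h2 : 1 ≤ Λ ^ 7 := Nat.one_le_pow _ _ (by omega)
    have h3 : A * 1 ≤ A * Λ ^ 7 := Nat.mul_le_mul_left _ h2
    omega
  · -- the main inequality
    have h1 : 64 * (m) ≤ m * A ^ t := by nlinarith
    have h2 : 64 * (3 * (2 * w) + 2 * w * L + G + 2) ≤ m * A ^ t := by
      have h3 : G ≤ (Λ * (t + 1) + 5) * w := by
        rw [hG]
        nlinarith
      have h4 : 3 * (2 * w) + 2 * w * L + G + 2 ≤ w * (3 * (t + 2) * Λ + 15) := by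
        rw [hL]
        nlinarith
      have h5 : w ≤ A ^ t * A := by
        rw [hAt1] at hn2
        omega
      have h6 : 64 * (A * (3 * (t + 2) * Λ + 15)) ≤ m := by
        have h7 : 64 * (3 * (t + 2) * Λ + 15) ≤ Λ ^ 7 * 2 := by
          have h8 : 64 * (3 * (t + 2) * Λ + 15) ≤ Λ * Λ * 2 := by nlinarith
          refine h8.trans (Nat.mul_le_mul_right _ ?_)
          have h9 : Λ ^ 7 = Λ * Λ * Λ ^ 5 := by ring
          rw [h9]
          exact Nat.le_mul_of_pos_right _ (by positivity)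
        have h8 : A * (64 * (3 * (t + 2) * Λ + 15)) ≤ A * (Λ ^ 7 * 2) := Nat.mul_le_mul_left _ h7
        have h9 : A * (Λ ^ 7 * 2) = A * Λ ^ 7 * 2 := by ring
        have h10 : 64 * (A * (3 * (t + 2) * Λ + 15)) = A * (64 * (3 * (t + 2) * Λ + 15)) := by ring
        omega
      calc 64 * (3 * (2 * w) + 2 * w * L + G + 2) ≤ 64 * (w * (3 * (t + 2) * Λ + 15)) :=
            Nat.mul_le_mul_left _ h4
        _ ≤ 64 * ((A ^ t * A) * (3 * (t + 2) * Λ + 15)) :=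
            Nat.mul_le_mul_left _ (Nat.mul_le_mul_right _ h5)
        _ = A ^ t * (64 * (A * (3 * (t + 2) * Λ + 15))) := by ring
        _ ≤ A ^ t * m := Nat.mul_le_mul_left _ h6
        _ = m * A ^ t := mul_comm _ _
    omega
  · -- the induction hypothesis
    intro e k hk hek
    have h1 : e < 2 * w := by
      have : 1 ≤ A ^ t * k := Nat.mul_pos (by omega) hk
      omega
    have h2 : e + A ^ t * (M - (m - k)) ≤ 2 * A ^ (t + 1) := by
      have h3 : M - (m - k) ≤ (M - m) + k := by omega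
      have h4 : A ^ t * (M - (m - k)) ≤ A ^ t * (M - m) + A ^ t * k := by
        rw [← mul_add]
        exact Nat.mul_le_mul_left _ h3
      omega
    refine (ih e h1 (m - k) ((Nat.sub_le _ _).trans hmM) h2).trans (P2_mono ?_)
    have h3 : (0 : ℝ) ≤ (((t : ℝ) + 1) * Λ + 4) * e / 2 := by positivity
    linarith

end P288
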