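import Pool.Agent.RMX.ClassI44
import Pool.Agent.RMX.RowD51
import Pool.Agent.RM7.ClassII
import Pool.Agent.Helper37.RM.CntK
import Pool.Agent.Helper37.RM.CntN
import Pool.Agent.RMX.Ind44

/-! The union of the rare classes (helper44) -/

set_option autoImplicit false
set_option linter.unusedSectionVars false

open scoped BigOperators
open Classical Module

namespace RMH

lemma cnt_or_le44 {A : Type} [Fintype A] (P Q : A → Prop) :
    cnt (fun x => P x ∨ Q x) ≤ cnt P + cnt Q := by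
  rw [cnt_eq, cnt_eq, cnt_eq]
  refine le_trans (Finset.card_le_card ?_) (Finset.card_union_le _ _)
  intro x hx
  rw [Finset.mem_filter] at hx
  rw [Finset.mem_union, Finset.mem_filter, Finset.mem_filter]
  rcases hx.2 with h | h
  · exact Or.inl ⟨hx.1, h⟩
  · exact Or.inr ⟨hx.1, h⟩

section Chains

variable {m : ℕ}

/-- the first `j` rows -/
def pre44 (m j : ℕ) : Finset (Fin m) := Finset.univ.filter (fun i => (i : ℕ) < j)

/-- the last `j` rows -/
def suf44 (m j : ℕ) : Finset (Fin m) := Finset.univ.filter (fun i => m ≤ (i : ℕ) + j)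

lemma chain_pre44 (m : ℕ) : P288.Chain (pre44 m) := by
  refine ⟨?_, fun j hj => ⟨⟨j, hj⟩, ?_, ?_⟩⟩
  · unfold pre44
    rw [Finset.filter_eq_empty_iff]
    intro i _
    omega
  · unfold pre44
    rw [Finset.mem_filter]
    push Not
    intro _
    exact le_rfl
  · ext i
    unfold pre44
    rw [Finset.mem_insert, Finset.mem_filter, Finset.mem_filter]
    simp only [Finset.mem_univ, true_and, Fin.ext_iff]
    omega

lemma chain_suf44 (m : ℕ) : P288.Chain (suf44 m) := by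
  refine ⟨?_, fun j hj => ⟨⟨m - 1 - j, by omega⟩, ?_, ?_⟩⟩
  · unfold suf44
    rw [Finset.filter_eq_empty_iff]
    intro i _
    have := i.2
    omega
  · unfold suf44
    rw [Finset.mem_filter]
    push Not
    intro _
    show m - 1 - j + j < m
    omega
  · ext i
    unfold suf44
    rw [Finset.mem_insert, Finset.mem_filter, Finset.mem_filter]
    simp only [Finset.mem_univ, true_and, Fin.ext_iff]
    have := i.2
    omega

lemma pre_union_suf44 (m j j' : ℕ) (h : m ≤ j + j') : pre44 m j ∪ suf44 m j' = Finset.univ := by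
  ext i
  unfold pre44 suf44
  rw [Finset.mem_union, Finset.mem_filter, Finset.mem_filter]
  simp only [Finset.mem_univ, true_and, iff_true]
  have := i.2
  omega

end Chains

/-- the statement of row E -/
def RowE44 (t g ρ p0 p m n : ℕ) (δ δ' ε : ℝ) : Prop :=
  ∀ (x : Fin n → (Fin m → ZMod 2)) (J1 J2 : Finset (Fin m)), Function.Injective x →
    Null (t + 2) x → P288.Win t δ J1 x → P288.Win t δ J2 x →
    (finrank (ZMod 2) ↥((PP (Fin m → ZMod 2) (t + 1)).map (pull x)) : ℝ)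
      ≤ (1 / 2 + (2 * t + 3) * δ) * n →
    (∀ Ω : Finset (Fin n), ¬ (finrank (ZMod 2)
      ↥((PP (Fin m → ZMod 2) (t + 1)).map (pull (fun i : Ω => x i))) : ℝ) ≤ Ω.card / 2 - ε * n) →
    ¬ P288.Few t g δ' J1 x → ¬ P288.Few t g δ' J2 x →
    KillC t ρ p0 (rws J1 x) ∨ KillC t ρ p0 (rws J2 x) ∨
      ∃ u v : Fin p → Fin n, Function.Injective (Sum.elim u v) ∧
        PairR t ρ u v (rws J1 x) ∧ PairR t ρ u v (rws J2 x)

/-- the statement of row S -/
def RowS44 (t c ρ p p1 κ m n : ℕ) : Prop :=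
  ∀ (J1 J2 : Finset (Fin m)), J1 ∪ J2 = Finset.univ → ∀ (x : Fin n → (Fin m → ZMod 2))
    (u v : Fin p → Fin n), Function.Injective (Sum.elim u v) →
    PairR t ρ u v (rws J1 x) → PairR t ρ u v (rws J2 x) →
    nonsat t c (fun i => rws J1 x (u i)) (fun i => rws J1 x (v i)) ≤ p1 →
    nonsat t c (fun i => rws J2 x (u i)) (fun i => rws J2 x (v i)) ≤ p1 → Str κ x

/-- the class K for the rows `J` -/
def ClK44 (t ρ p0 m n : ℕ) (δ : ℝ) (J : Finset (Fin m)) (x : Fin n → (Fin m → ZMod 2)) : Prop :=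
  Null (t + 2) x ∧ KillC t ρ p0 (rws J x) ∧
      (1 / 2 - δ) * n ≤ (finrank (ZMod 2) ↥((PP (J → ZMod 2) (t + 1)).map (pull (rws J x))) : ℝ)

/-- the class N for the rows `J` -/
def ClN44 (t c ρ p p1 m n : ℕ) (δ : ℝ) (J : Finset (Fin m)) (x : Fin n → (Fin m → ZMod 2)) : Prop :=
  Null (t + 2) x ∧
      (∃ u v : Fin p → Fin n, Function.Injective (Sum.elim u v) ∧ PairR t ρ u v (rws J x) ∧
        p1 ≤ nonsat t c (fun i => rws J x (u i)) (fun i => rws J x (v i))) ∧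
      (1 / 2 - δ) * n ≤ (finrank (ZMod 2) ↥((PP (J → ZMod 2) (t + 1)).map (pull (rws J x))) : ℝ)

/-- the class D for a chain -/
def ClD44 (t g m n j0 j1 : ℕ) (δ δ' : ℝ) (J : ℕ → Finset (Fin m))
    (x : Fin n → (Fin m → ZMod 2)) : Prop :=
  Null (t + 2) x ∧ (∀ j, j0 ≤ j → j ≤ j1 → P288.Win t δ (J j) x) ∧
      ∀ j, j0 ≤ j → j < j1 → P288.Few t g δ' (J j) x

/-- the class I -/
def ClI44 (t m n jw : ℕ) (δ : ℝ) (x : Fin n → (Fin m → ZMod 2)) : Prop :=
  Null (t + 1 + 1) x ∧ ¬ Win (t + 1) jw ((1 / 2 - δ) * n) ((1 / 2 + δ) * n) x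

/-- the class III -/
def ClO44 (t m n : ℕ) (ε : ℝ) (x : Fin n → (Fin m → ZMod 2)) : Prop :=
  Null (t + 1 + 1) x ∧ ∃ Ω : Finset (Fin n), (finrank (ZMod 2)
      ↥((PP (Fin m → ZMod 2) (t + 1)).map (pull (fun i : Ω => x i))) : ℝ) ≤ Ω.card / 2 - ε * n

/-- every injective null family which is not structured is in a rare class -/
lemma cover44 (t c ρ p0 p p1 g j0 j1 jw κ m n : ℕ) (δ δ' ε : ℝ) (ht : 1 ≤ t) (hj0 : jw ≤ j0)
    (hj1 : j1 + jw ≤ m) (hm2 : m ≤ 2 * j0) (hjw : (t + 2) * jw ≤ m)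
    (hE : RowE44 t g ρ p0 p m n δ δ' ε) (hS : RowS44 t c ρ p p1 κ m n)
    (x : Fin n → (Fin m → ZMod 2)) (hx : Function.Injective x) (hnull : Null (t + 2) x)
    (hstr : ¬ Str κ x) :
    ClI44 t m n jw δ x ∨ ClO44 t m n ε x ∨ ClD44 t g m n j0 j1 δ δ' (pre44 m) x ∨
      ClD44 t g m n j0 j1 δ δ' (suf44 m) x ∨
      ∃ q : Fin m × (Bool × Bool), (j0 ≤ (q.1 : ℕ) ∧ (q.1 : ℕ) < j1) ∧
        (if q.2.2 then ClK44 t ρ p0 m n δ (if q.2.1 then pre44 m q.1 else suf44 m q.1) x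
          else ClN44 t c ρ p p1 m n δ (if q.2.1 then pre44 m q.1 else suf44 m q.1) x) := by
  by_cases hI : ClI44 t m n jw δ x
  · exact Or.inl hI
  by_cases hO : ClO44 t m n ε x
  · exact Or.inr (Or.inl hO)
  refine Or.inr (Or.inr ?_)
  have hW : Win (t + 1) jw ((1 / 2 - δ) * n) ((1 / 2 + δ) * n) x := by
    by_contra h
    exact hI ⟨hnull, h⟩
  have hwin : ∀ J : Finset (Fin m), jw ≤ J.card → J.card ≤ m - jw → P288.Win t δ J x := by
    intro J h1 h2
    obtain ⟨h3, h4⟩ := hW J h1 h2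
    unfold P288.Win P288.RR
    rw [Fintype.card_fin]
    exact ⟨h3.le, h4.le⟩
  have hcard : ∀ (J : ℕ → Finset (Fin m)), P288.Chain J → ∀ j, j0 ≤ j → j ≤ j1 →
      P288.Win t δ (J j) x := by
    intro J hJ j h1 h2
    have h3 := hJ.card (j := j) (by omega)
    exact hwin (J j) (by omega) (by omega)
  by_cases hD1 : ClD44 t g m n j0 j1 δ δ' (pre44 m) x
  · exact Or.inl hD1
  by_cases hD2 : ClD44 t g m n j0 j1 δ δ' (suf44 m) x
  · exact Or.inr (Or.inl hD2)
  refine Or.inr (Or.inr ?_)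
  obtain ⟨ja, ha1, ha2, ha3⟩ : ∃ j, j0 ≤ j ∧ j < j1 ∧ ¬ P288.Few t g δ' (pre44 m j) x := by
    by_contra h
    push Not at h
    exact hD1 ⟨hnull, hcard _ (chain_pre44 m), fun j h1 h2 => h j h1 h2⟩
  obtain ⟨jb, hb1, hb2, hb3⟩ : ∃ j, j0 ≤ j ∧ j < j1 ∧ ¬ P288.Few t g δ' (suf44 m j) x := by
    by_contra h
    push Not at h
    exact hD2 ⟨hnull, hcard _ (chain_suf44 m), fun j h1 h2 => h j h1 h2⟩
  have hwa := hcard _ (chain_pre44 m) ja ha1 ha2.le
  have hwb := hcard _ (chain_suf44 m) jb hb1 hb2.le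
  have hlo : ∀ J : Finset (Fin m), P288.Win t δ J x → (1 / 2 - δ) * n
      ≤ (finrank (ZMod 2) ↥((PP (J → ZMod 2) (t + 1)).map (pull (rws J x))) : ℝ) := by
    intro J h
    have h1 := h.1
    unfold P288.RR at h1
    rwa [Fintype.card_fin] at h1
  have hall : (finrank (ZMod 2) ↥((PP (Fin m → ZMod 2) (t + 1)).map (pull x)) : ℝ)
      ≤ (1 / 2 + (2 * t + 3) * δ) * n := by
    have h1 := rank_all7 (ι := Fin n) (m := m) t jw ht hjw x δ (by
      intro J h1 h2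
      obtain ⟨h3, h4⟩ := hW J h1 h2
      rw [Fintype.card_fin]
      exact ⟨h3.le, h4.le⟩)
    rwa [Fintype.card_fin] at h1
  have hja : ja < m := by omega
  have hjb : jb < m := by omega
  rcases hE x (pre44 m ja) (suf44 m jb) hx hnull hwa hwb hall
    (fun Ω hΩ => hO ⟨hnull, Ω, hΩ⟩) ha3 hb3 with h | h | ⟨u, v, huv, h1, h2⟩
  · refine ⟨(⟨ja, hja⟩, (true, true)), ⟨ha1, ha2⟩, ?_⟩
    exact ⟨hnull, h, hlo _ hwa⟩
  · refine ⟨(⟨jb, hjb⟩, (false, true)), ⟨hb1, hb2⟩, ?_⟩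
    exact ⟨hnull, h, hlo _ hwb⟩
  · by_cases hn1 : nonsat t c (fun i => rws (pre44 m ja) x (u i))
        (fun i => rws (pre44 m ja) x (v i)) ≤ p1
    · by_cases hn2 : nonsat t c (fun i => rws (suf44 m jb) x (u i))
          (fun i => rws (suf44 m jb) x (v i)) ≤ p1
      · exact absurd (hS _ _ (pre_union_suf44 m ja jb (by omega)) x u v huv h1 h2 hn1 hn2) hstr
      · push Not at hn2
        refine ⟨(⟨jb, hjb⟩, (false, false)), ⟨hb1, hb2⟩, ?_⟩
        exact ⟨hnull, ⟨u, v, huv, h2, hn2.le⟩, hlo _ hwb⟩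
    · push Not at hn1
      refine ⟨(⟨ja, hja⟩, (true, false)), ⟨ha1, ha2⟩, ?_⟩
      exact ⟨hnull, ⟨u, v, huv, h1, hn1.le⟩, hlo _ hwa⟩

/-- **(NS)** few injective null families are not structured -/
theorem nonstr_le44 (t a a2 b c ρ p0 p p1 g L lam j0 j1 jw κ m n : ℕ) (δ δ' ε θ G : ℝ)
    (ht : 1 ≤ t) (hL : n ≤ 2 ^ L) (hlam : m + 1 ≤ 2 ^ lam) (hδ : 0 ≤ δ) (hθ0 : 0 ≤ θ)
    (hθ : θ * g = (δ + δ') * n) (hn : 2 * n < (a - (t + 1)).choose (t + 1))
    (hj0 : jw ≤ j0) (hj01 : j0 ≤ j1) (hj1 : j1 + jw ≤ m) (hm2 : m ≤ 2 * j0)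
    (hjw : (t + 2) * jw ≤ m) (hρ2 : ρ < (a2 - t).choose t) (hρb : ρ < b.choose t) (hρp : ρ ≤ p1)
    (hI : G + lam + 3 + (2 * a + 3) * n + 2 * m ≤ jw * (δ * n))
    (hIII : G + 2 * lam + 2 + (a + 3) * n ≤ m * (ε * n))
    (hD : G + 2 * lam + 2 + (a + 2) * n + 2 * (θ * (δ * n)) + ((j1 : ℝ) - j0)
      + ((m : ℝ) - j1) * (δ * n) ≤ ((j1 : ℝ) - j0) * (δ' * n))
    (hK : G + lam + 2 + ((m : ℝ) - j0) * (δ * n) + m * (ρ + 1) + (a + 4) * n
      ≤ p0 * ((j0 : ℝ) / 2 - a2))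
    (hN : G + lam + 2 + ((m : ℝ) - j0) * (δ * n) + m * (ρ + 1) + (a + 2) * n + 2 * p * (L + 1)
      ≤ ((p1 : ℝ) - ρ) * ((j0 : ℝ) - c - 5 * b))
    (hE : RowE44 t g ρ p0 p m n δ δ' ε) (hS : RowS44 t c ρ p p1 κ m n) :
    NotStr44 t n m κ G := by
  have hn0 : (0 : ℝ) ≤ n := Nat.cast_nonneg _
  have hδn : 0 ≤ δ * n := mul_nonneg hδ hn0
  have hF : FibB (t + 2) a n := fibB44 (t + 1) a n hn
  set T : ℝ := P2 ((m : ℝ) * n / 2 - G - (lam + 2)) with hT
  have hT0 : 0 < T := P2_pos _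
  have hlamR : ((m : ℝ) + 1) ≤ P2 lam := by
    have h6 : ((m + 1 : ℕ) : ℝ) ≤ ((2 ^ lam : ℕ) : ℝ) := by exact_mod_cast hlam
    rw [Nat.cast_pow, Nat.cast_ofNat, P2_nat] at h6
    push_cast at h6
    exact h6
  have hcard : Fintype.card (Fin m → ZMod 2) = 2 ^ m := by
    rw [Fintype.card_fun, ZMod.card, Fintype.card_fin]
  -- class I
  have cI : (cnt (ClI44 t m n jw δ) : ℝ) ≤ T := by
    have h1 := classI44 (ι := Fin n) (m := m) (t + 1) a n jw hn (Fintype.card_fin n)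
      (by omega) δ hδ
    refine h1.trans (P2_mono ?_)
    linarith
  -- class III
  have cO : (cnt (ClO44 t m n ε) : ℝ) ≤ T := by
    have h1 := omega_all44 (ι := Fin n) (V := Fin m → ZMod 2) (t + 1) a n hn
      (Fintype.card_fin n) m hcard ε
    refine h1.trans ((mul_le_mul_of_nonneg_right hlamR (P2_pos _).le).trans ?_)
    rw [← P2_add]
    apply P2_mono
    linarith
  -- class D
  have cD : ∀ J : ℕ → Finset (Fin m), P288.Chain J →
      (cnt (ClD44 t g m n j0 j1 δ δ' J) : ℝ) ≤ T := by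
    intro J hJ
    have hJc : (J j0).card = j0 := hJ.card (by omega)
    have hB : (nX (Fin n) (J j0 → ZMod 2) (t + 2) : ℝ)
        ≤ (j0 + 1) * P2 (j0 * n / 2 + (a + 2) * n) := by
      have h1 := hF.null (ι := Fin n) (V := J j0 → ZMod 2) (Fintype.card_fin n).le j0 (by
        rw [card_funJ, hJc])
      rw [Fintype.card_fin] at h1
      exact h1
    have h1 := P288.countD51 (ι := Fin n) t g δ δ' θ _ J hJ j0 j1 hj01 (by omega) (by
      rw [Fintype.card_fin]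
      exact hθ) hθ0 hB
    rw [Fintype.card_fin] at h1
    refine h1.trans ?_
    have h2 : ((j0 : ℝ) + 1) ≤ P2 lam := by
      have : (j0 : ℝ) ≤ m := by
        have : j0 ≤ m := by omega
        exact_mod_cast this
      linarith
    refine (mul_le_mul_of_nonneg_right (mul_le_mul_of_nonneg_right h2 (P2_pos _).le)
      (P2_pos _).le).trans ?_
    rw [← P2_add, ← P2_add]
    apply P2_mono
    have h3 : ((j1 : ℝ) - j0) * (1 + (1 / 2 - δ') * n)
        = ((j1 : ℝ) - j0) + (j1 - j0) * n / 2 - (j1 - j0) * (δ' * n) := by ring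
    have h4 : ((m : ℝ) - j1) * ((1 / 2 + δ) * n) = (m - j1) * n / 2 + (m - j1) * (δ * n) := by ring
    rw [h3, h4]
    linarith
  -- classes K and N
  have cKN : ∀ (J : Finset (Fin m)) (j : ℕ), J.card = j → j0 ≤ j → j < j1 →
      (cnt (ClK44 t ρ p0 m n δ J) : ℝ) ≤ T ∧ (cnt (ClN44 t c ρ p p1 m n δ J) : ℝ) ≤ T := by
    intro J j hJ h0 h1
    have h0R : (j0 : ℝ) ≤ j := by exact_mod_cast h0
    have hjm : (j : ℝ) ≤ m := by
      have : j ≤ m := by omega
      exact_mod_cast this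
    have hρ0 : (0 : ℝ) ≤ ρ := Nat.cast_nonneg _
    have e1 : ((m : ℝ) - j) * (δ * n) ≤ (m - j0) * (δ * n) :=
      mul_le_mul_of_nonneg_right (by linarith) hδn
    have e2 : (j : ℝ) * (ρ + 1) ≤ m * (ρ + 1) := mul_le_mul_of_nonneg_right hjm (by linarith)
    constructor
    · have h2 := countK37 t a a2 ρ p0 m n J hF hρ2 δ
      rw [hJ] at h2
      refine h2.trans (P2_mono ?_)
      have e3 : (p0 : ℝ) * ((j0 : ℝ) / 2 - a2) ≤ p0 * ((j : ℝ) / 2 - a2) :=
        mul_le_mul_of_nonneg_left (by linarith) (Nat.cast_nonneg _)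
      linarith
    · have h2 := countN37 t a b c ρ p1 p L m n J ht hF hρb hL hρp δ
      rw [hJ] at h2
      refine h2.trans (P2_mono ?_)
      have hρpR : (ρ : ℝ) ≤ p1 := by exact_mod_cast hρp
      have e3 : ((p1 : ℝ) - ρ) * ((j0 : ℝ) - c - 5 * b) ≤ (p1 - ρ) * ((j : ℝ) - c - 5 * b) :=
        mul_le_mul_of_nonneg_left (by linarith) (by linarith)
      linarith
  -- the union
  set Q : Fin m × (Bool × Bool) → (Fin n → (Fin m → ZMod 2)) → Prop := fun q x =>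
    (j0 ≤ (q.1 : ℕ) ∧ (q.1 : ℕ) < j1) ∧
        (if q.2.2 then ClK44 t ρ p0 m n δ (if q.2.1 then pre44 m q.1 else suf44 m q.1) x
          else ClN44 t c ρ p p1 m n δ (if q.2.1 then pre44 m q.1 else suf44 m q.1) x) with hQ
  have cQ : ∀ q, (cnt (Q q) : ℝ) ≤ T := by
    intro q
    by_cases hq : j0 ≤ (q.1 : ℕ) ∧ (q.1 : ℕ) < j1
    · have hJ : (if q.2.1 then pre44 m q.1 else suf44 m q.1).card = (q.1 : ℕ) := by
        by_cases hb : q.2.1
        · rw [if_pos hb]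
          exact (chain_pre44 m).card (by omega)
        · rw [if_neg hb]
          exact (chain_suf44 m).card (by omega)
      have h1 := cKN _ _ hJ hq.1 hq.2
      by_cases hb : q.2.2
      · refine le_trans ?_ h1.1
        refine Nat.cast_le.2 (cnt_mono (fun x hx => ?_))
        have h2 := hx.2
        rwa [if_pos hb] at h2
      · refine le_trans ?_ h1.2
        refine Nat.cast_le.2 (cnt_mono (fun x hx => ?_))
        have h2 := hx.2
        rwa [if_neg hb] at h2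
    · have h0 : cnt (Q q) = 0 := by
        unfold cnt
        rw [Nat.card_eq_zero]
        left
        exact ⟨fun z => hq z.2.1⟩
      rw [h0, Nat.cast_zero]
      exact hT0.le
  have hcov : cnt (fun x : Fin n → (Fin m → ZMod 2) =>
      Function.Injective x ∧ Null (t + 2) x ∧ ¬ Str κ x)
      ≤ cnt (ClI44 t m n jw δ) + (cnt (ClO44 t m n ε) + (cnt (ClD44 t g m n j0 j1 δ δ' (pre44 m))
        + (cnt (ClD44 t g m n j0 j1 δ δ' (suf44 m)) + ∑ q, cnt (Q q)))) := by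
    refine le_trans (cnt_mono (fun x hx => cover44 t c ρ p0 p p1 g j0 j1 jw κ m n δ δ' ε ht hj0 hj1
      hm2 hjw hE hS x hx.1 hx.2.1 hx.2.2)) ?_
    refine (cnt_or_le44 _ _).trans (Nat.add_le_add_left ?_ _)
    refine (cnt_or_le44 _ _).trans (Nat.add_le_add_left ?_ _)
    refine (cnt_or_le44 _ _).trans (Nat.add_le_add_left ?_ _)
    refine (cnt_or_le44 _ _).trans (Nat.add_le_add_left ?_ _)
    exact cnt_exists Q
  unfold NotStr44
  have hcovR : (cnt (fun x : Fin n → (Fin m → ZMod 2) =>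
      Function.Injective x ∧ Null (t + 2) x ∧ ¬ Str κ x) : ℝ)
      ≤ T + (T + (T + (T + ∑ _q : Fin m × (Bool × Bool), T))) := by
    have h1 : (cnt (fun x : Fin n → (Fin m → ZMod 2) =>
        Function.Injective x ∧ Null (t + 2) x ∧ ¬ Str κ x) : ℝ)
        ≤ ((cnt (ClI44 t m n jw δ) + (cnt (ClO44 t m n ε)
        + (cnt (ClD44 t g m n j0 j1 δ δ' (pre44 m))
        + (cnt (ClD44 t g m n j0 j1 δ δ' (suf44 m)) + ∑ q, cnt (Q q)))) : ℕ) : ℝ) := by
      exact_mod_cast hcov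
    refine h1.trans ?_
    push_cast
    exact add_le_add cI (add_le_add cO (add_le_add (cD _ (chain_pre44 m))
      (add_le_add (cD _ (chain_suf44 m)) (Finset.sum_le_sum (fun q _ => cQ q)))))
  refine hcovR.trans ?_
  rw [Finset.sum_const, Finset.card_univ, Fintype.card_prod, Fintype.card_prod, Fintype.card_bool,
    Fintype.card_fin, nsmul_eq_mul]
  have h4 : P2 2 = 4 := by
    unfold P2
    rw [show (2 : ℝ) = ((2 : ℕ) : ℝ) by norm_num, Real.rpow_natCast]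
    norm_num
  have h5 : P2 ((m : ℝ) * n / 2 - G) = (P2 2 * P2 lam) * T := by
    rw [hT, ← P2_add, ← P2_add]
    congr 1
    ring
  rw [h5, h4]
  have h6 : (4 * ((m : ℝ) + 1)) * T ≤ (4 * P2 lam) * T :=
    mul_le_mul_of_nonneg_right (by linarith) hT0.le
  refine le_trans (le_of_eq ?_) h6
  push_cast
  ring

end RMH
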