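import Pool.Agent.RMX.Pairs71

/-!
The output of the non structured part (E5): from dense sets of good multipliers for two restrictions
of the family to many killed points or many disjoint pairs with functionals of small rank.
-/

set_option autoImplicit false
set_option linter.unusedSectionVars false

open scoped BigOperators
open Classical Module

namespace P288

open RMH

lemma finrank_map_codim {ι B : Type} [Fintype ι]
    [AddCommGroup B] [Module (ZMod 2) B] (f : (ι → ZMod 2) →ₗ[ZMod 2] B)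
    (D K : Submodule (ZMod 2) (ι → ZMod 2))
    (hDK : D ≤ K) (e : ℕ) (h : finrank (ZMod 2) K ≤ finrank (ZMod 2) D + e) :
    finrank (ZMod 2) ↥(K.map f) ≤ finrank (ZMod 2) ↥(D.map f) + e := by
  have h1 := finrank_map_add f K
  have h2 := finrank_map_add f D
  have h3 : D ⊓ LinearMap.ker f ≤ K ⊓ LinearMap.ker f := inf_le_inf_right _ hDK
  have h4 := Submodule.finrank_mono h3
  omega

/-- E5 -/
theorem nonstr_out {ι V₁ V₂ : Type} [Fintype ι] [AddCommGroup V₁] [Module (ZMod 2) V₁]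
    [AddCommGroup V₂] [Module (ZMod 2) V₂] (t κ g c p0 p : ℕ) (hκ : 1 ≤ κ)
    (hc : Fintype.card ι ≤ 2 ^ κ) (hpos : 0 < Fintype.card ι) (z₁ : ι → V₁) (z₂ : ι → V₂)
    (K P : Submodule (ZMod 2) (ι → ZMod 2)) (G₁ G₂ : Finset (ι → ZMod 2))
    (hne₁ : G₁.Nonempty) (hne₂ : G₂.Nonempty)
    (hW₁ : ∀ w ∈ G₁, w ∈ WW t z₁) (hW₂ : ∀ w ∈ G₂, w ∈ WW t z₂)
    (hG₁ : (Finset.univ.filter (fun w : ι → ZMod 2 => w ∈ WW t z₁)).card ≤
      2 ^ (g + 1) * G₁.card)
    (hG₂ : (Finset.univ.filter (fun w : ι → ZMod 2 => w ∈ WW t z₂)).card ≤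
      2 ^ (g + 1) * G₂.card)
    (hD₁ : ∀ w ∈ G₁, finrank (ZMod 2) K ≤ finrank (ZMod 2) (Dw K P w) + c)
    (hD₂ : ∀ w ∈ G₂, finrank (ZMod 2) K ≤ finrank (ZMod 2) (Dw K P w) + c)
    (hP : (finrank (ZMod 2) P : ℝ) ≤ (1 / 2 + 1 / (200 * κ)) * Fintype.card ι)
    (hK : (finrank (ZMod 2) K : ℝ) ≤ (1 / 2 + 1 / (200 * κ)) * Fintype.card ι)
    (hΩ : ∀ Ω : Finset ι, (Ω.card : ℝ) / 2 - Fintype.card ι / (400 * κ) ≤
      finrank (ZMod 2) ↥(K.map (pull (fun i : Ω => (i : ι)))))
    (hcc : (40 * κ * c : ℝ) < Fintype.card ι / (400 * κ))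
    (hp : ((p0 + 3 * p : ℕ) : ℝ) ≤ Fintype.card ι / (200 * κ)) :
    (∃ Ω : Finset ι, p0 ≤ Ω.card ∧
      finrank (ZMod 2) ↥((PP V₁ t).map (pull (fun i : Ω => z₁ i))) ≤ 4 * (g + 2) ∧
      finrank (ZMod 2) ↥((PP V₂ t).map (pull (fun i : Ω => z₂ i))) ≤ 4 * (g + 2)) ∨
    (∃ u v : Fin p → ι, Function.Injective (Sum.elim u v) ∧
      finrank (ZMod 2) ↥((PP V₁ t).map (dif (fun b => z₁ (u b)) (fun b => z₁ (v b)))) ≤
        4 * (g + 2) ∧
      finrank (ZMod 2) ↥((PP V₂ t).map (dif (fun b => z₂ (u b)) (fun b => z₂ (v b)))) ≤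
        4 * (g + 2)) := by
  obtain ⟨w, hwG, hwsep, hwkill⟩ := exists_tuple κ hκ hc hpos G₁ hne₁
  obtain ⟨w', hwG', hwsep', hwkill'⟩ := exists_tuple κ hκ hc hpos G₂ hne₂
  -- the intersection
  obtain ⟨D, hDK, hDA, hDcod⟩ := finrank_inter K c
    (Finset.univ : Finset (Fin (20 * κ) ⊕ Fin (20 * κ)))
    (Sum.elim (fun s => Dw K P (w s)) (fun s => Dw K P (w' s))) (by
      rintro (s | s) _
      · exact ⟨inf_le_left, hD₁ _ (hwG s)⟩
      · exact ⟨inf_le_left, hD₂ _ (hwG' s)⟩)
  have hcard40 : (Finset.univ : Finset (Fin (20 * κ) ⊕ Fin (20 * κ))).card = 40 * κ := by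
    rw [Finset.card_univ, Fintype.card_sum, Fintype.card_fin]
    ring
  rw [hcard40] at hDcod
  have hDw : ∀ s, D ≤ Dw K P (w s) := fun s => hDA (Sum.inl s) (Finset.mem_univ _)
  have hDw' : ∀ s, D ≤ Dw K P (w' s) := fun s => hDA (Sum.inr s) (Finset.mem_univ _)
  set L : Submodule (ZMod 2) (ι → ZMod 2) :=
    Submodule.span (ZMod 2) (Set.range w ∪ Set.range w') with hL
  have hDL : D * L ≤ P := by
    rw [Submodule.mul_le]
    intro y hy l hl
    have h1 : L ≤ P.comap (LinearMap.mulLeft (ZMod 2) y) := by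
      rw [hL, Submodule.span_le]
      rintro _ (⟨s, rfl⟩ | ⟨s, rfl⟩)
      · have h2 := (mem_Dw.1 (hDw s hy)).2
        show y * w s ∈ P
        rw [mul_comm]
        exact h2
      · have h2 := (mem_Dw.1 (hDw' s hy)).2
        show y * w' s ∈ P
        rw [mul_comm]
        exact h2
    exact h1 hl
  have hDLr : (finrank (ZMod 2) ↥(D * L) : ℝ) ≤ (1 / 2 + 1 / (200 * κ)) * Fintype.card ι := by
    refine le_trans ?_ hP
    exact_mod_cast Submodule.finrank_mono hDL
  have hDr : (finrank (ZMod 2) D : ℝ) ≤ (1 / 2 + 1 / (200 * κ)) * Fintype.card ι := by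
    refine le_trans ?_ hK
    exact_mod_cast Submodule.finrank_mono hDK
  have hκR : (0 : ℝ) < κ := by exact_mod_cast hκ
  rcases dich_classes L D κ hκ hc hpos hDLr hDr with ⟨Ω, hΩD⟩ | hbad
  · -- a deficient set: impossible
    exfalso
    have h1 := finrank_map_codim (pull (fun i : Ω => (i : ι))) D K hDK _ hDcod
    have h2 : (finrank (ZMod 2) ↥(K.map (pull (fun i : Ω => (i : ι)))) : ℝ) ≤
        finrank (ZMod 2) ↥(D.map (pull (fun i : Ω => (i : ι)))) + (40 * κ * c : ℕ) := by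
      exact_mod_cast h1
    have h3 := hΩ Ω
    have h4 : (Fintype.card ι : ℝ) / (200 * κ) = Fintype.card ι / (400 * κ) +
        Fintype.card ι / (400 * κ) := by
      field_simp
      norm_num
    push_cast at h2
    linarith
  · -- many bad points
    set Kl : Finset ι := (badPts L).filter (fun i => (∀ s, w s i = 0) ∧ ∀ s, w' s i = 0) with hKl
    by_cases hk : p0 ≤ Kl.card
    · left
      refine ⟨Kl, hk, ?_, ?_⟩
      · apply killed_rank t g z₁ G₁ hW₁ hne₁ hG₁ Kl
        intro i hi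
        exact hwkill i (Finset.mem_filter.1 hi).2.1
      · apply killed_rank t g z₂ G₂ hW₂ hne₂ hG₂ Kl
        intro i hi
        exact hwkill' i (Finset.mem_filter.1 hi).2.2
    · right
      push Not at hk
      set S : Finset ι := badPts L \ Kl with hS
      have hwL : ∀ s, w s ∈ L := fun s => Submodule.subset_span (Or.inl ⟨s, rfl⟩)
      have hwL' : ∀ s, w' s ∈ L := fun s => Submodule.subset_span (Or.inr ⟨s, rfl⟩)
      have hScard : 3 * p ≤ S.card := by
        have h1 : p0 + 3 * p ≤ (badPts L).card := by exact_mod_cast hp.trans hbad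
        have h2 : S.card + Kl.card = (badPts L).card := by
          rw [hS]
          exact Finset.card_sdiff_add_card_eq_card (Finset.filter_subset _ _)
        omega
      obtain ⟨p', hp', u, v, hinj, huv⟩ := exists_pairs
        (fun i => ((fun s => w s i : Fin (20 * κ) → ZMod 2),
          (fun s => w' s i : Fin (20 * κ) → ZMod 2))) S (by
        intro i hi
        obtain ⟨hib, hiK⟩ := Finset.mem_sdiff.1 hi
        have h1 := (Finset.mem_filter.1 hib).2
        rcases h1 with h1 | ⟨j, hji, hj⟩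
        · exfalso
          apply hiK
          rw [hKl, Finset.mem_filter]
          exact ⟨hib, fun s => h1 _ (hwL s), fun s => h1 _ (hwL' s)⟩
        · refine ⟨j, hji, ?_⟩
          rw [Prod.mk.injEq]
          exact ⟨funext fun s => (hj _ (hwL s)).symm, funext fun s => (hj _ (hwL' s)).symm⟩)
      have hpp : p ≤ p' := by omega
      refine ⟨u ∘ Fin.castLE hpp, v ∘ Fin.castLE hpp, take_pairs hpp u v hinj, ?_, ?_⟩
      · apply pairs_rank t g z₁ G₁ hW₁ hne₁ hG₁
        intro b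
        apply hwsep
        intro s
        have := huv (Fin.castLE hpp b)
        rw [Prod.mk.injEq] at this
        exact congrFun this.1 s
      · apply pairs_rank t g z₂ G₂ hW₂ hne₂ hG₂
        intro b
        apply hwsep'
        intro s
        have := huv (Fin.castLE hpp b)
        rw [Prod.mk.injEq] at this
        exact congrFun this.2 s

/-- the good multipliers: from many rows of small growth to a dense set of multipliers with a large
space of partners (E3, in the form used by `nonstr_out`) -/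
theorem good_mult {ι V : Type} [Fintype ι] [AddCommGroup V] [Module (ZMod 2) V] (t g : ℕ)
    (z : ι → V) (K₀ P₀ : Submodule (ZMod 2) (ι → ZMod 2)) (Y : Finset (ι → ZMod 2))
    (hYne : Y.Nonempty) (hYK : ∀ y ∈ Y, y ∈ K₀)
    (hY : ∀ y ∈ Y, finrank (ZMod 2) ↥(P₀ ⊔ (WW t z).map (LinearMap.mulLeft (ZMod 2) y)) ≤
      finrank (ZMod 2) P₀ + g) :
    ∃ G : Finset (ι → ZMod 2), G.Nonempty ∧ (∀ w ∈ G, w ∈ WW t z) ∧
      (Finset.univ.filter (fun w : ι → ZMod 2 => w ∈ WW t z)).card ≤ 2 ^ (g + 1) * G.card ∧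
      ∀ w ∈ G, Y.card ≤ 2 ^ (g + 1) * 2 ^ finrank (ZMod 2) (Dw K₀ P₀ w) := by
  set X : Finset (ι → ZMod 2) := Finset.univ.filter (fun w : ι → ZMod 2 => w ∈ WW t z) with hX
  have h1 := good_dense X Y (fun w y => y * w ∈ P₀) g hYne (by
    intro y hy
    refine (card_of_growth P₀ (WW t z) y g (hY y hy)).trans (le_of_eq ?_)
    congr 2
    ext w
    simp only [hX, Finset.mem_filter, Finset.mem_univ, true_and])
  set G := X.filter (fun w => Y.card ≤ 2 ^ (g + 1) * (Y.filter (fun y => y * w ∈ P₀)).card)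
    with hG
  refine ⟨G, ?_, ?_, h1, ?_⟩
  · have hXpos : 0 < X.card := Finset.card_pos.2 ⟨0, by
      rw [hX, Finset.mem_filter]; exact ⟨Finset.mem_univ _, Submodule.zero_mem _⟩⟩
    rw [← Finset.card_pos]
    by_contra hcon
    have : G.card = 0 := by omega
    rw [this] at h1
    omega
  · intro w hw
    exact (Finset.mem_filter.1 (Finset.mem_filter.1 hw).1).2
  · intro w hw
    refine (Finset.mem_filter.1 hw).2.trans ?_
    apply Nat.mul_le_mul_left
    have h2 := Module.card_eq_pow_finrank (K := ZMod 2) (V := Dw K₀ P₀ w)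
    rw [ZMod.card] at h2
    rw [← h2]
    have h3 : Fintype.card (Dw K₀ P₀ w) =
        (Finset.univ.filter (fun y : ι → ZMod 2 => y ∈ Dw K₀ P₀ w)).card :=
      Fintype.card_of_subtype _ (by simp)
    rw [h3]
    apply Finset.card_le_card
    intro y hy
    obtain ⟨hyY, hyP⟩ := Finset.mem_filter.1 hy
    rw [Finset.mem_filter]
    refine ⟨Finset.mem_univ _, mem_Dw.2 ⟨hYK y hyY, ?_⟩⟩
    rw [mul_comm]
    exact hyP

end P288
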