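import Pool.Agent.Helper37.RM.LinA
import Pool.Agent.RMX.Dense71

/-!
Extraction of disjoint pairs (E4) and the output of the non structured part (E5).
-/

set_option autoImplicit false
set_option linter.unusedSectionVars false

open scoped BigOperators
open Classical Module

namespace P288

open RMH

/-- E4: disjoint pairs inside the classes of `f` -/
theorem exists_pairs {ι α : Type} [Fintype ι] (f : ι → α) (S : Finset ι)
    (hS : ∀ i ∈ S, ∃ j, j ≠ i ∧ f j = f i) :
    ∃ p : ℕ, S.card ≤ 3 * p ∧ ∃ u v : Fin p → ι, Function.Injective (Sum.elim u v) ∧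
      ∀ b, f (u b) = f (v b) := by
  -- a maximal family
  set Q : ℕ → Prop := fun p => ∃ u v : Fin p → ι, Function.Injective (Sum.elim u v) ∧
      ∀ b, f (u b) = f (v b) with hQ
  have hbound : ∀ p, Q p → p ≤ Fintype.card ι := by
    rintro p ⟨u, v, hinj, -⟩
    have h1 := Fintype.card_le_of_injective _ hinj
    rw [Fintype.card_sum, Fintype.card_fin] at h1
    omega
  have hQ0 : Q 0 := ⟨Fin.elim0, Fin.elim0, fun a => by rcases a with a | a <;> exact a.elim0,
    fun b => b.elim0⟩
  set p := Nat.findGreatest Q (Fintype.card ι) with hp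
  have hQp : Q p := Nat.findGreatest_spec (P := Q) (Nat.zero_le _) hQ0
  have hmax : ¬ Q (p + 1) := by
    intro h
    have h1 := Nat.le_findGreatest (P := Q) (hbound _ h) h
    omega
  obtain ⟨u, v, hinj, huv⟩ := hQp
  refine ⟨p, ?_, u, v, hinj, huv⟩
  -- the used points
  set U : Finset ι := Finset.univ.image (Sum.elim u v) with hU
  have hUcard : U.card = 2 * p := by
    rw [hU, Finset.card_image_of_injective _ hinj, Finset.card_univ, Fintype.card_sum,
      Fintype.card_fin]
    ring
  -- two unused points lie in different classes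
  have hdiff : ∀ i j, i ∉ U → j ∉ U → i ≠ j → f i ≠ f j := by
    intro i j hi hj hij hf
    apply hmax
    refine ⟨Fin.snoc u i, Fin.snoc v j, ?_, ?_⟩
    · have hu : ∀ b, u b ∈ U := fun b => Finset.mem_image.2 ⟨Sum.inl b, Finset.mem_univ _, rfl⟩
      have hv : ∀ b, v b ∈ U := fun b => Finset.mem_image.2 ⟨Sum.inr b, Finset.mem_univ _, rfl⟩
      have hinj' : ∀ a b, Sum.elim u v a = Sum.elim u v b → a = b := fun a b h => hinj h
      have huu : ∀ a b : Fin p, u a = u b → a = b := fun a b h => by
        have := hinj' (Sum.inl a) (Sum.inl b) h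
        exact Sum.inl.inj this
      have hvv : ∀ a b : Fin p, v a = v b → a = b := fun a b h => by
        have := hinj' (Sum.inr a) (Sum.inr b) h
        exact Sum.inr.inj this
      have huvne : ∀ a b : Fin p, u a ≠ v b := fun a b h => by
        have := hinj' (Sum.inl a) (Sum.inr b) h
        exact absurd this (by simp)
      have huni : ∀ a, u a ≠ i := fun a h => hi (h ▸ hu a)
      have hunj : ∀ a, u a ≠ j := fun a h => hj (h ▸ hu a)
      have hvni : ∀ a, v a ≠ i := fun a h => hi (h ▸ hv a)
      have hvnj : ∀ a, v a ≠ j := fun a h => hj (h ▸ hv a)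
      rintro (a | a) (b | b) hab
      · simp only [Sum.elim_inl] at hab
        congr 1
        induction a using Fin.lastCases with
        | last =>
          induction b using Fin.lastCases with
          | last => rfl
          | cast b =>
            rw [Fin.snoc_last, Fin.snoc_castSucc] at hab
            exact absurd hab.symm (huni b)
        | cast a =>
          induction b using Fin.lastCases with
          | last =>
            rw [Fin.snoc_last, Fin.snoc_castSucc] at hab
            exact absurd hab (huni a)
          | cast b =>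
            rw [Fin.snoc_castSucc, Fin.snoc_castSucc] at hab
            rw [huu a b hab]
      · simp only [Sum.elim_inl, Sum.elim_inr] at hab
        exfalso
        induction a using Fin.lastCases with
        | last =>
          induction b using Fin.lastCases with
          | last =>
            rw [Fin.snoc_last, Fin.snoc_last] at hab
            exact hij hab
          | cast b =>
            rw [Fin.snoc_last, Fin.snoc_castSucc] at hab
            exact hvni b hab.symm
        | cast a =>
          induction b using Fin.lastCases with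
          | last =>
            rw [Fin.snoc_last, Fin.snoc_castSucc] at hab
            exact hunj a hab
          | cast b =>
            rw [Fin.snoc_castSucc, Fin.snoc_castSucc] at hab
            exact huvne a b hab
      · simp only [Sum.elim_inl, Sum.elim_inr] at hab
        exfalso
        induction a using Fin.lastCases with
        | last =>
          induction b using Fin.lastCases with
          | last =>
            rw [Fin.snoc_last, Fin.snoc_last] at hab
            exact hij hab.symm
          | cast b =>
            rw [Fin.snoc_last, Fin.snoc_castSucc] at hab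
            exact hunj b hab.symm
        | cast a =>
          induction b using Fin.lastCases with
          | last =>
            rw [Fin.snoc_last, Fin.snoc_castSucc] at hab
            exact hvni a hab
          | cast b =>
            rw [Fin.snoc_castSucc, Fin.snoc_castSucc] at hab
            exact huvne b a hab.symm
      · simp only [Sum.elim_inr] at hab
        congr 1
        induction a using Fin.lastCases with
        | last =>
          induction b using Fin.lastCases with
          | last => rfl
          | cast b =>
            rw [Fin.snoc_last, Fin.snoc_castSucc] at hab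
            exact absurd hab.symm (hvnj b)
        | cast a =>
          induction b using Fin.lastCases with
          | last =>
            rw [Fin.snoc_last, Fin.snoc_castSucc] at hab
            exact absurd hab (hvnj a)
          | cast b =>
            rw [Fin.snoc_castSucc, Fin.snoc_castSucc] at hab
            rw [hvv a b hab]
    · intro b
      induction b using Fin.lastCases with
      | last => rw [Fin.snoc_last, Fin.snoc_last]; exact hf
      | cast b => rw [Fin.snoc_castSucc, Fin.snoc_castSucc]; exact huv b
  -- unused points of `S` are counted by the pairs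
  have hun : (S \ U).card ≤ p := by
    have h1 : ∀ i ∈ S \ U, ∃ b : Fin p, f (u b) = f i := by
      intro i hi
      obtain ⟨hiS, hiU⟩ := Finset.mem_sdiff.1 hi
      obtain ⟨j, hji, hfj⟩ := hS i hiS
      have hjU : j ∈ U := by
        by_contra hjU
        exact hdiff j i hjU hiU hji hfj
      obtain ⟨c, -, hc⟩ := Finset.mem_image.1 hjU
      rcases c with c | c
      · refine ⟨c, ?_⟩
        rw [Sum.elim_inl] at hc
        rw [hc, hfj]
      · refine ⟨c, ?_⟩
        rw [Sum.elim_inr] at hc
        rw [huv, hc, hfj]
    have h2 : ∀ i : ↥(S \ U), ∃ b : Fin p, f (u b) = f i := fun i => h1 i.1 i.2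
    choose b hb using h2
    have h3 : Function.Injective b := by
      intro i j hij
      by_contra hne
      apply hdiff i.1 j.1 (Finset.mem_sdiff.1 i.2).2 (Finset.mem_sdiff.1 j.2).2
        (fun h => hne (Subtype.ext h))
      rw [← hb i, ← hb j, hij]
    have h4 := Fintype.card_le_of_injective b h3
    rw [Fintype.card_coe, Fintype.card_fin] at h4
    exact h4
  calc S.card ≤ (S \ U).card + U.card := by
        have := Finset.card_le_card (Finset.subset_union_left (s₁ := S) (s₂ := U))
        have h2 := Finset.card_union_le (S \ U) U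
        rw [Finset.sdiff_union_self_eq_union] at h2
        omega
    _ ≤ p + 2 * p := by omega
    _ = 3 * p := by ring

/-- fewer pairs -/
lemma take_pairs {ι : Type} {p q : ℕ} (hpq : q ≤ p) (u v : Fin p → ι)
    (h : Function.Injective (Sum.elim u v)) :
    Function.Injective (Sum.elim (u ∘ Fin.castLE hpq) (v ∘ Fin.castLE hpq)) := by
  have e : Sum.elim (u ∘ Fin.castLE hpq) (v ∘ Fin.castLE hpq) =
      Sum.elim u v ∘ Sum.map (Fin.castLE hpq) (Fin.castLE hpq) := by
    funext a
    rcases a with a | a <;> rfl
  rw [e]
  exact h.comp (Sum.map_injective.2 ⟨Fin.castLE_injective hpq, Fin.castLE_injective hpq⟩)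

/-- the multipliers of degree `t` -/
noncomputable def WW {ι V : Type} [AddCommGroup V] [Module (ZMod 2) V] (t : ℕ) (z : ι → V) :
    Submodule (ZMod 2) (ι → ZMod 2) := (PP V t).map (pull z)

/-- the rank bound for killed points -/
lemma killed_rank {ι V : Type} [Fintype ι] [AddCommGroup V] [Module (ZMod 2) V] (t g : ℕ)
    (z : ι → V) (G : Finset (ι → ZMod 2)) (hGW : ∀ w ∈ G, w ∈ WW t z) (hne : G.Nonempty)
    (hG : (Finset.univ.filter (fun w : ι → ZMod 2 => w ∈ WW t z)).card ≤ 2 ^ (g + 1) * G.card)
    (Ω : Finset ι) (h : ∀ i ∈ Ω, 10 * (G.filter (fun w => w i ≠ 0)).card ≤ G.card) :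
    finrank (ZMod 2) ↥((PP V t).map (pull (fun i : Ω => z i))) ≤ 4 * (g + 2) := by
  set φ : WW t z →ₗ[ZMod 2] (Ω → ZMod 2) :=
    (pull (fun i : Ω => (i : ι))).comp (WW t z).subtype with hφ
  have hrange : LinearMap.range φ = (PP V t).map (pull (fun i : Ω => z i)) := by
    rw [hφ, LinearMap.range_comp, Submodule.range_subtype, WW, ← Submodule.map_comp]
    rfl
  set G' : Finset (WW t z) := Finset.univ.filter (fun w => (w : ι → ZMod 2) ∈ G) with hG'
  have hGG : ∀ q : (ι → ZMod 2) → Prop, (G'.filter (fun w : WW t z => q (w : ι → ZMod 2))).card =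
      (G.filter q).card := by
    intro q
    refine Finset.card_nbij (fun w : WW t z => (w : ι → ZMod 2)) ?_ ?_ ?_
    · intro w hw
      simp only [hG', Finset.coe_filter, Finset.mem_filter, Finset.mem_univ, true_and,
        Set.mem_ofPred_eq] at hw ⊢
      exact hw
    · intro w _ w' _ h
      exact Subtype.ext h
    · intro w hw
      simp only [Finset.coe_filter, Set.mem_ofPred_eq] at hw
      refine ⟨⟨w, hGW w hw.1⟩, ?_, rfl⟩
      simp only [hG', Finset.coe_filter, Finset.mem_filter, Finset.mem_univ, true_and,
        Set.mem_ofPred_eq]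
      exact hw
  have hcard : G'.card = G.card := by
    have := hGG (fun _ => True)
    simpa using this
  rw [← hrange]
  refine rank_of_dense φ G' g ?_ ?_ ?_
  · obtain ⟨w, hw⟩ := hne
    exact ⟨⟨w, hGW w hw⟩, by rw [hG', Finset.mem_filter]; exact ⟨Finset.mem_univ _, hw⟩⟩
  · rw [hcard]
    refine le_trans (le_of_eq ?_) hG
    exact Fintype.card_of_subtype _ (by simp)
  · intro i
    rw [hcard]
    refine le_trans (le_of_eq ?_) (h i i.2)
    congr 1
    convert hGG (fun w => w i ≠ 0) using 2
    · ext w
      simp only [Finset.mem_filter]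
      exact Iff.rfl
    · ext w
      simp only [Finset.mem_filter]

/-- the rank bound for pairs -/
lemma pairs_rank {ι V : Type} [Fintype ι] [AddCommGroup V] [Module (ZMod 2) V] (t g : ℕ)
    (z : ι → V) (G : Finset (ι → ZMod 2)) (hGW : ∀ w ∈ G, w ∈ WW t z) (hne : G.Nonempty)
    (hG : (Finset.univ.filter (fun w : ι → ZMod 2 => w ∈ WW t z)).card ≤ 2 ^ (g + 1) * G.card)
    {p : ℕ} (u v : Fin p → ι)
    (h : ∀ b, 10 * (G.filter (fun w => w (u b) ≠ w (v b))).card ≤ G.card) :
    finrank (ZMod 2) ↥((PP V t).map (dif (fun b => z (u b)) (fun b => z (v b)))) ≤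
      4 * (g + 2) := by
  set φ : WW t z →ₗ[ZMod 2] (Fin p → ZMod 2) := (dif u v).comp (WW t z).subtype with hφ
  have hrange : LinearMap.range φ = (PP V t).map (dif (fun b => z (u b)) (fun b => z (v b))) := by
    rw [hφ, LinearMap.range_comp, Submodule.range_subtype, WW, ← Submodule.map_comp]
    rfl
  set G' : Finset (WW t z) := Finset.univ.filter (fun w => (w : ι → ZMod 2) ∈ G) with hG'
  have hGG : ∀ q : (ι → ZMod 2) → Prop, (G'.filter (fun w : WW t z => q (w : ι → ZMod 2))).card =
      (G.filter q).card := by
    intro q
    refine Finset.card_nbij (fun w : WW t z => (w : ι → ZMod 2)) ?_ ?_ ?_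
    · intro w hw
      simp only [hG', Finset.coe_filter, Finset.mem_filter, Finset.mem_univ, true_and,
        Set.mem_ofPred_eq] at hw ⊢
      exact hw
    · intro w _ w' _ h
      exact Subtype.ext h
    · intro w hw
      simp only [Finset.coe_filter, Set.mem_ofPred_eq] at hw
      refine ⟨⟨w, hGW w hw.1⟩, ?_, rfl⟩
      simp only [hG', Finset.coe_filter, Finset.mem_filter, Finset.mem_univ, true_and,
        Set.mem_ofPred_eq]
      exact hw
  have hcard : G'.card = G.card := by
    have := hGG (fun _ => True)
    simpa using this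
  rw [← hrange]
  refine rank_of_dense φ G' g ?_ ?_ ?_
  · obtain ⟨w, hw⟩ := hne
    exact ⟨⟨w, hGW w hw⟩, by rw [hG', Finset.mem_filter]; exact ⟨Finset.mem_univ _, hw⟩⟩
  · rw [hcard]
    refine le_trans (le_of_eq ?_) hG
    exact Fintype.card_of_subtype _ (by simp)
  · intro b
    have h1 := hGG (fun w => w (u b) ≠ w (v b))
    have h2 : (G'.filter (fun w => φ w b ≠ 0)) =
        (G'.filter (fun w : WW t z => (w : ι → ZMod 2) (u b) ≠ (w : ι → ZMod 2) (v b))) := by
      apply Finset.filter_congr
      intro w _
      have e1 : φ w b = (w : ι → ZMod 2) (u b) + (w : ι → ZMod 2) (v b) := rfl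
      rw [e1]
      constructor
      · intro h3 h4
        apply h3
        rw [h4]
        exact RMC.zmod2_add_self _
      · intro h3 h4
        apply h3
        have h5 : (w : ι → ZMod 2) (u b) = -(w : ι → ZMod 2) (v b) := by
          rw [← add_eq_zero_iff_eq_neg]; exact h4
        rw [h5, ZMod.neg_eq_self_mod_two]
    rw [hcard]
    refine le_trans (le_of_eq ?_) (h b)
    congr 1
    rw [h2]
    convert h1 using 2
    · ext w
      simp only [Finset.mem_filter]
    · ext w
      simp only [Finset.mem_filter]

/-- the rows of `K` whose product with `w` lies in `P` -/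
def Dw {ι : Type} (K P : Submodule (ZMod 2) (ι → ZMod 2)) (w : ι → ZMod 2) :
    Submodule (ZMod 2) (ι → ZMod 2) := K ⊓ P.comap (LinearMap.mulLeft (ZMod 2) w)

lemma mem_Dw {ι : Type} {K P : Submodule (ZMod 2) (ι → ZMod 2)} {w y : ι → ZMod 2} :
    y ∈ Dw K P w ↔ y ∈ K ∧ w * y ∈ P := Iff.rfl

/-- an intersection of subspaces of small codimension -/
lemma finrank_inter {ι : Type} [Fintype ι] (K : Submodule (ZMod 2) (ι → ZMod 2)) (c : ℕ)
    {σ : Type} (s : Finset σ) (A : σ → Submodule (ZMod 2) (ι → ZMod 2))
    (hA : ∀ i ∈ s, A i ≤ K ∧ finrank (ZMod 2) K ≤ finrank (ZMod 2) (A i) + c) :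
    ∃ D : Submodule (ZMod 2) (ι → ZMod 2), D ≤ K ∧ (∀ i ∈ s, D ≤ A i) ∧
      finrank (ZMod 2) K ≤ finrank (ZMod 2) D + s.card * c := by
  induction s using Finset.induction_on with
  | empty => exact ⟨K, le_rfl, by simp, by simp⟩
  | insert i s hi ih =>
    obtain ⟨D, hDK, hDA, hD⟩ := ih (fun j hj => hA j (Finset.mem_insert_of_mem hj))
    obtain ⟨hAi, hci⟩ := hA i (Finset.mem_insert_self _ _)
    refine ⟨D ⊓ A i, inf_le_left.trans hDK, ?_, ?_⟩
    · intro j hj
      rcases Finset.mem_insert.1 hj with rfl | hj
      · exact inf_le_right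
      · exact inf_le_left.trans (hDA j hj)
    · rw [Finset.card_insert_of_notMem hi]
      have h1 := Submodule.finrank_sup_add_finrank_inf_eq D (A i)
      have h2 := Submodule.finrank_mono (sup_le hDK hAi)
      have h3 : (s.card + 1) * c = s.card * c + c := by ring
      omega

end P288
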